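import Mathlib
import Pool.Agent.Lib_helper64.BH.ADDefs

set_option autoImplicit false

namespace BH

namespace AD

open Complex Polynomial

variable {ι : Type*} [Fintype ι] [DecidableEq ι]

section gen

variable {A A' : Type*} [CommRing A] [Algebra ℂ A] [CommRing A'] [Algebra ℂ A']

theorem map_Bx (φ : A →ₐ[ℂ] A') (t l : ℝ) (p q : A) :
    φ (Bx t l p q) = Bx t l (φ p) (φ q) := by
  simp only [Bx, map_add, map_mul, map_sub, map_one, AlgHom.commutes]

theorem map_nx (φ : A →ₐ[ℂ] A') (t l : ℝ) (q : A) :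
    φ (nx t l q) = nx t l (φ q) := by
  simp only [nx, map_add, map_mul, map_sub, map_pow, map_ofNat, AlgHom.commutes]

theorem map_Pr (φ : A →ₐ[ℂ] A') (t l : ι → ℝ) (p q : A) (i : ι) :
    φ (Pr t l p q i) = Pr t l (φ p) (φ q) i := by
  simp only [Pr, map_prod, map_Bx]

theorem map_Gx (φ : A →ₐ[ℂ] A') (μ : ι → ℕ) (t l : ι → ℝ) (p q : A) :
    φ (Gx μ t l p q) = Gx μ t l (φ p) (φ q) := by
  simp only [Gx, map_add, map_mul, map_sum, map_pow, map_Pr, map_nx, map_natCast,
    AlgHom.commutes]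

theorem q_Bx (t l : ℝ) (p q : A) :
    q * Bx t l p q + nx t l q = (1 + p * q) * (algebraMap ℂ A l * q + algebraMap ℂ A (1 - I * t)) := by
  simp only [Bx, nx]
  ring

end gen

section dom

variable {D : Type*} [CommRing D] [IsDomain D] [Algebra ℂ D]

theorem kk_ne (k : ℕ) (hk : 0 < k) : ((k : D) + algebraMap ℂ D (2 / 3) * (k : D) ^ 2) ≠ 0 := by
  have h1 : ((k : D) + algebraMap ℂ D (2 / 3) * (k : D) ^ 2)
      = algebraMap ℂ D ((k : ℂ) + 2 / 3 * (k : ℂ) ^ 2) := by
    simp only [map_add, map_mul, map_pow, map_natCast]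
  rw [h1]
  have h2 : ((k : ℂ) + 2 / 3 * (k : ℂ) ^ 2) ≠ 0 := by
    have : ((k : ℂ) + 2 / 3 * (k : ℂ) ^ 2) = (((k : ℝ) + 2 / 3 * (k : ℝ) ^ 2 : ℝ) : ℂ) := by
      push_cast; ring
    rw [this]
    have hk' : (0 : ℝ) < k := by exact_mod_cast hk
    have : (0 : ℝ) < (k : ℝ) + 2 / 3 * (k : ℝ) ^ 2 := by positivity
    exact_mod_cast this.ne'
  intro h
  exact h2 ((map_eq_zero_iff _ (FaithfulSMul.algebraMap_injective ℂ D)).mp h)

/-- case `1 + pq = 0` -/
theorem dom_case1 (μ : ι → ℕ) (hμ : ∀ i, 0 < μ i) (t l : ι → ℝ) (hne : Nonempty ι) (p q : D)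
    (hpq : 1 + p * q = 0) (hG : Gx μ t l p q = 0) : ∃ w, nx (t w) (l w) q = 0 := by
  have hB : ∀ w, q * Bx (t w) (l w) p q = - nx (t w) (l w) q := by
    intro w
    have := q_Bx (t w) (l w) p q
    rw [hpq, zero_mul] at this
    linear_combination this
  set n := Fintype.card ι
  set Nn : D := ∏ j, nx (t j) (l j) q with hNn
  have hX : ∀ w, q ^ (n - 1) * (nx (t w) (l w) q * Pr t l p q w) = (-1) ^ (n - 1) * Nn := by
    intro w
    have h1 : q ^ (n - 1) = ∏ _j ∈ Finset.univ.erase w, q := by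
      rw [Finset.prod_const, Finset.card_erase_of_mem (Finset.mem_univ w), Finset.card_univ]
    have h2 : ((-1 : D)) ^ (n - 1) = ∏ _j ∈ Finset.univ.erase w, (-1 : D) := by
      rw [Finset.prod_const, Finset.card_erase_of_mem (Finset.mem_univ w), Finset.card_univ]
    have h3 : Nn = nx (t w) (l w) q * ∏ j ∈ Finset.univ.erase w, nx (t j) (l j) q :=
      (Finset.mul_prod_erase _ _ (Finset.mem_univ w)).symm
    have h4 : q ^ (n - 1) * Pr t l p q w
        = (-1) ^ (n - 1) * ∏ j ∈ Finset.univ.erase w, nx (t j) (l j) q := by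
      rw [h1, h2, Pr, ← Finset.prod_mul_distrib, ← Finset.prod_mul_distrib]
      refine Finset.prod_congr rfl fun j _ => ?_
      rw [hB j]; ring
    rw [h3]
    linear_combination (nx (t w) (l w) q) * h4
  have hk : 0 < ∑ i, μ i := Finset.sum_pos (fun i _ => hμ i) Finset.univ_nonempty
  have e1 : q ^ (n - 1) * (∑ i, (μ i : D) * (nx (t i) (l i) q * Pr t l p q i))
      = ((∑ i, μ i : ℕ) : D) * ((-1) ^ (n - 1) * Nn) := by
    rw [Finset.mul_sum, Nat.cast_sum, Finset.sum_mul]
    refine Finset.sum_congr rfl fun i _ => ?_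
    rw [← hX i]; ring
  have e2 : (q ^ (n - 1)) ^ 2 * (∑ i, (μ i : D) * (nx (t i) (l i) q * Pr t l p q i) ^ 2)
      = ((∑ i, μ i : ℕ) : D) * ((-1) ^ (n - 1) * Nn) ^ 2 := by
    rw [Finset.mul_sum, Nat.cast_sum, Finset.sum_mul]
    refine Finset.sum_congr rfl fun i _ => ?_
    rw [← hX i]; ring
  have e3 : (q ^ (n - 1)) ^ 3 * (∑ i, (μ i : D) * (nx (t i) (l i) q * Pr t l p q i) ^ 3)
      = ((∑ i, μ i : ℕ) : D) * ((-1) ^ (n - 1) * Nn) ^ 3 := by
    rw [Finset.mul_sum, Nat.cast_sum, Finset.sum_mul]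
    refine Finset.sum_congr rfl fun i _ => ?_
    rw [← hX i]; ring
  have key : (((∑ i, μ i : ℕ) : D) + algebraMap ℂ D (2 / 3) * ((∑ i, μ i : ℕ) : D) ^ 2)
      * ((-1) ^ (n - 1) * Nn) ^ 3 = 0 := by
    have h := congrArg (fun z => (q ^ (n - 1)) ^ 3 * z) hG
    simp only [Gx, mul_zero] at h
    rw [← h]
    have : (q ^ (n - 1)) ^ 3 * ((∑ i, (μ i : D) * (nx (t i) (l i) q * Pr t l p q i) ^ 3)
        + algebraMap ℂ D (2 / 3) * (∑ i, (μ i : D) * (nx (t i) (l i) q * Pr t l p q i))
        * (∑ i, (μ i : D) * (nx (t i) (l i) q * Pr t l p q i) ^ 2))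
        = (q ^ (n - 1)) ^ 3 * (∑ i, (μ i : D) * (nx (t i) (l i) q * Pr t l p q i) ^ 3)
        + algebraMap ℂ D (2 / 3) * (q ^ (n - 1) * (∑ i, (μ i : D) * (nx (t i) (l i) q * Pr t l p q i)))
        * ((q ^ (n - 1)) ^ 2 * (∑ i, (μ i : D) * (nx (t i) (l i) q * Pr t l p q i) ^ 2)) := by ring
    rw [this, e1, e2, e3]; ring
  rcases mul_eq_zero.mp key with h | h
  · exact absurd h (kk_ne _ hk)
  · have h1 : (-1 : D) ^ (n - 1) * Nn = 0 := by
      by_contra hne; exact hne (pow_eq_zero_iff (by norm_num) |>.mp h)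
    have h2 : Nn = 0 := by
      rcases mul_eq_zero.mp h1 with h | h
      · exact absurd h (pow_ne_zero _ (by norm_num))
      · exact h
    rw [hNn, Finset.prod_eq_zero_iff] at h2
    obtain ⟨w, _, hw⟩ := h2
    exact ⟨w, hw⟩

/-- case `B v = 0` -/
theorem dom_case2 (μ : ι → ℕ) (hμ : ∀ i, 0 < μ i) (t l : ι → ℝ) (p q : D) (v : ι)
    (hv : Bx (t v) (l v) p q = 0) (hG : Gx μ t l p q = 0) :
    nx (t v) (l v) q = 0 ∨ ∃ w, w ≠ v ∧ Bx (t w) (l w) p q = 0 := by
  have hP : ∀ w, w ≠ v → Pr t l p q w = 0 := by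
    intro w hw
    exact Finset.prod_eq_zero (Finset.mem_erase.mpr ⟨hw.symm, Finset.mem_univ v⟩) hv
  have s : ∀ r : ℕ, r ≠ 0 → (∑ i, (μ i : D) * (nx (t i) (l i) q * Pr t l p q i) ^ r)
      = (μ v : D) * (nx (t v) (l v) q * Pr t l p q v) ^ r := by
    intro r hr
    rw [Finset.sum_eq_single v]
    · intro w _ hw
      rw [hP w hw, mul_zero, zero_pow hr, mul_zero]
    · intro h; exact absurd (Finset.mem_univ v) h
  have s1 : (∑ i, (μ i : D) * (nx (t i) (l i) q * Pr t l p q i))
      = (μ v : D) * (nx (t v) (l v) q * Pr t l p q v) := by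
    have := s 1 one_ne_zero
    simpa only [pow_one] using this
  rw [Gx, s 3 (by norm_num), s 2 (by norm_num), s1] at hG
  have key : ((μ v : D) + algebraMap ℂ D (2 / 3) * (μ v : D) ^ 2)
      * (nx (t v) (l v) q * Pr t l p q v) ^ 3 = 0 := by
    rw [← hG]; ring
  rcases mul_eq_zero.mp key with h | h
  · exact absurd h (kk_ne _ (hμ v))
  · have h1 := (pow_eq_zero_iff (by norm_num : (3 : ℕ) ≠ 0)).mp h
    rcases mul_eq_zero.mp h1 with h | h
    · left; exact h
    · right
      rw [Pr, Finset.prod_eq_zero_iff] at h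
      obtain ⟨w, hw, hw'⟩ := h
      exact ⟨w, (Finset.mem_erase.mp hw).1, hw'⟩

end dom

section poly

/-- divisor of a nonzero element of the inner ring -/
theorem eq_C_of_dvd (h : Polynomial (Polynomial ℂ)) (c : Polynomial ℂ) (hc : c ≠ 0)
    (hd : h ∣ C c) : ∃ h0 : Polynomial ℂ, h = C h0 := by
  have h1 : h.natDegree ≤ (C c : Polynomial (Polynomial ℂ)).natDegree :=
    natDegree_le_of_dvd hd (by rwa [Ne, C_eq_zero])
  rw [natDegree_C] at h1
  exact ⟨_, eq_C_of_natDegree_eq_zero (Nat.le_zero.mp h1)⟩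

theorem b_ne (t : ℝ) : (1 - I * t : ℂ) ≠ 0 := by
  intro h
  have := congrArg Complex.re h
  simp at this

theorem nx_ne (t l : ℝ) : nx t l (X : Polynomial ℂ) ≠ 0 := by
  intro h
  have h1 := congrArg (Polynomial.eval 0) h
  simp only [nx, Polynomial.algebraMap_eq, eval_add, eval_sub, eval_mul, eval_C, eval_X, eval_pow,
    eval_ofNat, eval_zero, mul_zero, add_zero, ne_eq, OfNat.ofNat_ne_zero, not_false_eq_true,
    zero_pow, sub_zero] at h1
  exact b_ne t h1

theorem nx_C (t l : ℝ) : nx t l (C X : Polynomial (Polynomial ℂ)) = C (nx t l X) := by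
  simp only [nx, map_add, map_sub, map_mul, map_pow, map_ofNat]
  rfl

/-- coefficients of `B` -/
noncomputable def al (t l : ℝ) : Polynomial ℂ := C (l : ℂ) * X + C (1 - I * t)
noncomputable def be (t l : ℝ) : Polynomial ℂ := C (1 + I * t) * X - C (l : ℂ)

theorem Bx_eq (t l : ℝ) : Bx t l (X : Polynomial (Polynomial ℂ)) (C X)
    = C (al t l) * X + C (be t l) := by
  have h : ∀ c : ℂ, algebraMap ℂ (Polynomial (Polynomial ℂ)) c = C (C c) := fun c => rfl
  simp only [Bx, al, be, h, map_add, map_sub, map_mul]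
  ring

theorem al_be (t l : ℝ) : C (1 + I * t) * al t l - C (l : ℂ) * be t l
    = C ((1 + t ^ 2 + l ^ 2 : ℝ) : ℂ) := by
  simp only [al, be]
  have : ((1 + t ^ 2 + l ^ 2 : ℝ) : ℂ) = (1 + I * t) * (1 - I * t) + l * l := by
    push_cast
    linear_combination ((t : ℂ) ^ 2) * I_sq
  rw [this]
  simp only [map_add, map_mul]
  ring

theorem al_be_ne (t l t' l' : ℝ) (h : ¬ (t = t' ∧ l = l')) :
    al t l * be t' l' - al t' l' * be t l ≠ 0 := by
  intro h0
  apply h
  have c1 := congrArg (fun z => coeff z 1) h0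
  have c2 := congrArg (fun z => coeff z 2) h0
  have e : al t l * be t' l' - al t' l' * be t l
      = C ((l : ℂ) * (1 + I * t') - l' * (1 + I * t)) * X ^ 2
        + C (2 * I * (t' - t)) * X + C ((1 - I * t') * l - (1 - I * t) * l') := by
    simp only [al, be, map_add, map_sub, map_mul, map_one, map_ofNat]
    ring
  simp only [e, coeff_add, coeff_C_mul, coeff_X_pow, coeff_C, coeff_X, coeff_zero] at c1 c2
  norm_num at c1 c2
  have ht : t = t' := by
    have : (t' : ℂ) - t = 0 := c1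
    have h' : (t' : ℂ) = t := by linear_combination this
    exact_mod_cast h'.symm
  refine ⟨ht, ?_⟩
  subst ht
  have h1 : ((l : ℂ) - l') * (1 + I * t) = 0 := by linear_combination c2
  rcases mul_eq_zero.mp h1 with h | h
  · have : (l : ℂ) = l' := by linear_combination h
    exact_mod_cast this
  · exfalso
    have := congrArg Complex.re h
    simp at this

/-- (S1) outer variable `X = p`, inner variable `C X = q`, given (S1a). -/
theorem isUnit_of_dvd' (μ : ι → ℕ) (hμ : ∀ i, 0 < μ i) (t l : ι → ℝ)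
    (hinj : ∀ i j, t i = t j → l i = l j → i = j) (hcard : 2 ≤ Fintype.card ι)
    (hS1a : ∀ q0 : ℂ, ∃ p0 : ℂ, Gx μ t l p0 q0 ≠ 0)
    (f : Polynomial (Polynomial ℂ)) (hf0 : f ≠ 0)
    (h1 : f ∣ (1 + X * C X) * (∏ i, Bx (t i) (l i) (X : Polynomial (Polynomial ℂ)) (C X))
      * derivative f)
    (h2 : f ∣ Gx μ t l (X : Polynomial (Polynomial ℂ)) (C X)) : IsUnit f := by
  classical
  have hne : Nonempty ι := by
    rw [← Fintype.card_pos_iff]; omega
  by_contra hfu
  obtain ⟨h, hirr, hhf⟩ := WfDvdMonoid.exists_irreducible_factor hfu hf0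
  have hprime : Prime h := hirr.prime
  have hh0 : h ≠ 0 := hprime.ne_zero
  set W := (1 + X * C X) * (∏ i, Bx (t i) (l i) (X : Polynomial (Polynomial ℂ)) (C X)) with hW
  -- h | G
  have hG : h ∣ Gx μ t l (X : Polynomial (Polynomial ℂ)) (C X) := hhf.trans h2
  -- factor f = h^e u
  have hfin : FiniteMultiplicity h f := FiniteMultiplicity.of_not_isUnit hprime.not_isUnit hf0
  obtain ⟨u, hu, hhu⟩ := hfin.exists_eq_pow_mul_and_not_dvd
  have he1 : multiplicity h f ≠ 0 := by
    intro h0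
    rw [h0, pow_zero, one_mul] at hu
    exact hhu (hu ▸ hhf)
  obtain ⟨e, he⟩ : ∃ e, multiplicity h f = e + 1 := ⟨multiplicity h f - 1, by omega⟩
  rw [he] at hu
  -- `h ∣ W` or `h ∣ h'`
  have hder : derivative f = h ^ e * (((e : Polynomial (Polynomial ℂ)) + 1) * derivative h * u
      + h * derivative u) := by
    rw [hu, derivative_mul, derivative_pow_succ]
    simp only [map_add, map_natCast, map_one]
    ring
  have hstep : h ∣ W * (((e : Polynomial (Polynomial ℂ)) + 1) * derivative h * u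
      + h * derivative u) := by
    have h3 : h ^ e * h ∣ h ^ e * (W * (((e : Polynomial (Polynomial ℂ)) + 1) * derivative h * u
      + h * derivative u)) := by
      have h4 : h ^ (e + 1) ∣ W * derivative f := (Dvd.intro u hu.symm).trans h1
      rw [hder] at h4
      rw [← pow_succ]
      convert h4 using 1
      ring
    exact (mul_dvd_mul_iff_left (pow_ne_zero e hh0)).mp h3
  have hcases : h ∣ W ∨ h ∣ derivative h := by
    rcases hprime.dvd_or_dvd hstep with h3 | h3
    · left; exact h3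
    · have h4 : h ∣ ((e : Polynomial (Polynomial ℂ)) + 1) * derivative h * u :=
        (dvd_add_left (Dvd.intro _ rfl)).mp h3
      rcases hprime.dvd_or_dvd h4 with h5 | h5
      · rcases hprime.dvd_or_dvd h5 with h6 | h6
        · exfalso
          have h7 : IsUnit ((e : Polynomial (Polynomial ℂ)) + 1) := by
            have : ((e : Polynomial (Polynomial ℂ)) + 1)
                = algebraMap ℂ (Polynomial (Polynomial ℂ)) ((e : ℂ) + 1) := by
              simp only [map_add, map_natCast, map_one]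
            rw [this]
            exact (isUnit_iff_ne_zero.mpr (by exact_mod_cast Nat.succ_ne_zero e)).map _
          exact hprime.not_isUnit (isUnit_of_dvd_unit h6 h7)
        · right; exact h6
      · exact absurd h5 hhu
  -- ring homs
  let D := Polynomial (Polynomial ℂ) ⧸ Ideal.span {h}
  have : (Ideal.span {h}).IsPrime := (Ideal.span_singleton_prime hh0).mpr hprime
  let π : Polynomial (Polynomial ℂ) →ₐ[ℂ] D := Ideal.Quotient.mkₐ ℂ (Ideal.span {h})
  have hπ : ∀ x, π x = 0 ↔ h ∣ x := by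
    intro x
    rw [← Ideal.mem_span_singleton]
    exact Ideal.Quotient.eq_zero_iff_mem
  have hGπ : Gx μ t l (π X) (π (C X)) = 0 := by
    rw [← map_Gx, hπ]; exact hG
  have hν : ∀ w, nx (t w) (l w) (π (C X)) = 0 → ∃ h0 : Polynomial ℂ, h = C h0 := by
    intro w hw
    rw [← map_nx, hπ, nx_C] at hw
    exact eq_C_of_dvd h _ (nx_ne _ _) hw
  rcases hcases with hW' | hd
  · rw [hW] at hW'
    rcases hprime.dvd_or_dvd hW' with h3 | h3
    · -- case 1
      have h4 : 1 + π X * π (C X) = 0 := by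
        rw [← map_one π, ← map_mul, ← map_add, hπ]; exact h3
      obtain ⟨w, hw⟩ := dom_case1 μ hμ t l hne _ _ h4 hGπ
      obtain ⟨h0, rfl⟩ := hν w hw
      rw [C_dvd_iff_dvd_coeff] at h3
      have h5 := h3 0
      rw [coeff_add, mul_comm, coeff_mul_X_zero, coeff_one_zero, add_zero] at h5
      exact hprime.not_isUnit (isUnit_C.mpr (isUnit_of_dvd_one h5))
    · -- case 2
      rw [hprime.dvd_finsetProd_iff] at h3
      obtain ⟨v, _, hv⟩ := h3
      have hv' : Bx (t v) (l v) (π X) (π (C X)) = 0 := by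
        rw [← map_Bx, hπ]; exact hv
      have hC : ∃ h0 : Polynomial ℂ, h = C h0 := by
        rcases dom_case2 μ hμ t l _ _ v hv' hGπ with h4 | ⟨w, hwv, h4⟩
        · exact hν v h4
        · rw [← map_Bx, hπ] at h4
          rw [Bx_eq] at hv h4
          have h5 : h ∣ C (al (t w) (l w) * be (t v) (l v) - al (t v) (l v) * be (t w) (l w)) := by
            have : C (al (t w) (l w) * be (t v) (l v) - al (t v) (l v) * be (t w) (l w))
                = C (al (t w) (l w)) * (C (al (t v) (l v)) * X + C (be (t v) (l v)))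
                  - C (al (t v) (l v)) * (C (al (t w) (l w)) * X + C (be (t w) (l w))) := by
              simp only [map_sub, map_mul]; ring
            rw [this]
            exact dvd_sub (Dvd.dvd.mul_left hv _) (Dvd.dvd.mul_left h4 _)
          refine eq_C_of_dvd h _ (al_be_ne _ _ _ _ ?_) h5
          rintro ⟨ht, hl⟩
          exact hwv (hinj w v ht hl)
      obtain ⟨h0, rfl⟩ := hC
      rw [Bx_eq, C_dvd_iff_dvd_coeff] at hv
      have h5 : h0 ∣ al (t v) (l v) := by simpa using hv 1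
      have h6 : h0 ∣ be (t v) (l v) := by simpa using hv 0
      have h7 : h0 ∣ C ((1 + t v ^ 2 + l v ^ 2 : ℝ) : ℂ) := by
        rw [← al_be]
        exact dvd_sub (Dvd.dvd.mul_left h5 _) (Dvd.dvd.mul_left h6 _)
      have h8 : IsUnit (C ((1 + t v ^ 2 + l v ^ 2 : ℝ) : ℂ)) := by
        rw [isUnit_C, isUnit_iff_ne_zero]
        have : (0 : ℝ) < 1 + t v ^ 2 + l v ^ 2 := by positivity
        exact_mod_cast this.ne'
      exact hprime.not_isUnit (isUnit_C.mpr (isUnit_of_dvd_unit h7 h8))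
  · -- case 3
    have h3 : derivative h = 0 := by
      by_contra hd0
      have h4 := natDegree_le_of_dvd hd hd0
      have h5 : h.natDegree ≠ 0 := by
        intro h6
        apply hd0
        rw [eq_C_of_natDegree_eq_zero h6, derivative_C]
      exact absurd h4 (not_le.mpr (natDegree_derivative_lt h5))
    have h4 : h.natDegree = 0 := derivative_eq_zero.mp h3
    obtain ⟨h0, rfl⟩ : ∃ h0 : Polynomial ℂ, h = C h0 := ⟨_, eq_C_of_natDegree_eq_zero h4⟩
    have h5 : h0.degree ≠ 0 := by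
      intro h6
      apply hprime.not_isUnit
      rw [isUnit_C]
      exact isUnit_iff_degree_eq_zero.mpr h6
    obtain ⟨q0, hq0⟩ := IsAlgClosed.exists_root h0 h5
    obtain ⟨p0, hp0⟩ := hS1a q0
    apply hp0
    let φ : Polynomial (Polynomial ℂ) →ₐ[ℂ] ℂ :=
      { evalEvalRingHom q0 p0 with
        commutes' := fun c => by
          show evalEvalRingHom q0 p0 (C (C c)) = c
          simp }
    have e1 : φ X = p0 := by
      show evalEvalRingHom q0 p0 X = p0
      simp
    have e2 : φ (C X) = q0 := by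
      show evalEvalRingHom q0 p0 (C X) = q0
      simp
    have h6 : φ (Gx μ t l (X : Polynomial (Polynomial ℂ)) (C X)) = 0 := by
      obtain ⟨c, hc⟩ := hG
      rw [hc, map_mul]
      have : φ (C h0) = 0 := by
        show evalEvalRingHom q0 p0 (C h0) = 0
        simpa using hq0
      rw [this, zero_mul]
    rw [map_Gx, e1, e2] at h6
    exact h6

end poly

end AD

end BH
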