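import Mathlib
import Pool.Agent.Lib_helper71.BH.ADUnitB

set_option autoImplicit false

namespace BH

namespace AD

open Complex Polynomial

variable {ι : Type*} [Fintype ι] [DecidableEq ι]

/-- two different `ν` have no common root -/
theorem nx_common (t l t' l' : ℝ) (q : ℂ) (h : nx t l q = 0) (h' : nx t' l' q = 0) :
    t = t' ∧ l = l' := by
  have r := congrArg Complex.re h
  have i := congrArg Complex.im h
  have r' := congrArg Complex.re h'
  have i' := congrArg Complex.im h'
  simp [nx, pow_two] at r i r' i'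
  set x := q.re
  set y := q.im
  have e1 : x * ((t - t') * y + (l - l')) = 0 := by linarith
  rcases mul_eq_zero.mp e1 with hx | hx
  · exfalso
    rw [hx] at r
    nlinarith [sq_nonneg y]
  · have hl : l - l' = -((t - t') * y) := by linarith
    have e2 : (t - t') * (1 + x ^ 2 + y ^ 2) = 0 := by
      have : -(t - t') * (1 + x ^ 2 - y ^ 2) + 2 * (l - l') * y = 0 := by linarith
      rw [hl] at this
      linarith
    have hp : (1 + x ^ 2 + y ^ 2) ≠ 0 := by positivity
    have ht : t - t' = 0 := (mul_eq_zero.mp e2).resolve_right hp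
    refine ⟨by linarith, ?_⟩
    rw [ht] at hl
    linarith

/-- (S1a) `G` does not vanish identically on any line `q = q0`. -/
theorem exists_Gx_ne_zero (μ : ι → ℕ) (hμ : ∀ i, 0 < μ i) (t l : ι → ℝ)
    (hinj : ∀ i j, t i = t j → l i = l j → i = j) (hcard : 2 ≤ Fintype.card ι) (q0 : ℂ) :
    ∃ p0 : ℂ, Gx μ t l p0 q0 ≠ 0 := by
  classical
  by_contra hall
  push Not at hall
  set α : ι → ℂ := fun w => l w * q0 + (1 - I * t w) with hα
  set β : ι → ℂ := fun w => (1 + I * t w) * q0 - l w with hβ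
  set ν : ι → ℂ := fun w => nx (t w) (l w) q0 with hν
  have hνe : ∀ w, ν w = α w - q0 * β w := by
    intro w
    simp only [hν, hα, hβ, nx, Algebra.algebraMap_self, RingHom.id_apply]
    ring
  set Bz : ι → Polynomial ℂ := fun w => C (α w) + C (β w) * X with hBz
  have hBzne : ∀ w, Bz w ≠ 0 := by
    intro w h
    have h0 : α w = 0 := by
      have := congrArg (fun z => coeff z 0) h
      simpa [hBz] using this
    have h1 : β w = 0 := by
      have := congrArg (fun z => coeff z 1) h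
      simpa [hBz, coeff_C] using this
    have h2 : (1 + I * t w) * α w - l w * β w = ((1 + t w ^ 2 + l w ^ 2 : ℝ) : ℂ) := by
      simp only [hα, hβ]
      push_cast
      linear_combination (-(t w : ℂ) ^ 2) * I_sq
    rw [h0, h1, mul_zero, mul_zero, sub_zero] at h2
    have : (0 : ℝ) < 1 + t w ^ 2 + l w ^ 2 := by positivity
    exact absurd h2.symm (by exact_mod_cast this.ne')
  have hBe : ∀ w z, z ≠ 0 → z * Bx (t w) (l w) z⁻¹ q0 = eval z (Bz w) := by
    intro w z hz
    simp only [Bx, hBz, hα, hβ, eval_add, eval_mul, eval_C, eval_X, Algebra.algebraMap_self,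
      RingHom.id_apply]
    field_simp
    ring
  set n := Fintype.card ι with hn
  -- the transformed terms
  set Y : ι → Polynomial ℂ := fun w => C (ν w) * ∏ j ∈ Finset.univ.erase w, Bz j with hY
  have hYe : ∀ w z, z ≠ 0 → z ^ (n - 1) * (nx (t w) (l w) q0 * Pr t l z⁻¹ q0 w) = eval z (Y w) := by
    intro w z hz
    have h1 : z ^ (n - 1) = ∏ _j ∈ Finset.univ.erase w, z := by
      rw [Finset.prod_const, Finset.card_erase_of_mem (Finset.mem_univ w), Finset.card_univ]
    have h4 : z ^ (n - 1) * Pr t l z⁻¹ q0 w = ∏ j ∈ Finset.univ.erase w, eval z (Bz j) := by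
      rw [h1, Pr, ← Finset.prod_mul_distrib]
      exact Finset.prod_congr rfl fun j _ => hBe j z hz
    simp only [hY, eval_mul, eval_C, eval_prod]
    rw [← h4]; simp only [hν]; ring
  set G' : Polynomial ℂ := (∑ i, (μ i : Polynomial ℂ) * (Y i) ^ 3)
    + C (2 / 3) * (∑ i, (μ i : Polynomial ℂ) * Y i) * (∑ i, (μ i : Polynomial ℂ) * (Y i) ^ 2)
    with hG'
  have hGe : ∀ z, z ≠ 0 → eval z G' = 0 := by
    intro z hz
    have h := hall z⁻¹
    have h1 : eval z G' = (z ^ (n - 1)) ^ 3 * Gx μ t l z⁻¹ q0 := by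
      simp only [hG', eval_add, eval_mul, eval_finsetSum, eval_pow, eval_natCast, eval_C,
        ← hYe _ z hz]
      simp only [Gx, Algebra.algebraMap_self, RingHom.id_apply]
      have e : ∀ r : ℕ, (∑ i, (μ i : ℂ) * (z ^ (n - 1) * (nx (t i) (l i) q0 * Pr t l z⁻¹ q0 i)) ^ r)
          = (z ^ (n - 1)) ^ r * ∑ i, (μ i : ℂ) * (nx (t i) (l i) q0 * Pr t l z⁻¹ q0 i) ^ r := by
        intro r
        rw [Finset.mul_sum]
        refine Finset.sum_congr rfl fun i _ => ?_
        rw [mul_pow]; ring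
      have e1 := e 1
      simp only [pow_one] at e1
      rw [e 3, e 2, e1]
      ring
    rw [h1, h, mul_zero]
  have hG'0 : G' = 0 := by
    have h1 : X * G' = 0 := by
      apply Polynomial.funext
      intro z
      by_cases hz : z = 0
      · subst hz; simp
      · rw [eval_mul, hGe z hz]; simp
    exact (mul_eq_zero.mp h1).resolve_left X_ne_zero
  -- split off the factors with `ν = 0`
  set S : Finset ι := Finset.univ.filter (fun w => ν w = 0) with hS
  set T : Finset ι := Finset.univ.filter (fun w => ¬ ν w = 0) with hT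
  have hTne : T.Nonempty := by
    by_contra hTe
    rw [Finset.not_nonempty_iff_eq_empty] at hTe
    have hall0 : ∀ w, ν w = 0 := by
      intro w
      by_contra hw
      have : w ∈ T := Finset.mem_filter.mpr ⟨Finset.mem_univ _, hw⟩
      rw [hTe] at this
      exact absurd this (Finset.notMem_empty _)
    obtain ⟨v, w, hvw⟩ := Fintype.one_lt_card_iff.mp (show 1 < Fintype.card ι by omega)
    obtain ⟨h1, h2⟩ := nx_common _ _ _ _ q0 (hall0 v) (hall0 w)
    exact hvw (hinj v w h1 h2)
  set Cc : Polynomial ℂ := ∏ j ∈ S, Bz j with hCc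
  have hCc0 : Cc ≠ 0 := Finset.prod_ne_zero_iff.mpr fun j _ => hBzne j
  set Z : ι → Polynomial ℂ := fun w => C (ν w) * ∏ j ∈ T.erase w, Bz j with hZ
  have hYT : ∀ w ∈ T, Y w = Cc * Z w := by
    intro w hw
    have hwS : w ∉ S := fun h => (Finset.mem_filter.mp hw).2 (Finset.mem_filter.mp h).2
    have h1 : Finset.univ.erase w = S ∪ T.erase w := by
      ext j
      simp only [Finset.mem_erase, Finset.mem_univ, and_true, Finset.mem_union, hS, hT,
        Finset.mem_filter, true_and]
      constructor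
      · intro hj
        by_cases h : ν j = 0
        · left; exact h
        · right; exact ⟨hj, h⟩
      · rintro (h | ⟨h, _⟩)
        · intro hj; subst hj; exact hwS (Finset.mem_filter.mpr ⟨Finset.mem_univ _, h⟩)
        · exact h
    have h2 : Disjoint S (T.erase w) := by
      rw [Finset.disjoint_left]
      intro j hj hj'
      exact (Finset.mem_filter.mp (Finset.mem_erase.mp hj').2).2 (Finset.mem_filter.mp hj).2
    simp only [hY, hZ, hCc]
    rw [h1, Finset.prod_union h2]
    ring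
  have hYS : ∀ w, w ∉ T → Y w = 0 := by
    intro w hw
    have : ν w = 0 := by
      by_contra h; exact hw (Finset.mem_filter.mpr ⟨Finset.mem_univ _, h⟩)
    simp only [hY, this, map_zero, zero_mul]
  have hsum : ∀ r : ℕ, r ≠ 0 → (∑ i, (μ i : Polynomial ℂ) * (Y i) ^ r)
      = Cc ^ r * ∑ i ∈ T, (μ i : Polynomial ℂ) * (Z i) ^ r := by
    intro r hr
    rw [Finset.mul_sum, ← Finset.sum_subset (Finset.subset_univ T)]
    · refine Finset.sum_congr rfl fun i hi => ?_
      rw [hYT i hi, mul_pow]; ring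
    · intro i _ hi
      rw [hYS i hi, zero_pow hr, mul_zero]
  have hs1 := hsum 1 one_ne_zero
  simp only [pow_one] at hs1
  have hZ0 : (∑ i ∈ T, (μ i : Polynomial ℂ) * (Z i) ^ 3)
      + C (2 / 3) * (∑ i ∈ T, (μ i : Polynomial ℂ) * Z i)
        * (∑ i ∈ T, (μ i : Polynomial ℂ) * (Z i) ^ 2) = 0 := by
    have h1 : Cc ^ 3 * ((∑ i ∈ T, (μ i : Polynomial ℂ) * (Z i) ^ 3)
      + C (2 / 3) * (∑ i ∈ T, (μ i : Polynomial ℂ) * Z i)
        * (∑ i ∈ T, (μ i : Polynomial ℂ) * (Z i) ^ 2)) = 0 := by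
      rw [← hG'0, hG', hsum 3 (by norm_num), hsum 2 (by norm_num), hs1]
      ring
    exact (mul_eq_zero.mp h1).resolve_left (pow_ne_zero 3 hCc0)
  -- evaluate at `- q0`
  have hBq : ∀ j, eval (-q0) (Bz j) = ν j := by
    intro j
    rw [hνe]
    simp only [hBz, eval_add, eval_mul, eval_C, eval_X]
    ring
  have hZq : ∀ w ∈ T, eval (-q0) (Z w) = ∏ j ∈ T, ν j := by
    intro w hw
    simp only [hZ, eval_mul, eval_C, eval_prod, hBq]
    exact Finset.mul_prod_erase _ _ hw
  have hN0 : (∏ j ∈ T, ν j) ≠ 0 :=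
    Finset.prod_ne_zero_iff.mpr fun j hj => (Finset.mem_filter.mp hj).2
  have hk : 0 < ∑ i ∈ T, μ i := Finset.sum_pos (fun i _ => hμ i) hTne
  have hfin := congrArg (eval (-q0)) hZ0
  simp only [eval_add, eval_mul, eval_finsetSum, eval_pow, eval_natCast, eval_C, eval_zero] at hfin
  have e : ∀ r : ℕ, (∑ i ∈ T, (μ i : ℂ) * (eval (-q0) (Z i)) ^ r)
      = ((∑ i ∈ T, μ i : ℕ) : ℂ) * (∏ j ∈ T, ν j) ^ r := by
    intro r
    rw [Nat.cast_sum, Finset.sum_mul]
    exact Finset.sum_congr rfl fun i hi => by rw [hZq i hi]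
  have e1 := e 1
  simp only [pow_one] at e1
  rw [e 3, e 2, e1] at hfin
  have hkk := kk_ne (D := ℂ) (∑ i ∈ T, μ i) hk
  apply hkk
  have h5 : (((∑ i ∈ T, μ i : ℕ) : ℂ) + algebraMap ℂ ℂ (2 / 3) * ((∑ i ∈ T, μ i : ℕ) : ℂ) ^ 2)
      * (∏ j ∈ T, ν j) ^ 3 = 0 := by
    rw [← hfin]
    simp only [Algebra.algebraMap_self, RingHom.id_apply]
    ring
  exact (mul_eq_zero.mp h5).resolve_right (pow_ne_zero 3 hN0)

/-- (S1) outer variable `X = p`, inner variable `C X = q`. -/
theorem isUnit_of_dvd (μ : ι → ℕ) (hμ : ∀ i, 0 < μ i) (t l : ι → ℝ)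
    (hinj : ∀ i j, t i = t j → l i = l j → i = j) (hcard : 2 ≤ Fintype.card ι)
    (f : Polynomial (Polynomial ℂ)) (hf0 : f ≠ 0)
    (h1 : f ∣ (1 + X * C X) * (∏ i, Bx (t i) (l i) (X : Polynomial (Polynomial ℂ)) (C X))
      * derivative f)
    (h2 : f ∣ Gx μ t l (X : Polynomial (Polynomial ℂ)) (C X)) : IsUnit f :=
  isUnit_of_dvd' μ hμ t l hinj hcard (exists_Gx_ne_zero μ hμ t l hinj hcard) f hf0 h1 h2

end AD

end BH
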