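import Mathlib
import Pool.Agent.Lib_helper64.BH.ADMain

/-!
# Module A: `BH.alg_dep` is proved in `Pool.Agent.Lib_helper64.BH.ADMain`.
-/
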