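import Mathlib

set_option autoImplicit false

namespace BH

/-- An element with nonzero derivative is transcendental over `ℂ`. -/
theorem fe_transcendental {K : Type*} [Field K] [Algebra ℂ K] (δ : Derivation ℂ K K) {x : K}
    (hx : δ x ≠ 0) : Transcendental ℂ x := by
  intro halg
  have hbij : Function.Surjective (algebraMap ℂ (IntermediateField.adjoin ℂ {x})) := by
    have : Algebra.IsAlgebraic ℂ (IntermediateField.adjoin ℂ {x}) :=
      IntermediateField.isAlgebraic_adjoin_simple halg.isIntegral
    exact (IsAlgClosed.algebraMap_bijective_of_isIntegral).2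
  obtain ⟨c, hc⟩ := hbij ⟨x, IntermediateField.mem_adjoin_simple_self ℂ x⟩
  have hc' : algebraMap ℂ K c = x := congrArg Subtype.val hc
  exact hx (by rw [← hc', Derivation.map_algebraMap])

theorem fe_algInd_iff {K : Type*} [Field K] [Algebra ℂ K] {x y : K} (hx : Transcendental ℂ x) :
    IsAlgebraic (IntermediateField.adjoin ℂ ({x} : Set K)) y ↔
      ¬ AlgebraicIndependent ℂ ![x, y] := by
  have h1 : AlgebraicIndependent ℂ (fun o : Option (Fin 1) => o.elim y ![x]) ↔
      Transcendental (Algebra.adjoin ℂ (Set.range ![x])) y :=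
    AlgebraicIndependent.option_iff_transcendental
      (by rw [algebraicIndependent_unique_type_iff]; exact hx) y
  have h2 : AlgebraicIndependent ℂ ![x, y] ↔
      AlgebraicIndependent ℂ (fun o : Option (Fin 1) => o.elim y ![x]) := by
    apply algebraicIndependent_equiv' finSuccEquivLast
    funext i
    fin_cases i
    · rfl
    · rfl
  have h3 : Set.range ![x] = {x} := by
    simp
  rw [h2, h1, h3, ← IntermediateField.transcendental_adjoin_iff, Transcendental, not_not]

theorem fe_algInd_symm {K : Type*} [Field K] [Algebra ℂ K] {x y : K}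
    (h : AlgebraicIndependent ℂ ![x, y]) : AlgebraicIndependent ℂ ![y, x] := by
  refine (algebraicIndependent_equiv' (Equiv.swap (0 : Fin 2) 1) ?_).1 h
  funext i
  fin_cases i
  · simp
  · simp

theorem fe_trans {K : Type*} [Field K] [Algebra ℂ K] {M N : IntermediateField ℂ K} {x : K}
    (hx : IsAlgebraic M x) (hM : ∀ m ∈ M, IsAlgebraic N m) : IsAlgebraic N x := by
  let E := algebraicClosure N K
  have hME : ∀ m ∈ M, m ∈ E := fun m hm => mem_algebraicClosure_iff.2 (hM m hm)
  let φ : M →+* E :=
    { toFun := fun m => ⟨m, hME m m.2⟩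
      map_one' := rfl
      map_mul' := fun _ _ => rfl
      map_zero' := rfl
      map_add' := fun _ _ => rfl }
  have hE : IsAlgebraic E x := by
    obtain ⟨f, hf, hfx⟩ := hx
    refine ⟨f.map φ, ?_, ?_⟩
    · exact (Polynomial.map_ne_zero_iff φ.injective).2 hf
    · rw [Polynomial.aeval_def, Polynomial.eval₂_map]
      rw [Polynomial.aeval_def] at hfx
      exact hfx
  exact hE.restrictScalars N

theorem fe_adjoin_stable {K : Type*} [Field K] [Algebra ℂ K] (D : Derivation ℂ K K) {S : Set K}
    (hS : ∀ x ∈ S, D x ∈ IntermediateField.adjoin ℂ S) :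
    ∀ x ∈ IntermediateField.adjoin ℂ S, D x ∈ IntermediateField.adjoin ℂ S := by
  intro x hx
  induction hx using IntermediateField.adjoin_induction with
  | mem x hx => exact hS x hx
  | algebraMap c => rw [Derivation.map_algebraMap]; exact zero_mem _
  | add x y hx hy h1 h2 => rw [map_add]; exact add_mem h1 h2
  | inv x hx h1 =>
    rw [Derivation.leibniz_inv]
    exact mul_mem (neg_mem (pow_mem (inv_mem hx) 2)) h1
  | mul x y hx hy h1 h2 =>
    rw [Derivation.leibniz]
    exact add_mem (mul_mem hx h2) (mul_mem hy h1)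

theorem fe_deriv_algebraic {K : Type*} [Field K] [Algebra ℂ K] (D : Derivation ℂ K K)
    {M : IntermediateField ℂ K} (hM : ∀ x ∈ M, D x ∈ M) {z : K} (hz : IsAlgebraic M z) :
    IsAlgebraic M (D z) := by
  have hz' : z ∈ algebraicClosure M K := mem_algebraicClosure_iff.2 hz
  have key : ∀ f : Polynomial M, ∃ c ∈ algebraicClosure M K,
      D (Polynomial.aeval z f) = c + Polynomial.aeval z (Polynomial.derivative f) * D z := by
    intro f
    induction f using Polynomial.induction_on' with
    | add f g hf hg =>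
      obtain ⟨c, hc, h1⟩ := hf
      obtain ⟨d, hd, h2⟩ := hg
      refine ⟨c + d, add_mem hc hd, ?_⟩
      rw [map_add, map_add, h1, h2, Polynomial.derivative_add, map_add]
      ring
    | monomial n a =>
      refine ⟨z ^ n * D (a : K), ?_, ?_⟩
      · refine mul_mem (pow_mem hz' n) ?_
        rw [mem_algebraicClosure_iff]
        exact isAlgebraic_algebraMap (⟨D (a : K), hM _ a.2⟩ : M)
      · rw [Polynomial.aeval_monomial, Polynomial.derivative_monomial, Polynomial.aeval_monomial]
        have e1 : (algebraMap M K) a = (a : K) := rfl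
        have e2 : (algebraMap M K) (a * (n : M)) = (a : K) * (n : K) := by
          rw [map_mul, map_natCast]; rfl
        rw [e1, e2, Derivation.leibniz, Derivation.leibniz_pow]
        simp only [smul_eq_mul, nsmul_eq_mul]
        ring
  obtain ⟨c, hc, h1⟩ := key (minpoly M z)
  rw [minpoly.aeval, map_zero] at h1
  have hne : Polynomial.aeval z (Polynomial.derivative (minpoly M z)) ≠ 0 := by
    have : CharZero M := charZero_of_injective_algebraMap (algebraMap ℂ M).injective
    exact ((minpoly.irreducible hz.isIntegral).separable).aeval_derivative_ne_zero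
      (minpoly.aeval M z)
  have h2 : D z = -c / Polynomial.aeval z (Polynomial.derivative (minpoly M z)) := by
    rw [eq_div_iff hne]
    linear_combination -h1
  have h3 : Polynomial.aeval z (Polynomial.derivative (minpoly M z)) ∈ algebraicClosure M K := by
    rw [Polynomial.aeval_eq_sum_range]
    refine sum_mem fun i _ => ?_
    rw [Algebra.smul_def]
    refine mul_mem ?_ (pow_mem hz' i)
    exact mem_algebraicClosure_iff.2 (isAlgebraic_algebraMap _)
  rw [← mem_algebraicClosure_iff, h2]
  exact div_mem (neg_mem hc) h3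

/-- Module D: if `p, q` are algebraically dependent then `θ, lam, κ` lie in a `δ`-stable field
which is finite over `ℂ(κ)`. -/
theorem exists_finite_subfield {K : Type*} [Field K] [Algebra ℂ K] (δ : Derivation ℂ K K)
    {ι : Type*} [Finite ι] (p q Ψ Ψi κ : K) (θ lam : ι → K)
    (hΨ : Ψ * Ψi = 1) (hp : δ p = (1 + p * q) * Ψ / 2) (hq : δ q = (1 + p * q) * Ψi / 2)
    (hpq : 1 + p * q ≠ 0)
    (hdep : ¬ AlgebraicIndependent ℂ ![p, q])
    (hθ : ∀ i, θ i ∈ IntermediateField.adjoin ℂ ({p, q, Ψ, Ψi} : Set K))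
    (hlam : ∀ i, lam i ∈ IntermediateField.adjoin ℂ ({p, q, Ψ, Ψi} : Set K))
    (hκ : κ ∈ IntermediateField.adjoin ℂ (Set.range lam))
    (hδκ : δ κ ≠ 0)
    (hδθ : ∀ i, δ (θ i) ∈ IntermediateField.adjoin ℂ (Set.range θ ∪ Set.range lam))
    (hδlam : ∀ i, δ (lam i) ∈ IntermediateField.adjoin ℂ (Set.range θ ∪ Set.range lam)) :
    ∃ (L : IntermediateField ℂ K) (hκL : κ ∈ L), (∀ i, θ i ∈ L) ∧ (∀ i, lam i ∈ L) ∧
      (∀ x ∈ L, δ x ∈ L) ∧
      FiniteDimensional (IntermediateField.adjoin ℂ {(⟨κ, hκL⟩ : L)⁻¹}) L := by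
  have hchar : CharZero K := charZero_of_injective_algebraMap (algebraMap ℂ K).injective
  have hΨ0 : Ψ ≠ 0 := left_ne_zero_of_mul_eq_one hΨ
  have hΨi0 : Ψi ≠ 0 := right_ne_zero_of_mul_eq_one hΨ
  have hδp : δ p ≠ 0 := by
    rw [hp]
    exact div_ne_zero (mul_ne_zero hpq hΨ0) two_ne_zero
  have htp : Transcendental ℂ p := fe_transcendental δ hδp
  have htκ : Transcendental ℂ κ := fe_transcendental δ hδκ
  have hqalg : IsAlgebraic (IntermediateField.adjoin ℂ ({p} : Set K)) q :=
    (fe_algInd_iff htp).2 hdep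
  -- the normalised derivation
  let D : Derivation ℂ K K := (δ p)⁻¹ • δ
  have hDp : D p = 1 := by
    change (δ p)⁻¹ • δ p = 1
    rw [smul_eq_mul, inv_mul_cancel₀ hδp]
  have hDst : ∀ x ∈ IntermediateField.adjoin ℂ ({p} : Set K),
      D x ∈ IntermediateField.adjoin ℂ ({p} : Set K) := by
    apply fe_adjoin_stable
    intro x hx
    rw [Set.mem_singleton_iff.1 hx, hDp]
    exact one_mem _
  have hDq : D q = Ψi ^ 2 := by
    change (δ p)⁻¹ • δ q = Ψi ^ 2
    rw [smul_eq_mul, hq, hp]
    have : Ψi = Ψ⁻¹ := eq_inv_of_mul_eq_one_right hΨ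
    rw [this]
    field_simp
  have hE : ∀ x : K, x ∈ algebraicClosure (IntermediateField.adjoin ℂ ({p} : Set K)) K ↔
      IsAlgebraic (IntermediateField.adjoin ℂ ({p} : Set K)) x := fun x =>
    mem_algebraicClosure_iff
  have hΨialg : IsAlgebraic (IntermediateField.adjoin ℂ ({p} : Set K)) Ψi := by
    have h1 := fe_deriv_algebraic D hDst hqalg
    rw [hDq] at h1
    exact h1.of_pow two_pos
  have hΨalg : IsAlgebraic (IntermediateField.adjoin ℂ ({p} : Set K)) Ψ := by
    rw [← hE] at hΨialg ⊢
    have : Ψ = Ψi⁻¹ := eq_inv_of_mul_eq_one_left hΨ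
    rw [this]
    exact inv_mem hΨialg
  have hpalg : IsAlgebraic (IntermediateField.adjoin ℂ ({p} : Set K)) p :=
    isAlgebraic_algebraMap
      (⟨p, IntermediateField.mem_adjoin_simple_self ℂ p⟩ : IntermediateField.adjoin ℂ ({p} : Set K))
  have hall : ∀ x ∈ IntermediateField.adjoin ℂ ({p, q, Ψ, Ψi} : Set K),
      IsAlgebraic (IntermediateField.adjoin ℂ ({p} : Set K)) x := by
    have hle : IntermediateField.adjoin ℂ ({p, q, Ψ, Ψi} : Set K) ≤
        (algebraicClosure (IntermediateField.adjoin ℂ ({p} : Set K)) K).restrictScalars ℂ := by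
      rw [IntermediateField.adjoin_le_iff]
      intro x hx
      have hx' : x = p ∨ x = q ∨ x = Ψ ∨ x = Ψi := by simpa using hx
      change x ∈ algebraicClosure (IntermediateField.adjoin ℂ ({p} : Set K)) K
      rw [hE]
      rcases hx' with rfl | rfl | rfl | rfl
      · exact hpalg
      · exact hqalg
      · exact hΨalg
      · exact hΨialg
    intro x hx
    rw [← hE]
    exact hle hx
  have hκF : κ ∈ IntermediateField.adjoin ℂ ({p, q, Ψ, Ψi} : Set K) := by
    have hle : IntermediateField.adjoin ℂ (Set.range lam) ≤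
        IntermediateField.adjoin ℂ ({p, q, Ψ, Ψi} : Set K) := by
      rw [IntermediateField.adjoin_le_iff]
      rintro x ⟨i, rfl⟩
      exact hlam i
    exact hle hκ
  have hpκ : IsAlgebraic (IntermediateField.adjoin ℂ ({κ} : Set K)) p := by
    rw [fe_algInd_iff htκ]
    intro hind
    exact (fe_algInd_iff htp).1 (hall κ hκF) (fe_algInd_symm hind)
  have hpκ' : ∀ m ∈ IntermediateField.adjoin ℂ ({p} : Set K),
      IsAlgebraic (IntermediateField.adjoin ℂ ({κ} : Set K)) m := by
    have hle : IntermediateField.adjoin ℂ ({p} : Set K) ≤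
        (algebraicClosure (IntermediateField.adjoin ℂ ({κ} : Set K)) K).restrictScalars ℂ := by
      rw [IntermediateField.adjoin_le_iff]
      intro x hx
      rw [Set.mem_singleton_iff.1 hx]
      exact mem_algebraicClosure_iff.2 hpκ
    intro m hm
    exact mem_algebraicClosure_iff.1 (hle hm)
  have hallκ : ∀ x ∈ IntermediateField.adjoin ℂ ({p, q, Ψ, Ψi} : Set K),
      IsAlgebraic (IntermediateField.adjoin ℂ ({κ} : Set K)) x := fun x hx =>
    fe_trans (hall x hx) hpκ'
  -- the field `L`
  let L : IntermediateField ℂ K := IntermediateField.adjoin ℂ (Set.range θ ∪ Set.range lam)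
  have hκL : κ ∈ L := IntermediateField.adjoin.mono ℂ _ _ Set.subset_union_right hκ
  have hθL : ∀ i, θ i ∈ L := fun i =>
    IntermediateField.subset_adjoin ℂ _ (Or.inl ⟨i, rfl⟩)
  have hlL : ∀ i, lam i ∈ L := fun i =>
    IntermediateField.subset_adjoin ℂ _ (Or.inr ⟨i, rfl⟩)
  have hLF : L ≤ IntermediateField.adjoin ℂ ({p, q, Ψ, Ψi} : Set K) := by
    rw [IntermediateField.adjoin_le_iff]
    rintro x (⟨i, rfl⟩ | ⟨i, rfl⟩)
    · exact hθ i
    · exact hlam i
  refine ⟨L, hκL, hθL, hlL, ?_, ?_⟩
  · apply fe_adjoin_stable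
    rintro x (⟨i, rfl⟩ | ⟨i, rfl⟩)
    · exact hδθ i
    · exact hδlam i
  · have hfg : Algebra.EssFiniteType ℂ L := by
      have hfin : (Set.range θ ∪ Set.range lam).Finite :=
        (Set.finite_range θ).union (Set.finite_range lam)
      rw [IntermediateField.essFiniteType_iff]
      exact IntermediateField.fg_adjoin_of_finite hfin
    have hadj : (IntermediateField.adjoin ℂ ({(⟨κ, hκL⟩ : L)⁻¹} : Set L)) =
        IntermediateField.adjoin ℂ ({(⟨κ, hκL⟩ : L)} : Set L) := by
      apply le_antisymm
      · rw [IntermediateField.adjoin_le_iff]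
        intro x hx
        rw [Set.mem_singleton_iff.1 hx]
        exact inv_mem (IntermediateField.mem_adjoin_simple_self ℂ _)
      · rw [IntermediateField.adjoin_le_iff]
        intro x hx
        rw [Set.mem_singleton_iff.1 hx]
        have h1 := inv_mem (IntermediateField.mem_adjoin_simple_self ℂ (⟨κ, hκL⟩ : L)⁻¹)
        rw [inv_inv] at h1
        exact h1
    rw [hadj]
    have htκL : Transcendental ℂ (⟨κ, hκL⟩ : L) := by
      intro h
      exact htκ (h.algebraMap (A := K))
    have halg : Algebra.IsAlgebraic (IntermediateField.adjoin ℂ ({(⟨κ, hκL⟩ : L)} : Set L)) L := by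
      constructor
      intro x
      rw [fe_algInd_iff htκL]
      intro hind
      have h1 : AlgebraicIndependent ℂ ![κ, (x : K)] := by
        have h2 := hind.map' (f := L.val) L.val.injective
        convert h2 using 1
        funext i
        fin_cases i
        · rfl
        · rfl
      exact (fe_algInd_iff htκ).1 (hallκ x (hLF x.2)) h1
    have hess : Algebra.EssFiniteType
        (IntermediateField.adjoin ℂ ({(⟨κ, hκL⟩ : L)} : Set L)) L :=
      Algebra.EssFiniteType.of_comp ℂ _ L
    exact Algebra.finite_of_essFiniteType_of_isAlgebraic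

end BH
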