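import Mathlib

set_option autoImplicit false

namespace BH

abbrev Xm (m : ℕ) := Fin m → ℝ
abbrev Em (m : ℕ) := EuclideanSpace ℝ (Fin (m + 2))

/-- `C^∞` exponent as in the frozen statement -/
abbrev smth : WithTop ℕ∞ := ((⊤ : ℕ∞) : WithTop ℕ∞)

/-- derivative of `φ` along the vector field `e` -/
noncomputable def LD {X F : Type*} [NormedAddCommGroup X] [NormedSpace ℝ X]
    [NormedAddCommGroup F] [NormedSpace ℝ F] (e : X → X) (φ : X → F) : X → F :=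
  fun x => fderiv ℝ φ x (e x)

/-- the geometric situation near a point where `grad H ≠ 0`:
`f` the hypersurface of the unit sphere, `N` its normal, `e = grad H / |grad H|` in coordinates,
`κ = - m H / 2`, `dκ = r ⟨df ·, df e⟩`. -/
structure Setup (m : ℕ) where
  U : Set (Xm m)
  f : Xm m → Em m
  N : Xm m → Em m
  e : Xm m → Xm m
  κ : Xm m → ℝ
  r : Xm m → ℝ
  hU : IsOpen U
  hf : ContDiffOn ℝ smth f U
  hN : ContDiffOn ℝ smth N U
  he : ContDiffOn ℝ smth e U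
  hκ : ContDiffOn ℝ smth κ U
  hr : ContDiffOn ℝ smth r U
  ff : ∀ x ∈ U, inner ℝ (f x) (f x) = 1
  NN : ∀ x ∈ U, inner ℝ (N x) (N x) = 1
  Nf : ∀ x ∈ U, inner ℝ (N x) (f x) = 0
  NDf : ∀ x ∈ U, ∀ v, inner ℝ (N x) (fderiv ℝ f x v) = 0
  inj : ∀ x ∈ U, ∀ v, fderiv ℝ f x v = 0 → v = 0
  span : ∀ x ∈ U, ∀ w, inner ℝ (f x) w = 0 → inner ℝ (N x) w = 0 → ∃ v, fderiv ℝ f x v = w
  TT : ∀ x ∈ U, inner ℝ (fderiv ℝ f x (e x)) (fderiv ℝ f x (e x)) = 1
  DNe : ∀ x ∈ U, fderiv ℝ N x (e x) = -(κ x) • fderiv ℝ f x (e x)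
  dκ : ∀ x ∈ U, ∀ v, fderiv ℝ κ x v = r x * inner ℝ (fderiv ℝ f x (e x)) (fderiv ℝ f x v)
  r0 : ∀ x ∈ U, r x ≠ 0

namespace Setup

variable {m : ℕ} (S : Setup m)

/-- the unit tangent field `T = df(e)` -/
noncomputable def T : Xm m → Em m := fun x => fderiv ℝ S.f x (S.e x)

/-- projection to the tangent space of the level set of `H` -/
noncomputable def P (η : Em m) : Xm m → Em m := fun x =>
  η - inner ℝ (S.f x) η • S.f x - inner ℝ (S.T x) η • S.T x - inner ℝ (S.N x) η • S.N x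

end Setup

end BH
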