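import Mathlib
import Pool.Agent.Lib_helper71.BH.GeoDefs

set_option autoImplicit false

namespace BH

open PowerSeries

section formal

variable {R : Type*} [CommRing R]

lemma coeff_mul_eq_zero_of_left {x y : PowerSeries R} {n : ℕ} (h : ∀ k ≤ n, coeff k x = 0) :
    coeff n (x * y) = 0 := by
  rw [coeff_mul]
  refine Finset.sum_eq_zero fun p hp => ?_
  have : p.1 ≤ n := by
    have := Finset.HasAntidiagonal.mem_antidiagonal.1 hp; omega
  rw [h _ this, zero_mul]

lemma coeff_mul_eq_zero_of_right {x y : PowerSeries R} {n : ℕ} (h : ∀ k ≤ n, coeff k y = 0) :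
    coeff n (x * y) = 0 := by
  rw [mul_comm]; exact coeff_mul_eq_zero_of_left h

/-- `x` and `y` agree up to order `n` implies so do the products -/
lemma coeff_mul_congr {x x' y y' : PowerSeries R} {n : ℕ} (h : ∀ k ≤ n, coeff k x = coeff k x')
    (h' : ∀ k ≤ n, coeff k y = coeff k y') : ∀ k ≤ n, coeff k (x * y) = coeff k (x' * y') := by
  intro k hk
  rw [coeff_mul, coeff_mul]
  refine Finset.sum_congr rfl fun p hp => ?_
  have := Finset.HasAntidiagonal.mem_antidiagonal.1 hp
  rw [h _ (by omega), h' _ (by omega)]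

/-- coefficient induction for systems of formal differential equations -/
lemma zero_of_step [CharZero R] [IsDomain R] {I : Type*} (z : I → PowerSeries R)
    (h0 : ∀ i, constantCoeff (z i) = 0)
    (hs : ∀ n, (∀ i, ∀ k ≤ n, coeff k (z i) = 0) → ∀ i, coeff n (d⁄dX R (z i)) = 0) :
    ∀ i, z i = 0 := by
  have key : ∀ n, ∀ i, ∀ k ≤ n, coeff k (z i) = 0 := by
    intro n
    induction n with
    | zero =>
      intro i k hk
      have : k = 0 := by omega
      subst this
      rw [coeff_zero_eq_constantCoeff_apply]; exact h0 i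
    | succ n ih =>
      intro i k hk
      rcases Nat.lt_or_ge k (n + 1) with h | h
      · exact ih i k (by omega)
      · have : k = n + 1 := by omega
        subst this
        have h1 := hs n ih i
        rw [coeff_derivative] at h1
        rcases mul_eq_zero.1 h1 with h2 | h2
        · exact h2
        · exact absurd h2 (Nat.cast_add_one_ne_zero n)
  intro i
  ext n
  rw [key n i n le_rfl, map_zero]

end formal

/-- (F1) uniqueness for homogeneous linear systems of formal power series. -/
theorem ps_zero_of_linear (a b c e x y : PowerSeries ℂ)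
    (hx : d⁄dX ℂ x = a * x + b * y) (hy : d⁄dX ℂ y = c * x + e * y)
    (h0 : constantCoeff x = 0) (h1 : constantCoeff y = 0) : x = 0 ∧ y = 0 := by
  have key := zero_of_step (I := Bool) (fun i => if i then x else y)
    (by intro i; cases i <;> simp [h0, h1])
    (by
      intro n hn i
      have kx : ∀ k ≤ n, coeff k x = 0 := fun k hk => by simpa using hn true k hk
      have ky : ∀ k ≤ n, coeff k y = 0 := fun k hk => by simpa using hn false k hk
      cases i
      · simp only [Bool.false_eq_true, if_false]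
        rw [hy, map_add, coeff_mul_eq_zero_of_right kx, coeff_mul_eq_zero_of_right ky, add_zero]
      · simp only [if_true]
        rw [hx, map_add, coeff_mul_eq_zero_of_right kx, coeff_mul_eq_zero_of_right ky, add_zero])
  exact ⟨by simpa using key true, by simpa using key false⟩

/-- existence of formal solutions of causal systems -/
lemma exists_solution {I : Type*} (c0 : I → ℂ) (F : (I → PowerSeries ℂ) → I → PowerSeries ℂ)
    (hF : ∀ (n : ℕ) (z z' : I → PowerSeries ℂ), (∀ i, ∀ k ≤ n, coeff k (z i) = coeff k (z' i)) →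
      ∀ i, coeff n (F z i) = coeff n (F z' i)) :
    ∃ z : I → PowerSeries ℂ, (∀ i, constantCoeff (z i) = c0 i) ∧ ∀ i, d⁄dX ℂ (z i) = F z i := by
  let Z : ℕ → I → PowerSeries ℂ := fun n => Nat.rec (fun i => C (c0 i))
    (fun n Zn i => Zn i + monomial (n + 1) ((coeff (n + 1) (-(Zn i))) + coeff n (F Zn i) / ((n : ℂ) + 1))) n
  have Z0 : Z 0 = fun i => C (c0 i) := rfl
  have Zs : ∀ n i, Z (n + 1) i = Z n i + monomial (n + 1)
      ((coeff (n + 1) (-(Z n i))) + coeff n (F (Z n) i) / ((n : ℂ) + 1)) := fun n i => rfl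
  have hlow : ∀ n k i, k ≤ n → coeff k (Z (n + 1) i) = coeff k (Z n i) := by
    intro n k i hk
    rw [Zs, map_add, coeff_monomial, if_neg (by omega), add_zero]
  have htop : ∀ n i, coeff (n + 1) (Z (n + 1) i) = coeff n (F (Z n) i) / ((n : ℂ) + 1) := by
    intro n i
    rw [Zs, map_add, coeff_monomial, if_pos rfl, map_neg]
    ring
  have hst : ∀ n k i, k ≤ n → coeff k (Z n i) = coeff k (Z k i) := by
    intro n
    induction n with
    | zero => intro k i hk; have : k = 0 := by omega
              subst this; rfl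
    | succ n ih =>
      intro k i hk
      rcases Nat.lt_or_ge k (n + 1) with h | h
      · rw [hlow n k i (by omega), ih k i (by omega)]
      · have : k = n + 1 := by omega
        subst this; rfl
  refine ⟨fun i => PowerSeries.mk fun n => coeff n (Z n i), ?_, ?_⟩
  · intro i
    rw [← coeff_zero_eq_constantCoeff_apply, coeff_mk, Z0]
    simp
  · intro i
    ext n
    rw [coeff_derivative, coeff_mk, htop]
    have h1 : coeff n (F (fun i => PowerSeries.mk fun n => coeff n (Z n i)) i)
        = coeff n (F (Z n) i) := by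
      apply hF
      intro j k hk
      rw [coeff_mk]
      exact (hst n k j hk).symm
    rw [h1]
    exact div_mul_cancel₀ _ (Nat.cast_add_one_ne_zero n)

/-- (F2) formal solutions of the frame equations. -/
theorem exists_frame (κ : PowerSeries ℂ) : ∃ p q Ψ Ψi : PowerSeries ℂ,
    Ψ * Ψi = 1 ∧
    2 * d⁄dX ℂ p = (1 + p * q) * Ψ ∧
    2 * d⁄dX ℂ q = (1 + p * q) * Ψi ∧
    2 * d⁄dX ℂ Ψ = Ψ * (2 * C Complex.I * κ + (q * Ψ - p * Ψi)) ∧
    constantCoeff p = 1 ∧ constantCoeff q = 1 ∧ constantCoeff Ψ = Complex.I := by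
  let G : (Fin 4 → PowerSeries ℂ) → PowerSeries ℂ := fun z =>
    2 * C Complex.I * κ + (z 1 * z 2 - z 0 * z 3)
  let F : (Fin 4 → PowerSeries ℂ) → Fin 4 → PowerSeries ℂ := fun z =>
    ![C (1 / 2) * ((1 + z 0 * z 1) * z 2), C (1 / 2) * ((1 + z 0 * z 1) * z 3),
      C (1 / 2) * (z 2 * G z), C (1 / 2) * (-(z 3 * G z))]
  have refl : ∀ (n : ℕ) (x : PowerSeries ℂ), ∀ k ≤ n, coeff k x = coeff k x := fun _ _ _ _ => rfl
  have cadd : ∀ {n : ℕ} {x x' y y' : PowerSeries ℂ}, (∀ k ≤ n, coeff k x = coeff k x') →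
      (∀ k ≤ n, coeff k y = coeff k y') → ∀ k ≤ n, coeff k (x + y) = coeff k (x' + y') := by
    intro n x x' y y' h h' k hk
    rw [map_add, map_add, h k hk, h' k hk]
  have csub : ∀ {n : ℕ} {x x' y y' : PowerSeries ℂ}, (∀ k ≤ n, coeff k x = coeff k x') →
      (∀ k ≤ n, coeff k y = coeff k y') → ∀ k ≤ n, coeff k (x - y) = coeff k (x' - y') := by
    intro n x x' y y' h h' k hk
    rw [map_sub, map_sub, h k hk, h' k hk]
  have cneg : ∀ {n : ℕ} {x x' : PowerSeries ℂ}, (∀ k ≤ n, coeff k x = coeff k x') →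
      ∀ k ≤ n, coeff k (-x) = coeff k (-x') := by
    intro n x x' h k hk
    rw [map_neg, map_neg, h k hk]
  have hF : ∀ (n : ℕ) (z z' : Fin 4 → PowerSeries ℂ),
      (∀ i, ∀ k ≤ n, coeff k (z i) = coeff k (z' i)) →
      ∀ i, coeff n (F z i) = coeff n (F z' i) := by
    intro n z z' h
    have hG : ∀ k ≤ n, coeff k (G z) = coeff k (G z') :=
      cadd (refl n _) (csub (coeff_mul_congr (h 1) (h 2)) (coeff_mul_congr (h 0) (h 3)))
    have hpq : ∀ k ≤ n, coeff k (1 + z 0 * z 1) = coeff k (1 + z' 0 * z' 1) :=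
      cadd (refl n _) (coeff_mul_congr (h 0) (h 1))
    intro i
    fin_cases i
    · exact coeff_mul_congr (refl n _) (coeff_mul_congr hpq (h 2)) n le_rfl
    · exact coeff_mul_congr (refl n _) (coeff_mul_congr hpq (h 3)) n le_rfl
    · exact coeff_mul_congr (refl n _) (coeff_mul_congr (h 2) hG) n le_rfl
    · exact coeff_mul_congr (refl n _) (cneg (coeff_mul_congr (h 3) hG)) n le_rfl
  obtain ⟨z, hz0, hz⟩ := exists_solution ![1, 1, Complex.I, -Complex.I] F hF
  have d0 : d⁄dX ℂ (z 0) = C (1 / 2) * ((1 + z 0 * z 1) * z 2) := hz 0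
  have d1 : d⁄dX ℂ (z 1) = C (1 / 2) * ((1 + z 0 * z 1) * z 3) := hz 1
  have d2 : d⁄dX ℂ (z 2) = C (1 / 2) * (z 2 * G z) := hz 2
  have d3 : d⁄dX ℂ (z 3) = C (1 / 2) * (-(z 3 * G z)) := hz 3
  have h2 : (2 : PowerSeries ℂ) * C (1 / 2) = 1 := by
    have : (2 : PowerSeries ℂ) = C 2 := (map_ofNat C 2).symm
    rw [this, ← map_mul]; norm_num
  have c0 : constantCoeff (z 0) = 1 := hz0 0
  have c1 : constantCoeff (z 1) = 1 := hz0 1
  have c2 : constantCoeff (z 2) = Complex.I := hz0 2
  have c3 : constantCoeff (z 3) = -Complex.I := hz0 3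
  refine ⟨z 0, z 1, z 2, z 3, ?_, ?_, ?_, ?_, c0, c1, c2⟩
  · apply PowerSeries.derivative.ext
    · rw [Derivation.leibniz, d2, d3]
      rw [PowerSeries.derivative_one]
      simp only [smul_eq_mul]
      ring
    · rw [map_mul, c2, c3, map_one]
      simp
  · rw [d0, ← mul_assoc, h2, one_mul]
  · rw [d1, ← mul_assoc, h2, one_mul]
  · rw [d2, ← mul_assoc, h2, one_mul]

/-- (F3) a derivation of a domain extends to the field of fractions. -/
theorem exists_derivation_fraction {A K : Type*} [CommRing A] [IsDomain A] [Field K] [Algebra ℂ A]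
    [Algebra ℂ K] [Algebra A K] [IsScalarTower ℂ A K] [IsFractionRing A K]
    (d : Derivation ℂ A A) :
    ∃ D : Derivation ℂ K K, ∀ x : A, D (algebraMap A K x) = algebraMap A K (d x) := by
  let g : A →+* TrivSqZeroExt K K :=
    { toFun := fun x => TrivSqZeroExt.inl (algebraMap A K x) + TrivSqZeroExt.inr (algebraMap A K (d x))
      map_one' := by simp
      map_mul' := by
        intro x y
        ext
        · simp
        · simp only [TrivSqZeroExt.snd_mul, TrivSqZeroExt.fst_add, TrivSqZeroExt.snd_add,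
            TrivSqZeroExt.fst_inl, TrivSqZeroExt.fst_inr, TrivSqZeroExt.snd_inl,
            TrivSqZeroExt.snd_inr, zero_add, add_zero, smul_eq_mul,
            MulOpposite.smul_eq_mul_unop, MulOpposite.unop_op, Derivation.leibniz, map_add,
            map_mul]
          ring
      map_zero' := by simp
      map_add' := by
        intro x y
        ext
        · simp
        · simp only [TrivSqZeroExt.snd_add, TrivSqZeroExt.snd_inl,
            TrivSqZeroExt.snd_inr, zero_add, map_add] }
  have hg : ∀ y : nonZeroDivisors A, IsUnit (g y) := by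
    intro y
    rw [TrivSqZeroExt.isUnit_iff_isUnit_fst]
    have : (g y).fst = algebraMap A K y := by simp [g]
    rw [this]
    exact IsLocalization.map_units K y
  let G : K →+* TrivSqZeroExt K K := IsLocalization.lift hg
  have hG : ∀ x : A, G (algebraMap A K x) = g x := fun x => IsLocalization.lift_eq hg x
  have hfst : ∀ x : K, (G x).fst = x := by
    have : ((TrivSqZeroExt.fstHom K K K).toRingHom.comp G) = RingHom.id K := by
      apply IsLocalization.ringHom_ext (nonZeroDivisors A)
      ext x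
      simp only [RingHom.comp_apply, hG]
      simp [g]
    intro x
    exact DFunLike.congr_fun this x
  let D0 : K →ₗ[ℂ] K :=
    { toFun := fun x => (G x).snd
      map_add' := by intro x y; simp
      map_smul' := by
        intro c x
        rw [Algebra.smul_def, map_mul]
        have h1 : G (algebraMap ℂ K c) = TrivSqZeroExt.inl (algebraMap ℂ K c) := by
          rw [IsScalarTower.algebraMap_apply ℂ A K, hG]
          simp [g]
        rw [h1]
        simp [Algebra.smul_def] }
  refine ⟨Derivation.mk' D0 ?_, ?_⟩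
  · intro x y
    show (G (x * y)).snd = x • (G y).snd + y • (G x).snd
    rw [map_mul, TrivSqZeroExt.snd_mul, hfst, hfst]
    simp [mul_comm]
  · intro x
    show (G (algebraMap A K x)).snd = _
    rw [hG]
    show (TrivSqZeroExt.inl (algebraMap A K x) + TrivSqZeroExt.inr (algebraMap A K (d x))).snd = _
    rw [TrivSqZeroExt.snd_add, TrivSqZeroExt.snd_inl, TrivSqZeroExt.snd_inr, zero_add]

/-- (F4) diagonalisation persists: real matrix version. -/
theorem diag_persist {n : Type*} [Fintype n] [DecidableEq n] (κ : PowerSeries ℝ)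
    (A B : n → n → PowerSeries ℝ) (P : n → ℝ)
    (hA : ∀ i j, d⁄dX ℝ (A i j) = κ * B i j - ∑ k, A i k * B k j)
    (hB : ∀ i j, d⁄dX ℝ (B i j) = - C (if i = j then P i else 0) - κ * A i j
        - ∑ k, B i k * B k j)
    (hA0 : ∀ i j, i ≠ j → constantCoeff (A i j) = 0)
    (hB0 : ∀ i j, i ≠ j → constantCoeff (B i j) = 0) :
    (∀ i j, i ≠ j → A i j = 0) ∧ (∀ i j, i ≠ j → B i j = 0) := by
  have key := zero_of_step (I := Bool × {p : n × n // p.1 ≠ p.2})
    (fun x => if x.1 then A x.2.1.1 x.2.1.2 else B x.2.1.1 x.2.1.2)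
    (by
      rintro ⟨b, ⟨⟨i, j⟩, hij⟩⟩
      cases b
      · simpa using hB0 i j hij
      · simpa using hA0 i j hij)
    (by
      intro N hN
      have kA : ∀ i j, i ≠ j → ∀ k ≤ N, coeff k (A i j) = 0 := fun i j hij k hk => by
        simpa using hN (true, ⟨(i, j), hij⟩) k hk
      have kB : ∀ i j, i ≠ j → ∀ k ≤ N, coeff k (B i j) = 0 := fun i j hij k hk => by
        simpa using hN (false, ⟨(i, j), hij⟩) k hk
      rintro ⟨b, ⟨⟨i, j⟩, hij⟩⟩
      have hij' : i ≠ j := hij
      cases b
      · simp only [Bool.false_eq_true, if_false]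
        rw [hB i j, if_neg hij', map_zero, neg_zero, zero_sub, map_sub, map_neg,
          coeff_mul_eq_zero_of_right (kA i j hij'), map_sum]
        rw [Finset.sum_eq_zero, neg_zero, sub_zero]
        intro k _
        by_cases hik : i = k
        · subst hik
          exact coeff_mul_eq_zero_of_right (kB i j hij')
        · exact coeff_mul_eq_zero_of_left (kB i k hik)
      · simp only [if_true]
        rw [hA i j, map_sub, coeff_mul_eq_zero_of_right (kB i j hij'), map_sum]
        rw [Finset.sum_eq_zero, sub_zero]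
        intro k _
        by_cases hik : i = k
        · subst hik
          exact coeff_mul_eq_zero_of_right (kB i j hij')
        · exact coeff_mul_eq_zero_of_left (kA i k hik))
  exact ⟨fun i j hij => by simpa using key (true, ⟨(i, j), hij⟩),
    fun i j hij => by simpa using key (false, ⟨(i, j), hij⟩)⟩

/-- (F5) entries with `P i = 0` stay zero. -/
theorem zero_persist (κ A B : PowerSeries ℝ)
    (hA : d⁄dX ℝ A = κ * B - A * B) (hB : d⁄dX ℝ B = - κ * A - B * B)
    (hA0 : constantCoeff A = 0) (hB0 : constantCoeff B = 0) : A = 0 ∧ B = 0 := by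
  have key := zero_of_step (I := Bool) (fun i => if i then A else B)
    (by intro i; cases i <;> simp [hA0, hB0])
    (by
      intro n hn i
      have kx : ∀ k ≤ n, coeff k A = 0 := fun k hk => by simpa using hn true k hk
      have ky : ∀ k ≤ n, coeff k B = 0 := fun k hk => by simpa using hn false k hk
      cases i
      · simp only [Bool.false_eq_true, if_false]
        rw [hB, map_sub, coeff_mul_eq_zero_of_right kx, coeff_mul_eq_zero_of_right ky, sub_zero]
      · simp only [if_true]
        rw [hA, map_sub, coeff_mul_eq_zero_of_right ky, coeff_mul_eq_zero_of_right ky, sub_zero])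
  exact ⟨by simpa using key true, by simpa using key false⟩

/-- the Taylor series of `φ` along the (formal) flow of the vector field `e` at `x0` -/
noncomputable def flowSeries {X : Type*} [NormedAddCommGroup X] [NormedSpace ℝ X]
    (e : X → X) (x0 : X) (φ : X → ℝ) : PowerSeries ℝ :=
  PowerSeries.mk fun n => ((LD e)^[n] φ) x0 / (n.factorial : ℝ)

section flow

variable {X : Type*} [NormedAddCommGroup X] [NormedSpace ℝ X] {U : Set X} {e : X → X} {x0 : X}

theorem LD_smooth (hU : IsOpen U) (he : ContDiffOn ℝ smth e U) {φ : X → ℝ}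
    (hφ : ContDiffOn ℝ smth φ U) : ContDiffOn ℝ smth (LD e φ) U := by
  have h1 : ContDiffOn ℝ smth (fderiv ℝ φ) U := hφ.fderiv_of_isOpen hU (by simp [smth])
  exact h1.clm_apply he

theorem flowSeries_const (x0 : X) (c : ℝ) : flowSeries e x0 (fun _ => c) = C c := by
  have h0 : ∀ n, (LD e)^[n] (fun _ : X => (0 : ℝ)) = fun _ => 0 := by
    intro n
    induction n with
    | zero => rfl
    | succ n ih =>
      rw [Function.iterate_succ_apply', ih]
      funext x
      simp [LD]
  ext n
  rw [flowSeries, coeff_mk, coeff_C]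
  cases n with
  | zero => simp
  | succ n =>
    rw [Function.iterate_succ_apply]
    have : LD e (fun _ : X => c) = fun _ => 0 := by
      funext x; simp [LD]
    rw [this, h0]
    simp

theorem constantCoeff_flowSeries (φ : X → ℝ) :
    constantCoeff (flowSeries e x0 φ) = φ x0 := by
  rw [← coeff_zero_eq_constantCoeff_apply, flowSeries, coeff_mk]
  simp

/-- (F6) `flowSeries` turns `LD e` into `d/dX` -/
theorem flowSeries_LD (φ : X → ℝ) :
    flowSeries e x0 (LD e φ) = d⁄dX ℝ (flowSeries e x0 φ) := by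
  ext n
  rw [coeff_derivative, flowSeries, flowSeries, coeff_mk, coeff_mk, Function.iterate_succ_apply,
    Nat.factorial_succ]
  push_cast
  have h1 : (n.factorial : ℝ) ≠ 0 := Nat.cast_ne_zero.2 (Nat.factorial_ne_zero n)
  have h2 : (n : ℝ) + 1 ≠ 0 := Nat.cast_add_one_ne_zero n
  field_simp

lemma LD_congr (hU : IsOpen U) {φ ψ : X → ℝ} (h : ∀ x ∈ U, φ x = ψ x) :
    ∀ x ∈ U, LD e φ x = LD e ψ x := by
  intro x hx
  have : φ =ᶠ[nhds x] ψ := by
    filter_upwards [hU.mem_nhds hx] with y hy using h y hy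
  simp only [LD]
  rw [this.fderiv_eq]

lemma iterate_congr (hU : IsOpen U) (n : ℕ) : ∀ {φ ψ : X → ℝ}, (∀ x ∈ U, φ x = ψ x) →
    ∀ x ∈ U, (LD e)^[n] φ x = (LD e)^[n] ψ x := by
  induction n with
  | zero => intro φ ψ h x hx; exact h x hx
  | succ n ih =>
    intro φ ψ h x hx
    rw [Function.iterate_succ_apply, Function.iterate_succ_apply]
    exact ih (LD_congr hU h) x hx

/-- (F7) `flowSeries` only depends on the function on the open set `U` -/
theorem flowSeries_congr (hU : IsOpen U) (hx0 : x0 ∈ U) {φ ψ : X → ℝ}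
    (h : ∀ x ∈ U, φ x = ψ x) : flowSeries e x0 φ = flowSeries e x0 ψ := by
  ext n
  rw [flowSeries, flowSeries, coeff_mk, coeff_mk, iterate_congr hU n h x0 hx0]

lemma diffAt_of_smooth (hU : IsOpen U) {φ : X → ℝ} (hφ : ContDiffOn ℝ smth φ U) {x : X}
    (hx : x ∈ U) : DifferentiableAt ℝ φ x :=
  (hφ.contDiffAt (hU.mem_nhds hx)).differentiableAt (by simp [smth])

lemma LD_add (hU : IsOpen U) {φ ψ : X → ℝ}
    (hφ : ContDiffOn ℝ smth φ U) (hψ : ContDiffOn ℝ smth ψ U) :
    ∀ x ∈ U, LD e (fun x => φ x + ψ x) x = LD e φ x + LD e ψ x := by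
  intro x hx
  simp only [LD]
  rw [fderiv_fun_add (diffAt_of_smooth hU hφ hx) (diffAt_of_smooth hU hψ hx)]
  simp

lemma LD_mul (hU : IsOpen U) {φ ψ : X → ℝ}
    (hφ : ContDiffOn ℝ smth φ U) (hψ : ContDiffOn ℝ smth ψ U) :
    ∀ x ∈ U, LD e (fun x => φ x * ψ x) x = LD e φ x * ψ x + φ x * LD e ψ x := by
  intro x hx
  simp only [LD]
  rw [fderiv_fun_mul (diffAt_of_smooth hU hφ hx) (diffAt_of_smooth hU hψ hx)]
  simp
  ring

theorem flowSeries_add (hU : IsOpen U) (hx0 : x0 ∈ U) (he : ContDiffOn ℝ smth e U) {φ ψ : X → ℝ}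
    (hφ : ContDiffOn ℝ smth φ U) (hψ : ContDiffOn ℝ smth ψ U) :
    flowSeries e x0 (fun x => φ x + ψ x) = flowSeries e x0 φ + flowSeries e x0 ψ := by
  have key : ∀ n : ℕ, ∀ {φ ψ : X → ℝ}, ContDiffOn ℝ smth φ U → ContDiffOn ℝ smth ψ U →
      (LD e)^[n] (fun x => φ x + ψ x) x0 = (LD e)^[n] φ x0 + (LD e)^[n] ψ x0 := by
    intro n
    induction n with
    | zero => intro φ ψ _ _; rfl
    | succ n ih =>
      intro φ ψ hφ hψ
      rw [Function.iterate_succ_apply, Function.iterate_succ_apply, Function.iterate_succ_apply,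
        iterate_congr hU n (LD_add hU hφ hψ) x0 hx0]
      exact ih (LD_smooth hU he hφ) (LD_smooth hU he hψ)
  ext n
  rw [map_add, flowSeries, flowSeries, flowSeries, coeff_mk, coeff_mk, coeff_mk, key n hφ hψ]
  ring

theorem flowSeries_mul (hU : IsOpen U) (hx0 : x0 ∈ U) (he : ContDiffOn ℝ smth e U) {φ ψ : X → ℝ}
    (hφ : ContDiffOn ℝ smth φ U) (hψ : ContDiffOn ℝ smth ψ U) :
    flowSeries e x0 (fun x => φ x * ψ x) = flowSeries e x0 φ * flowSeries e x0 ψ := by
  have key : ∀ n : ℕ, ∀ {φ ψ : X → ℝ}, ContDiffOn ℝ smth φ U → ContDiffOn ℝ smth ψ U →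
      coeff n (flowSeries e x0 (fun x => φ x * ψ x))
        = coeff n (flowSeries e x0 φ * flowSeries e x0 ψ) := by
    intro n
    induction n with
    | zero =>
      intro φ ψ _ _
      rw [coeff_zero_eq_constantCoeff_apply, coeff_zero_eq_constantCoeff_apply, map_mul,
        constantCoeff_flowSeries, constantCoeff_flowSeries, constantCoeff_flowSeries]
    | succ n ih =>
      intro φ ψ hφ hψ
      have hLφ := LD_smooth hU he hφ
      have hLψ := LD_smooth hU he hψ
      have e1 : coeff n (d⁄dX ℝ (flowSeries e x0 (fun x => φ x * ψ x)))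
          = coeff n (d⁄dX ℝ (flowSeries e x0 φ * flowSeries e x0 ψ)) := by
        rw [← flowSeries_LD, flowSeries_congr hU hx0 (LD_mul hU hφ hψ),
          flowSeries_add hU hx0 he (hLφ.mul hψ) (hφ.mul hLψ), map_add, ih hLφ hψ, ih hφ hLψ,
          flowSeries_LD, flowSeries_LD, Derivation.leibniz, map_add]
        simp only [smul_eq_mul]
        rw [mul_comm (d⁄dX ℝ (flowSeries e x0 φ))]
        ring
      rw [coeff_derivative, coeff_derivative] at e1
      exact mul_right_cancel₀ (Nat.cast_add_one_ne_zero n) e1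
  ext n
  exact key n hφ hψ

theorem flowSeries_sum (hU : IsOpen U) (hx0 : x0 ∈ U) (he : ContDiffOn ℝ smth e U)
    {κ : Type*} (s : Finset κ) {φ : κ → X → ℝ} (hφ : ∀ k ∈ s, ContDiffOn ℝ smth (φ k) U) :
    flowSeries e x0 (fun x => ∑ k ∈ s, φ k x) = ∑ k ∈ s, flowSeries e x0 (φ k) := by
  classical
  induction s using Finset.induction_on with
  | empty =>
    simp only [Finset.sum_empty]
    rw [flowSeries_const, map_zero]
  | insert a s ha ih =>
    rw [Finset.sum_insert ha, ← ih fun k hk => hφ k (Finset.mem_insert_of_mem hk)]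
    have h1 : ContDiffOn ℝ smth (fun x => ∑ k ∈ s, φ k x) U :=
      ContDiffOn.sum fun k hk => hφ k (Finset.mem_insert_of_mem hk)
    rw [← flowSeries_add hU hx0 he (hφ a (Finset.mem_insert_self a s)) h1]
    refine flowSeries_congr hU hx0 fun x _ => ?_
    rw [Finset.sum_insert ha]

end flow

end BH
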