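import Mathlib

set_option autoImplicit false

namespace BH

/-- A 'limit calculus' (rank one place with residue field `ℂ`) on a differential field:
`Lim x a` means that `x` is finite at the place with residue `a`; `rho` is the order. -/
structure PlaceCalc (K : Type*) [Field K] [Algebra ℂ K] (D : Derivation ℂ K K) where
  Lim : K → ℂ → Prop
  rho : K → ℝ
  const : ∀ c : ℂ, Lim (algebraMap ℂ K c) c
  add : ∀ {x y : K} {a b : ℂ}, Lim x a → Lim y b → Lim (x + y) (a + b)
  mul : ∀ {x y : K} {a b : ℂ}, Lim x a → Lim y b → Lim (x * y) (a * b)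
  unique : ∀ {x : K} {a b : ℂ}, Lim x a → Lim x b → a = b
  dich : ∀ x : K, (∃ a, Lim x a) ∨ Lim x⁻¹ 0
  logD : ∀ x : K, x ≠ 0 → Lim (D x / x) (rho x : ℂ)
  rho_pos : ∀ x : K, x ≠ 0 → Lim x 0 → 0 < rho x

end BH
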