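import Mathlib
import Pool.Agent.Lib_helper71.BH.Place

set_option autoImplicit false

namespace BH

namespace PlaceCalc

variable {K : Type*} [Field K] [Algebra ℂ K] {D : Derivation ℂ K K} (P : PlaceCalc K D)

theorem zero : P.Lim 0 0 := by simpa using P.const 0
theorem one : P.Lim 1 1 := by simpa using P.const 1
theorem nat (n : ℕ) : P.Lim (n : K) (n : ℂ) := by simpa using P.const (n : ℂ)

theorem congr {x y : K} {a b : ℂ} (h : P.Lim x a) (hxy : y = x) (hab : b = a) : P.Lim y b := by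
  subst hxy; subst hab; exact h

theorem neg {x : K} {a : ℂ} (h : P.Lim x a) : P.Lim (-x) (-a) :=
  P.congr (P.mul (P.const (-1)) h) (by simp) (by ring)

theorem sub {x y : K} {a b : ℂ} (h : P.Lim x a) (h' : P.Lim y b) : P.Lim (x - y) (a - b) :=
  P.congr (P.add h (P.neg h')) (by ring) (by ring)

theorem sq {x : K} {a : ℂ} (h : P.Lim x a) : P.Lim (x ^ 2) (a ^ 2) :=
  P.congr (P.mul h h) (by ring) (by ring)

theorem sum {ι : Type*} (s : Finset ι) {f : ι → K} {a : ι → ℂ} (h : ∀ i ∈ s, P.Lim (f i) (a i)) :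
    P.Lim (∑ i ∈ s, f i) (∑ i ∈ s, a i) := by
  classical
  induction s using Finset.induction_on with
  | empty => simpa using P.zero
  | insert i s his ih =>
    rw [Finset.sum_insert his, Finset.sum_insert his]
    exact P.add (h i (Finset.mem_insert_self i s)) (ih fun j hj => h j (Finset.mem_insert_of_mem hj))

theorem ne_zero_of_lim {x : K} {a : ℂ} (h : P.Lim x a) (ha : a ≠ 0) : x ≠ 0 := by
  rintro rfl
  exact ha (P.unique h P.zero)

theorem inv {x : K} {a : ℂ} (h : P.Lim x a) (ha : a ≠ 0) : P.Lim x⁻¹ a⁻¹ := by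
  have hx := P.ne_zero_of_lim h ha
  rcases P.dich x⁻¹ with ⟨b, hb⟩ | hb
  · have h1 : P.Lim 1 (a * b) := P.congr (P.mul h hb) (by field_simp) rfl
    have h2 := P.unique h1 P.one
    have : b = a⁻¹ := by field_simp; rw [← h2]; ring
    rwa [this] at hb
  · rw [inv_inv] at hb
    exact absurd (P.unique h hb) ha

theorem div {x y : K} {a b : ℂ} (h : P.Lim x a) (h' : P.Lim y b) (hb : b ≠ 0) :
    P.Lim (x / y) (a / b) := by
  rw [div_eq_mul_inv, div_eq_mul_inv]
  exact P.mul h (P.inv h' hb)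

theorem rho_mul {x y : K} (hx : x ≠ 0) (hy : y ≠ 0) : P.rho (x * y) = P.rho x + P.rho y := by
  have h1 := P.logD (x * y) (mul_ne_zero hx hy)
  have h2 := P.add (P.logD x hx) (P.logD y hy)
  have h3 : D (x * y) / (x * y) = D x / x + D y / y := by
    rw [D.leibniz]; simp only [smul_eq_mul]; field_simp; ring
  rw [h3] at h1
  have := P.unique h1 h2
  exact_mod_cast this

theorem rho_one : P.rho 1 = 0 := by
  have := P.rho_mul (one_ne_zero (α := K)) one_ne_zero
  simp at this; linarith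

theorem rho_inv {x : K} (hx : x ≠ 0) : P.rho x⁻¹ = - P.rho x := by
  have := P.rho_mul hx (inv_ne_zero hx)
  rw [mul_inv_cancel₀ hx, P.rho_one] at this
  linarith

theorem rho_div {x y : K} (hx : x ≠ 0) (hy : y ≠ 0) : P.rho (x / y) = P.rho x - P.rho y := by
  rw [div_eq_mul_inv, P.rho_mul hx (inv_ne_zero hy), P.rho_inv hy]; ring

theorem lim_of_rho_nonneg {x : K} (hx : x ≠ 0) (h : 0 ≤ P.rho x) : ∃ a, P.Lim x a := by
  rcases P.dich x with h1 | h1
  · exact h1
  · have := P.rho_pos _ (inv_ne_zero hx) h1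
    rw [P.rho_inv hx] at this
    linarith

theorem D_lim_zero {x : K} {a : ℂ} (h : P.Lim x a) : P.Lim (D x) 0 := by
  by_cases hx : x - algebraMap ℂ K a = 0
  · have : D x = 0 := by
      have h1 : x = algebraMap ℂ K a := sub_eq_zero.mp hx
      rw [h1]; simp
    rw [this]; exact P.zero
  · have h1 : P.Lim (x - algebraMap ℂ K a) 0 := P.congr (P.sub h (P.const a)) rfl (by ring)
    have h2 := P.mul (P.logD _ hx) h1
    refine P.congr h2 ?_ (by ring)
    rw [map_sub]; simp
    rw [div_mul_cancel₀ _ hx]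

theorem rho_eq_zero {x : K} {a : ℂ} (h : P.Lim x a) (ha : a ≠ 0) : P.rho x = 0 := by
  have hx := P.ne_zero_of_lim h ha
  have h1 := P.div (P.D_lim_zero h) h ha
  have := P.unique (P.logD x hx) h1
  simp at this
  exact this

theorem lim_zero_of_rho_pos {x : K} (hx : x ≠ 0) (h : 0 < P.rho x) : P.Lim x 0 := by
  obtain ⟨a, ha⟩ := P.lim_of_rho_nonneg hx h.le
  by_cases h0 : a = 0
  · rwa [h0] at ha
  · have := P.rho_eq_zero ha h0
    linarith

theorem inv_lim_zero {x : K} (hx : x ≠ 0) (h : P.rho x < 0) : P.Lim x⁻¹ 0 :=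
  P.lim_zero_of_rho_pos (inv_ne_zero hx) (by rw [P.rho_inv hx]; linarith)

end PlaceCalc

end BH
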