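import Mathlib
import Pool.Agent.Lib_helper71.BH.LocalBasic

set_option autoImplicit false

namespace BH

open PlaceCalc

/-- second order analysis: the case `κ = o(Λ)`. -/
theorem second_order {K : Type*} [Field K] [Algebra ℂ K] (D δ : Derivation ℂ K K) (P : PlaceCalc K D)
    (Θ : K) (hΘ : Θ ≠ 0) (hD : ∀ z, D z = Θ * δ z)
    {ι : Type*} [Fintype ι] (μ : ι → ℕ)
    (m : ℂ) (κ : K) (θ lam : ι → K)
    (hθ : ∀ i, δ (θ i) = -1 - κ * lam i - θ i ^ 2)
    (hlam : ∀ i, δ (lam i) = (κ - lam i) * θ i)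
    (E1 : ∑ i, (μ i : K) * lam i = -3 * κ)
    (E2 : δ (δ κ) + δ κ * ∑ i, (μ i : K) * θ i
        + κ * (algebraMap ℂ K m - κ ^ 2 - ∑ i, (μ i : K) * lam i ^ 2) = 0)
    (hκ0 : κ ≠ 0) (i1 : ι) (S : Finset ι) (l : ι → ℂ) (N : ℝ) (hN : 0 < N)
    (h1 : θ i1 ≠ 0) (hr1 : P.rho (θ i1) = -N) (hΘ1 : P.Lim (θ i1 * Θ) N)
    (hκn : P.rho κ < 0) (hκN : -N < P.rho κ)
    (hxS : ∀ i ∈ S, P.Lim (θ i / θ i1) 1) (hxS' : ∀ i, i ∉ S → P.Lim (θ i / θ i1) 0)
    (hz : ∀ i, P.Lim (lam i / θ i1) (l i)) (hlS : ∀ i, i ∉ S → l i = 0) : False := by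
  classical
  set t := θ i1 with ht
  set κt : K := κ / t with hκt
  have hκt0 : κt ≠ 0 := div_ne_zero hκ0 h1
  have hrK : P.rho κt = P.rho κ + N := by rw [hκt, P.rho_div hκ0 h1, hr1]; ring
  set e : ℝ := P.rho κt / N with he
  have he0 : 0 < e := by rw [he]; apply div_pos _ hN; rw [hrK]; linarith
  have he1 : e < 1 := by rw [he, div_lt_one hN, hrK]; linarith
  have hKlim : P.Lim κt 0 := P.lim_zero_of_rho_pos hκt0 (by rw [hrK]; linarith)
  have htau : t * Θ ≠ 0 := mul_ne_zero h1 hΘ
  have hNc : (N : ℂ) ≠ 0 := by exact_mod_cast hN.ne'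
  have htinv : P.Lim (t * Θ)⁻¹ (N : ℂ)⁻¹ := P.inv hΘ1 hNc
  -- the operator D1 z = δ z / t
  have hD1 : ∀ z : K, z ≠ 0 → P.Lim (δ z / t / z) ((P.rho z / N : ℝ) : ℂ) := by
    intro z hz0
    have := P.mul (P.logD z hz0) htinv
    refine P.congr this ?_ ?_
    · rw [hD z]; field_simp
    · push_cast; ring
  have hti : P.Lim (t⁻¹) 0 := P.inv_lim_zero h1 (by rw [hr1]; linarith)
  -- rho of t^-2 / K
  have ht2 : P.Lim (t⁻¹ ^ 2 / κt) 0 := by
    apply P.lim_zero_of_rho_pos (div_ne_zero (pow_ne_zero 2 (inv_ne_zero h1)) hκt0)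
    rw [P.rho_div (pow_ne_zero 2 (inv_ne_zero h1)) hκt0, pow_two,
      P.rho_mul (inv_ne_zero h1) (inv_ne_zero h1), P.rho_inv h1, hr1, hrK]
    linarith
  have ht2' : P.Lim (t⁻¹ ^ 2) 0 := P.congr (P.sq hti) rfl (by ring)
  -- z1, l1
  set l1 : ℂ := l i1 with hl1
  set z : ι → K := fun i => lam i / t with hzdef
  set x : ι → K := fun i => θ i / t with hxdef
  have hzl : ∀ i, P.Lim (z i) (l i) := hz
  have hxS1 : ∀ i ∈ S, P.Lim (x i) 1 := hxS
  have hxS0 : ∀ i, i ∉ S → P.Lim (x i) 0 := hxS'
  have hm3 : P.Lim (-3) (-3) := P.congr (P.neg (P.nat 3)) (by norm_num) (by norm_num)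
  -- D1 x
  have hDx : ∀ i, δ (x i) / t = t⁻¹ ^ 2 * (x i - 1) + κt * (x i * z i1 - z i) + x i - x i ^ 2 := by
    intro i
    have : δ (x i) = (δ (θ i) * t - θ i * δ t) / t ^ 2 := by
      have h := δ.leibniz (x i) t
      simp only [smul_eq_mul] at h
      have h' : x i * t = θ i := by simp [hxdef, h1]
      rw [h'] at h
      field_simp
      have : θ i = x i * t := h'.symm
      rw [h]
      rw [show θ i = x i * t from this]
      ring
    rw [this, hθ i]
    have ht' : δ t = -1 - κ * lam i1 - t ^ 2 := hθ i1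
    rw [ht']
    simp only [hxdef, hzdef, hκt]
    field_simp
    ring
  have hDz : ∀ i, δ (z i) / t = κt * x i - z i * (x i - 1) + z i * (t⁻¹ ^ 2 + κt * z i1) := by
    intro i
    have : δ (z i) = (δ (lam i) * t - lam i * δ t) / t ^ 2 := by
      have h := δ.leibniz (z i) t
      simp only [smul_eq_mul] at h
      have h' : z i * t = lam i := by simp [hzdef, h1]
      rw [h'] at h
      field_simp
      have : lam i = z i * t := h'.symm
      rw [h]
      rw [show lam i = z i * t from this]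
      ring
    rw [this, hlam i]
    have ht' : δ t = -1 - κ * lam i1 - t ^ 2 := hθ i1
    rw [ht']
    simp only [hxdef, hzdef, hκt]
    field_simp
    ring
  -- a-claim
  have ha : ∀ i ∈ S, P.Lim ((x i - 1) / κt) ((l1 - l i) / (e + 1)) := by
    intro i hi
    have hx1 : P.Lim (x i - 1) 0 := P.congr (P.sub (hxS i hi) P.one) rfl (by ring)
    have hDa : δ (x i - 1) / t = -(x i - 1) * (1 + (x i - 1)) + t⁻¹ ^ 2 * (x i - 1)
        + κt * (x i * z i1 - z i) := by
      rw [map_sub, Derivation.map_one_eq_zero, sub_zero, hDx i]; ring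
    have hlimR : P.Lim (x i * z i1 - z i) (l1 - l i) :=
      P.congr (P.sub (P.mul (hxS i hi) (hzl i1)) (hzl i)) rfl (by ring)
    by_cases ha0 : x i - 1 = 0
    · have h2 : κt * (x i * z i1 - z i) = 0 := by
        have := hDa; rw [ha0] at this; simp at this
        rcases this with h | h
        · exact absurd h hκt0
        · rw [h]; ring
      have h3 : x i * z i1 - z i = 0 := by
        rcases mul_eq_zero.mp h2 with h | h
        · exact absurd h hκt0
        · exact h
      rw [h3] at hlimR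
      have h4 := P.unique hlimR P.zero
      rw [ha0, zero_div, h4, zero_div]; exact P.zero
    · have hpos := P.rho_pos _ ha0 hx1
      have hD1a := hD1 (x i - 1) ha0
      rw [hDa] at hD1a
      -- rho a >= rho K
      have hge : P.rho κt ≤ P.rho (x i - 1) := by
        by_contra hlt
        push Not at hlt
        have hK' : P.Lim (κt / (x i - 1)) 0 := by
          apply P.lim_zero_of_rho_pos (div_ne_zero hκt0 ha0)
          rw [P.rho_div hκt0 ha0]; linarith
        have h5 : P.Lim ((-(x i - 1) * (1 + (x i - 1)) + t⁻¹ ^ 2 * (x i - 1)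
            + κt * (x i * z i1 - z i)) / (x i - 1)) (-1) := by
          refine P.congr (P.add (P.add (P.neg (P.add P.one hx1)) ht2') (P.mul hK' hlimR)) ?_ ?_
          · field_simp
          · ring
        have h6 := P.unique hD1a h5
        have h7 : P.rho (x i - 1) / N = -1 := by exact_mod_cast h6
        have h8 : 0 < P.rho (x i - 1) / N := div_pos hpos hN
        linarith
      obtain ⟨c, hc⟩ := P.lim_of_rho_nonneg (div_ne_zero ha0 hκt0)
        (by rw [P.rho_div ha0 hκt0]; linarith : 0 ≤ P.rho ((x i - 1) / κt))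
      have h9 : P.Lim (δ (x i - 1) / t / κt) (e * c) := by
        have h10 := P.mul (hD1 (x i - 1) ha0) hc
        by_cases hc0 : c = 0
        · subst hc0
          refine P.congr h10 ?_ (by ring)
          field_simp
        · have h11 := P.rho_eq_zero hc hc0
          rw [P.rho_div ha0 hκt0] at h11
          refine P.congr h10 ?_ ?_
          · field_simp
          · rw [he, show P.rho (x i - 1) = P.rho κt by linarith]
      rw [hDa] at h9
      have h12 : P.Lim ((-(x i - 1) * (1 + (x i - 1)) + t⁻¹ ^ 2 * (x i - 1)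
            + κt * (x i * z i1 - z i)) / κt) (-c + (l1 - l i)) := by
        refine P.congr (P.add (P.add (P.neg (P.mul hc (P.add P.one hx1))) (P.mul ht2' hc)) hlimR) ?_ ?_
        · field_simp
        · ring
      have h13 := P.unique h9 h12
      have h14 : c = (l1 - l i) / (e + 1) := by
        have : ((e : ℂ) + 1) ≠ 0 := by
          have : (e + 1 : ℝ) ≠ 0 := by linarith
          exact_mod_cast this
        field_simp
        linear_combination h13
      rwa [h14] at hc
  -- b-claim
  have hb : ∀ i ∈ S, P.Lim ((z i - algebraMap ℂ K (l i)) / κt)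
      ((1 - l i * ((l1 - l i) / (e + 1)) + l i * l1) / e) := by
    intro i hi
    have hb0 : P.Lim (z i - algebraMap ℂ K (l i)) 0 :=
      P.congr (P.sub (hzl i) (P.const (l i))) rfl (by ring)
    have hDb : δ (z i - algebraMap ℂ K (l i)) / t
        = κt * x i - z i * (x i - 1) + z i * (t⁻¹ ^ 2 + κt * z i1) := by
      rw [map_sub, Derivation.map_algebraMap, sub_zero, hDz i]
    set R : K := κt * x i - z i * (x i - 1) + z i * (t⁻¹ ^ 2 + κt * z i1) with hR
    have hRK : P.Lim (R / κt) (1 - l i * ((l1 - l i) / (e + 1)) + l i * l1) := by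
      refine P.congr (P.add (P.sub (hxS1 i hi) (P.mul (hzl i) (ha i hi)))
        (P.mul (hzl i) (P.add ht2 (hzl i1)))) ?_ ?_
      · rw [hR]; field_simp
      · rw [← hl1]; ring
    have hec : (e : ℂ) ≠ 0 := by exact_mod_cast he0.ne'
    by_cases hb1 : z i - algebraMap ℂ K (l i) = 0
    · rw [hb1] at hDb
      simp only [map_zero, zero_div] at hDb
      rw [← hDb, zero_div] at hRK
      have h4 := P.unique hRK P.zero
      rw [hb1, zero_div, h4, zero_div]; exact P.zero
    · have hpos := P.rho_pos _ hb1 hb0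
      have hD1b := hD1 _ hb1
      rw [hDb] at hD1b
      have hge : P.rho κt ≤ P.rho (z i - algebraMap ℂ K (l i)) := by
        by_contra hlt
        push Not at hlt
        have hK' : P.Lim (κt / (z i - algebraMap ℂ K (l i))) 0 := by
          apply P.lim_zero_of_rho_pos (div_ne_zero hκt0 hb1)
          rw [P.rho_div hκt0 hb1]; linarith
        have h5 : P.Lim (R / (z i - algebraMap ℂ K (l i))) 0 := by
          refine P.congr (P.mul hRK hK') ?_ (by ring)
          field_simp
        have h6 := P.unique hD1b h5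
        have h7 : P.rho (z i - algebraMap ℂ K (l i)) / N = 0 := by exact_mod_cast h6
        have h8 : 0 < P.rho (z i - algebraMap ℂ K (l i)) / N := div_pos hpos hN
        linarith
      obtain ⟨c, hc⟩ := P.lim_of_rho_nonneg (div_ne_zero hb1 hκt0)
        (by rw [P.rho_div hb1 hκt0]; linarith)
      have h9 : P.Lim (δ (z i - algebraMap ℂ K (l i)) / t / κt) (e * c) := by
        have h10 := P.mul (hD1 _ hb1) hc
        by_cases hc0 : c = 0
        · subst hc0
          refine P.congr h10 ?_ (by ring)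
          field_simp
        · have h11 := P.rho_eq_zero hc hc0
          rw [P.rho_div hb1 hκt0] at h11
          refine P.congr h10 ?_ ?_
          · field_simp
          · rw [he, show P.rho (z i - algebraMap ℂ K (l i)) = P.rho κt by linarith]
      rw [hDb] at h9
      have h13 := P.unique h9 hRK
      have h14 : c = (1 - l i * ((l1 - l i) / (e + 1)) + l i * l1) / e := by
        rw [eq_div_iff hec, ← h13]; ring
      rwa [h14] at hc
  -- outside S
  have hout : ∀ i, i ∉ S → P.Lim ((z i - algebraMap ℂ K (l i)) / κt) 0 := by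
    intro i hi
    have hli : l i = 0 := hlS i hi
    rw [hli, map_zero, sub_zero]
    by_cases hz0 : z i = 0
    · rw [hz0, zero_div]; exact P.zero
    · apply P.lim_zero_of_rho_pos (div_ne_zero hz0 hκt0)
      rw [P.rho_div hz0 hκt0]
      by_contra hle
      push Not at hle
      have hzi := hzl i
      rw [hli] at hzi
      obtain ⟨c, hc⟩ := P.lim_of_rho_nonneg (div_ne_zero hκt0 hz0)
        (by rw [P.rho_div hκt0 hz0]; linarith)
      have h5 : P.Lim ((κt * x i - z i * (x i - 1) + z i * (t⁻¹ ^ 2 + κt * z i1)) / z i) 1 := by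
        refine P.congr (P.add (P.sub (P.mul hc (hxS0 i hi)) (P.sub (hxS0 i hi) P.one))
          (P.add ht2' (P.mul hKlim (hzl i1)))) ?_ ?_
        · field_simp
        · ring
      have h6 := hD1 _ hz0
      rw [hDz i] at h6
      have h7 := P.unique h6 h5
      have h8 : P.rho (z i) / N = 1 := by exact_mod_cast h7
      have h9 : P.rho (z i) / N ≤ e := by
        rw [he]; apply div_le_div_of_nonneg_right _ hN.le; linarith
      linarith
  -- first E1 limit
  have E1t : ∑ i, (μ i : K) * z i = -3 * κt := by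
    have : ∑ i, (μ i : K) * z i = (∑ i, (μ i : K) * lam i) / t := by
      rw [Finset.sum_div]; refine Finset.sum_congr rfl fun i _ => ?_
      simp [hzdef]; ring
    rw [this, E1, hκt]; ring
  have hl0 : ∑ i, (μ i : ℂ) * l i = 0 := by
    have h1 := P.sum Finset.univ (f := fun i => (μ i : K) * z i) (a := fun i => (μ i : ℂ) * l i)
      (fun i _ => P.mul (P.nat (μ i)) (hzl i))
    rw [E1t] at h1
    have h2 := P.mul hm3 hKlim
    have h3 := P.unique h1 h2
    rw [h3]; ring
  have hl0S : ∑ i ∈ S, (μ i : ℂ) * l i = 0 := by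
    rw [← hl0]
    refine Finset.sum_subset (Finset.subset_univ S) fun i _ hi => ?_
    rw [hlS i hi]; ring
  -- second E1 limit
  have hsecond : ∑ i ∈ S, (μ i : ℂ) * ((1 - l i * ((l1 - l i) / (e + 1)) + l i * l1) / e) = -3 := by
    have h1 := P.sum Finset.univ
      (f := fun i => (μ i : K) * ((z i - algebraMap ℂ K (l i)) / κt))
      (a := fun i => if i ∈ S then
        (μ i : ℂ) * ((1 - l i * ((l1 - l i) / (e + 1)) + l i * l1) / e) else 0)
      (fun i _ => by
        by_cases hi : i ∈ S
        · simp only [hi, if_true]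
          exact P.mul (P.nat (μ i)) (hb i hi)
        · simp only [hi, if_false]
          exact P.congr (P.mul (P.nat (μ i)) (hout i hi)) rfl (by ring))
    have h2 : ∑ i, (μ i : K) * ((z i - algebraMap ℂ K (l i)) / κt) = -3 := by
      have h3 : ∑ i, (μ i : K) * algebraMap ℂ K (l i) = 0 := by
        have := congrArg (algebraMap ℂ K) hl0
        simpa using this
      have h4 : ∑ i, (μ i : K) * ((z i - algebraMap ℂ K (l i)) / κt)
          = (∑ i, (μ i : K) * z i - ∑ i, (μ i : K) * algebraMap ℂ K (l i)) / κt := by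
        rw [← Finset.sum_sub_distrib, Finset.sum_div]
        refine Finset.sum_congr rfl fun i _ => ?_
        ring
      rw [h4, h3, E1t]
      field_simp
      ring
    rw [h2] at h1
    have h5 := P.unique h1 hm3
    rw [← Finset.sum_filter] at h5
    rw [← h5]
    refine Finset.sum_congr ?_ fun _ _ => rfl
    ext i; simp
  -- algebra for E1
  have hec : (e : ℂ) ≠ 0 := by exact_mod_cast he0.ne'
  have he1c : (e : ℂ) + 1 ≠ 0 := by
    have : (e + 1 : ℝ) ≠ 0 := by linarith
    exact_mod_cast this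
  set g : ℂ := ∑ i ∈ S, (μ i : ℂ) with hg
  set Q : ℂ := ∑ i ∈ S, (μ i : ℂ) * l i ^ 2 with hQ
  have hE1' : (e + 1) * (g + 3 * e) + Q = 0 := by
    have h1 : ∑ i ∈ S, (μ i : ℂ) * ((1 - l i * ((l1 - l i) / (e + 1)) + l i * l1) / e)
        = (g + Q / (e + 1)) / e := by
      have h2 : ∀ i ∈ S, (μ i : ℂ) * ((1 - l i * ((l1 - l i) / (e + 1)) + l i * l1) / e)
          = ((μ i : ℂ) + (μ i : ℂ) * l i ^ 2 / (e + 1)
            + ((μ i : ℂ) * l i) * (l1 - l1 / (e + 1))) / e := by
        intro i _
        field_simp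
        ring
      rw [Finset.sum_congr rfl h2, ← Finset.sum_div, Finset.sum_add_distrib,
        Finset.sum_add_distrib, ← Finset.sum_mul, hl0S, ← Finset.sum_div]
      ring
    rw [h1] at hsecond
    field_simp at hsecond
    linear_combination hsecond
  -- E2
  have hrκ : P.rho κ / N = e - 1 := by
    rw [he, hrK]; field_simp; ring
  have hk1 : P.Lim (δ κ / t / κ) ((e - 1 : ℝ) : ℂ) := by
    have := hD1 κ hκ0; rwa [hrκ] at this
  have he1' : ((e - 1 : ℝ) : ℂ) ≠ 0 := by
    have : (e - 1 : ℝ) ≠ 0 := by linarith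
    exact_mod_cast this
  have hk1ne := P.ne_zero_of_lim hk1 he1'
  have hδκ : δ κ ≠ 0 := by
    intro h; apply hk1ne; rw [h]; simp
  have h1n : t ≠ 0 := h1
  have hrδκ : P.rho (δ κ) / N = e - 2 := by
    have h1 := P.rho_eq_zero hk1 he1'
    rw [P.rho_div (div_ne_zero hδκ h1n) hκ0, P.rho_div hδκ h1n] at h1
    · rw [hr1] at h1
      have h2 : P.rho (δ κ) = P.rho κ - N := by linarith
      rw [h2, sub_div, hrκ, div_self hN.ne']; ring
  have hk2 : P.Lim (δ (δ κ) / t / δ κ) ((e - 2 : ℝ) : ℂ) := by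
    have := hD1 (δ κ) hδκ; rwa [hrδκ] at this
  have hsumx : P.Lim (∑ i, (μ i : K) * x i) g := by
    have h1 := P.sum Finset.univ (f := fun i => (μ i : K) * x i)
      (a := fun i => if i ∈ S then (μ i : ℂ) else 0)
      (fun i _ => by
        by_cases hi : i ∈ S
        · simp only [hi, if_true]
          exact P.congr (P.mul (P.nat (μ i)) (hxS i hi)) rfl (by ring)
        · simp only [hi, if_false]
          exact P.congr (P.mul (P.nat (μ i)) (hxS' i hi)) rfl (by ring))
    refine P.congr h1 rfl ?_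
    rw [← Finset.sum_filter, hg]
    refine Finset.sum_congr ?_ fun _ _ => rfl
    ext i; simp
  have hsumz : P.Lim (∑ i, (μ i : K) * z i ^ 2) Q := by
    have h1 := P.sum Finset.univ (f := fun i => (μ i : K) * z i ^ 2)
      (a := fun i => (μ i : ℂ) * l i ^ 2)
      (fun i _ => P.mul (P.nat (μ i)) (P.sq (hzl i)))
    refine P.congr h1 rfl ?_
    rw [hQ]
    refine Finset.sum_subset (Finset.subset_univ S) fun i _ hi => ?_
    rw [hlS i hi]; ring
  have hE2' : (e - 2) * (e - 1) + (e - 1) * g - Q = 0 := by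
    have h1 := P.add (P.add (P.mul hk2 hk1) (P.mul hk1 hsumx))
      (P.sub (P.sub (P.mul (P.const m) ht2') (P.sq hKlim)) hsumz)
    have h2 : (δ (δ κ) / t / δ κ) * (δ κ / t / κ) + (δ κ / t / κ) * (∑ i, (μ i : K) * x i)
        + (algebraMap ℂ K m * t⁻¹ ^ 2 - κt ^ 2 - ∑ i, (μ i : K) * z i ^ 2) = 0 := by
      have hx' : ∑ i, (μ i : K) * x i = (∑ i, (μ i : K) * θ i) / t := by
        rw [Finset.sum_div]; refine Finset.sum_congr rfl fun i _ => ?_
        simp [hxdef]; ring
      have hz' : ∑ i, (μ i : K) * z i ^ 2 = (∑ i, (μ i : K) * lam i ^ 2) / t ^ 2 := by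
        rw [Finset.sum_div]; refine Finset.sum_congr rfl fun i _ => ?_
        simp [hzdef]; ring
      rw [hx', hz', hκt]
      have hE := E2
      field_simp
      linear_combination hE
    rw [h2] at h1
    have h3 := P.unique h1 P.zero
    push_cast at h3
    linear_combination h3
  -- conclusion
  have hfin : (4 * e ^ 2 + 2 * (∑ i ∈ S, (μ i : ℝ)) * e + 2 : ℝ) = 0 := by
    have hgr : g = ((∑ i ∈ S, (μ i : ℝ) : ℝ) : ℂ) := by rw [hg]; push_cast; rfl
    have h1 : (4 * (e : ℂ) ^ 2 + 2 * g * e + 2) = 0 := by linear_combination hE1' + hE2'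
    rw [hgr] at h1
    exact_mod_cast h1
  have hgn : 0 ≤ ∑ i ∈ S, (μ i : ℝ) := Finset.sum_nonneg fun i _ => Nat.cast_nonneg _
  nlinarith [mul_nonneg hgn he0.le, sq_nonneg e]

end BH
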