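import Mathlib
import Pool.Agent.Lib_helper71.BH.Local2

set_option autoImplicit false

namespace BH

open PlaceCalc

/-- Module C: the local analysis at a place where `κ = ∞`. -/
theorem no_place {K : Type*} [Field K] [Algebra ℂ K] (D δ : Derivation ℂ K K) (P : PlaceCalc K D)
    (Θ : K) (hΘ : Θ ≠ 0) (hD : ∀ z, D z = Θ * δ z)
    {ι : Type*} [Fintype ι] (μ : ι → ℕ) (hμ : ∀ i, 0 < μ i)
    (m : ℂ) (κ : K) (θ lam : ι → K)
    (hθ : ∀ i, δ (θ i) = -1 - κ * lam i - θ i ^ 2)
    (hlam : ∀ i, δ (lam i) = (κ - lam i) * θ i)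
    (E1 : ∑ i, (μ i : K) * lam i = -3 * κ)
    (E2 : δ (δ κ) + δ κ * ∑ i, (μ i : K) * θ i
        + κ * (algebraMap ℂ K m - κ ^ 2 - ∑ i, (μ i : K) * lam i ^ 2) = 0)
    (gram : ∀ i j, i ≠ j → ∃ c : ℂ, c ≠ 1 ∧
        (1 + θ i * θ j + lam i * lam j) ^ 2
          = algebraMap ℂ K c * ((1 + θ i ^ 2 + lam i ^ 2) * (1 + θ j ^ 2 + lam j ^ 2)))
    (hκ0 : κ ≠ 0) (hκ : P.Lim κ⁻¹ 0) : False := by
  classical
  have hm3 : P.Lim (-3) (-3) := P.congr (P.neg (P.nat 3)) (by norm_num) (by norm_num)
  have hrκ : P.rho κ < 0 := by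
    have := P.rho_pos _ (inv_ne_zero hκ0) hκ
    rw [P.rho_inv hκ0] at this; linarith
  -- some λ_i is at least as large as κ
  have hex : ∃ i, lam i ≠ 0 ∧ P.rho (lam i) ≤ P.rho κ := by
    by_contra hcon
    push Not at hcon
    have h1 := P.sum Finset.univ (f := fun i => (μ i : K) * (lam i / κ))
      (a := fun i => (μ i : ℂ) * 0) (fun i _ => by
        refine P.mul (P.nat (μ i)) ?_
        by_cases h : lam i = 0
        · rw [h, zero_div]; exact P.zero
        · apply P.lim_zero_of_rho_pos (div_ne_zero h hκ0)
          rw [P.rho_div h hκ0]; linarith [hcon i h])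
    have h2 : ∑ i, (μ i : K) * (lam i / κ) = -3 := by
      have : ∑ i, (μ i : K) * (lam i / κ) = (∑ i, (μ i : K) * lam i) / κ := by
        rw [Finset.sum_div]; refine Finset.sum_congr rfl fun i _ => ?_
        ring
      rw [this, E1]; field_simp
    rw [h2] at h1
    have := P.unique h1 hm3
    simp at this
  -- the scale Λ
  let z : ι ⊕ ι → K := Sum.elim θ lam
  obtain ⟨i0, hi0, hi0'⟩ := hex
  have hne : (Finset.univ.filter fun s => z s ≠ 0).Nonempty := ⟨Sum.inr i0, by simp [z, hi0]⟩
  obtain ⟨s0, hs0, hmin⟩ := Finset.exists_min_image _ (fun s => P.rho (z s)) hne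
  have hΛ0 : z s0 ≠ 0 := (Finset.mem_filter.mp hs0).2
  set Λ : K := z s0 with hΛ
  have hmin' : ∀ s, z s ≠ 0 → P.rho Λ ≤ P.rho (z s) := fun s hs =>
    hmin s (Finset.mem_filter.mpr ⟨Finset.mem_univ _, hs⟩)
  have hrΛ : P.rho Λ ≤ P.rho κ := le_trans (hmin' (Sum.inr i0) hi0) hi0'
  set N : ℝ := - P.rho Λ with hN
  have hNpos : 0 < N := by rw [hN]; linarith
  have hNc : (N : ℂ) ≠ 0 := by exact_mod_cast hNpos.ne'
  have hlimz : ∀ s, ∃ c, P.Lim (z s / Λ) c := by
    intro s
    by_cases h : z s = 0
    · exact ⟨0, by rw [h, zero_div]; exact P.zero⟩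
    · exact P.lim_of_rho_nonneg (div_ne_zero h hΛ0) (by
        rw [P.rho_div h hΛ0]; linarith [hmin' s h])
  choose zb hzb using hlimz
  have hzb0 : zb s0 = 1 := P.unique (hzb s0) (by rw [← hΛ, div_self hΛ0]; exact P.one)
  set θb : ι → ℂ := fun i => zb (Sum.inl i) with hθb
  set lb : ι → ℂ := fun i => zb (Sum.inr i) with hlb
  have hθl : ∀ i, P.Lim (θ i / Λ) (θb i) := fun i => hzb (Sum.inl i)
  have hll : ∀ i, P.Lim (lam i / Λ) (lb i) := fun i => hzb (Sum.inr i)
  -- κ / Λ
  obtain ⟨κb, hκb⟩ : ∃ c, P.Lim (κ / Λ) c :=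
    P.lim_of_rho_nonneg (div_ne_zero hκ0 hΛ0) (by rw [P.rho_div hκ0 hΛ0]; linarith)
  have hE1b : ∑ i, (μ i : ℂ) * lb i = -3 * κb := by
    have h1 := P.sum Finset.univ (f := fun i => (μ i : K) * (lam i / Λ))
      (a := fun i => (μ i : ℂ) * lb i) (fun i _ => P.mul (P.nat (μ i)) (hll i))
    have h2 : ∑ i, (μ i : K) * (lam i / Λ) = -3 * (κ / Λ) := by
      have : ∑ i, (μ i : K) * (lam i / Λ) = (∑ i, (μ i : K) * lam i) / Λ := by
        rw [Finset.sum_div]; refine Finset.sum_congr rfl fun i _ => ?_
        ring
      rw [this, E1]; ring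
    rw [h2] at h1
    exact P.unique h1 (P.mul hm3 hκb)
  have hΛi : P.Lim Λ⁻¹ 0 := P.inv_lim_zero hΛ0 (by linarith)
  have hΛi2 : P.Lim (Λ⁻¹ ^ 2) 0 := P.congr (P.sq hΛi) rfl (by ring)
  -- D z / Λ
  have hDz : ∀ s, P.Lim (D (z s) / Λ) (-(N : ℂ) * zb s) := by
    intro s
    by_cases h : z s = 0
    · have h0 : zb s = 0 := P.unique (hzb s) (by rw [h, zero_div]; exact P.zero)
      rw [h0, h, map_zero, zero_div, mul_zero]; exact P.zero
    · have h1 := P.mul (P.logD _ h) (hzb s)
      refine P.congr h1 (by field_simp) ?_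
      by_cases h0 : zb s = 0
      · rw [h0]; ring
      · have h2 := P.rho_eq_zero (hzb s) h0
        rw [P.rho_div h hΛ0] at h2
        have h3 : P.rho (z s) = -N := by linarith
        rw [h3]; push_cast; ring
  set τ : K := Θ * Λ with hτ
  have hτ0 : τ ≠ 0 := mul_ne_zero hΘ hΛ0
  have hDθ : ∀ i, D (θ i) / Λ = τ * (-Λ⁻¹ ^ 2 - (κ / Λ) * (lam i / Λ) - (θ i / Λ) ^ 2) := by
    intro i
    rw [hD, hθ, hτ]; field_simp
  have hDl : ∀ i, D (lam i) / Λ = τ * ((κ / Λ - lam i / Λ) * (θ i / Λ)) := by
    intro i
    rw [hD, hlam, hτ]; field_simp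
  have hRθ : ∀ i, P.Lim (-Λ⁻¹ ^ 2 - (κ / Λ) * (lam i / Λ) - (θ i / Λ) ^ 2)
      (-κb * lb i - θb i ^ 2) := fun i =>
    P.congr (P.sub (P.sub (P.neg hΛi2) (P.mul hκb (hll i))) (P.sq (hθl i))) (by ring) (by ring)
  have hRl : ∀ i, P.Lim ((κ / Λ - lam i / Λ) * (θ i / Λ)) ((κb - lb i) * θb i) := fun i =>
    P.mul (P.sub hκb (hll i)) (hθl i)
  -- a sum over a subset is a natural number
  have hnat : ∀ (w : ℂ), w ≠ 0 → (∀ i, lb i = 0 ∨ lb i = w) →
      ∃ M : ℕ, ∑ i, (μ i : ℂ) * lb i = M * w := by
    intro w hw h
    refine ⟨∑ i ∈ Finset.univ.filter (fun i => lb i = w), μ i, ?_⟩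
    push_cast
    rw [Finset.sum_mul, Finset.sum_filter]
    refine Finset.sum_congr rfl fun i _ => ?_
    rcases h i with h | h
    · have : lb i ≠ w := by rw [h]; exact hw.symm
      rw [if_neg this, h, mul_zero]
    · rw [if_pos h, h]
  rcases P.dich τ with ⟨c, hc⟩ | hc
  · -- τ finite
    have e1 : ∀ i, -(N : ℂ) * θb i = c * (-κb * lb i - θb i ^ 2) := fun i =>
      P.unique (hDz (Sum.inl i)) (P.congr (P.mul hc (hRθ i)) (hDθ i) rfl)
    have e2 : ∀ i, -(N : ℂ) * lb i = c * ((κb - lb i) * θb i) := fun i =>
      P.unique (hDz (Sum.inr i)) (P.congr (P.mul hc (hRl i)) (hDl i) rfl)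
    by_cases hc0 : c = 0
    · -- impossible
      have : ∀ s, zb s = 0 := by
        intro s
        rcases s with i | i
        · have := e1 i; rw [hc0, zero_mul] at this
          rcases mul_eq_zero.mp this with h | h
          · exact absurd (neg_eq_zero.mp h) hNc
          · exact h
        · have := e2 i; rw [hc0, zero_mul] at this
          rcases mul_eq_zero.mp this with h | h
          · exact absurd (neg_eq_zero.mp h) hNc
          · exact h
      rw [this s0] at hzb0
      exact zero_ne_one hzb0
    · have hτi : P.Lim τ⁻¹ c⁻¹ := P.inv hc hc0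
      -- rescaled quantities
      set a : ℂ := c / N with ha
      have ha0 : a ≠ 0 := div_ne_zero hc0 hNc
      have f1 : ∀ i, a * θb i = (a * κb) * (a * lb i) + (a * θb i) ^ 2 := by
        intro i
        have := e1 i
        rw [ha]; field_simp
        linear_combination -this
      have f2 : ∀ i, a * lb i = -((a * κb) - (a * lb i)) * (a * θb i) := by
        intro i
        have := e2 i
        rw [ha]; field_simp
        linear_combination -this
      by_cases hκb0 : κb = 0
      · -- κ = o(Λ): second order analysis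
        have hS : ∀ i, a * θb i = 0 ∧ lb i = 0 ∨ a * θb i = 1 := by
          intro i
          have h1 := f1 i; have h2 := f2 i
          rw [hκb0] at h1 h2
          have h3 : (a * θb i) * (a * θb i - 1) = 0 := by linear_combination -h1
          rcases mul_eq_zero.mp h3 with h | h
          · left
            refine ⟨h, ?_⟩
            rw [h] at h2
            have h4 : a * lb i = 0 := by linear_combination h2
            rcases mul_eq_zero.mp h4 with h5 | h5
            · exact absurd h5 ha0
            · exact h5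
          · right; linear_combination h
        obtain ⟨i1, hi1⟩ : ∃ i1, a * θb i1 = 1 := by
          rcases s0 with i | i
          · refine ⟨i, ?_⟩
            rcases hS i with ⟨h, _⟩ | h
            · exfalso
              have : θb i = 1 := hzb0
              rw [this, mul_one] at h
              exact ha0 h
            · exact h
          · refine ⟨i, ?_⟩
            rcases hS i with ⟨_, h⟩ | h
            · exfalso
              have : lb i = 1 := hzb0
              rw [this] at h
              exact one_ne_zero h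
            · exact h
        have hθ1b : θb i1 = a⁻¹ := by field_simp; linear_combination hi1
        have hθ1b0 : θb i1 ≠ 0 := by rw [hθ1b]; exact inv_ne_zero ha0
        have hθ1 : θ i1 ≠ 0 := by
          intro h
          have := hθl i1
          rw [h, zero_div] at this
          exact hθ1b0 (P.unique this P.zero)
        have hrθ1 : P.rho (θ i1) = -N := by
          have h2 := P.rho_eq_zero (hθl i1) hθ1b0
          rw [P.rho_div hθ1 hΛ0] at h2
          linarith
        have hΛθ : P.Lim (Λ / θ i1) a := by
          have := P.inv (hθl i1) hθ1b0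
          refine P.congr this (by field_simp) ?_
          rw [hθ1b, inv_inv]
        have hκN : -N < P.rho κ := by
          have h1 : P.Lim (κ / Λ) 0 := by rw [← hκb0]; exact hκb
          have := P.rho_pos _ (div_ne_zero hκ0 hΛ0) h1
          rw [P.rho_div hκ0 hΛ0] at this
          linarith
        refine second_order D δ P Θ hΘ hD μ m κ θ lam hθ hlam E1 E2 hκ0 i1
          (Finset.univ.filter fun i => a * θb i = 1) (fun i => a * lb i) N hNpos hθ1 hrθ1 ?_
          hrκ hκN ?_ ?_ ?_ ?_
        · refine P.congr (P.mul (hθl i1) hc) ?_ ?_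
          · rw [hτ]; field_simp
          · rw [hθ1b, ha]; field_simp
        · intro i hi
          have hi' : a * θb i = 1 := (Finset.mem_filter.mp hi).2
          refine P.congr (P.mul (hθl i) hΛθ) (by field_simp) ?_
          rw [← hi']; ring
        · intro i hi
          have hi' : a * θb i ≠ 1 := fun h => hi (Finset.mem_filter.mpr ⟨Finset.mem_univ _, h⟩)
          have hi2 : a * θb i = 0 := by
            rcases hS i with ⟨h, _⟩ | h
            · exact h
            · exact absurd h hi'
          refine P.congr (P.mul (hθl i) hΛθ) (by field_simp) ?_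
          rw [← hi2]; ring
        · intro i
          refine P.congr (P.mul (hll i) hΛθ) (by field_simp) ?_
          ring
        · intro i hi
          have hi' : a * θb i ≠ 1 := fun h => hi (Finset.mem_filter.mpr ⟨Finset.mem_univ _, h⟩)
          rcases hS i with ⟨_, h⟩ | h
          · simp [h]
          · exact absurd h hi'
      · -- κ comparable with Λ
        set k : ℂ := a * κb with hk
        have hk0 : k ≠ 0 := mul_ne_zero ha0 hκb0
        have hrκΛ : P.rho κ = -N := by
          have h2 := P.rho_eq_zero hκb hκb0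
          rw [P.rho_div hκ0 hΛ0] at h2
          linarith
        have hu : P.Lim (δ κ / (Λ * κ)) (-(N : ℂ) * c⁻¹) := by
          have h1 := P.mul (P.logD κ hκ0) hτi
          rw [hrκΛ] at h1
          refine P.congr h1 ?_ ?_
          · rw [hD, hτ]; field_simp
          · push_cast; ring
        have hu0 : (-(N : ℂ) * c⁻¹) ≠ 0 := mul_ne_zero (neg_ne_zero.mpr hNc) (inv_ne_zero hc0)
        have hδκ : δ κ ≠ 0 := by
          intro h
          rw [h, zero_div] at hu
          exact hu0 (P.unique hu P.zero)
        have hrδκ : P.rho (δ κ) = -2 * N := by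
          have h2 := P.rho_eq_zero hu hu0
          rw [P.rho_div hδκ (mul_ne_zero hΛ0 hκ0), P.rho_mul hΛ0 hκ0] at h2
          linarith
        have hv : P.Lim (δ (δ κ) / (Λ * δ κ)) (-2 * (N : ℂ) * c⁻¹) := by
          have h1 := P.mul (P.logD (δ κ) hδκ) hτi
          rw [hrδκ] at h1
          refine P.congr h1 ?_ ?_
          · rw [hD, hτ]; field_simp
          · push_cast; ring
        have hsθ : P.Lim (∑ i, (μ i : K) * (θ i / Λ)) (∑ i, (μ i : ℂ) * θb i) :=
          P.sum Finset.univ (fun i _ => P.mul (P.nat (μ i)) (hθl i))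
        have hsl : P.Lim (∑ i, (μ i : K) * (lam i / Λ) ^ 2) (∑ i, (μ i : ℂ) * lb i ^ 2) :=
          P.sum Finset.univ (fun i _ => P.mul (P.nat (μ i)) (P.sq (hll i)))
        have hE2b : (-2 * (N : ℂ) * c⁻¹) * (-(N : ℂ) * c⁻¹)
            + (-(N : ℂ) * c⁻¹) * (∑ i, (μ i : ℂ) * θb i)
            + (m * 0 - κb ^ 2 - ∑ i, (μ i : ℂ) * lb i ^ 2) = 0 := by
          have h1 := P.add (P.add (P.mul hv hu) (P.mul hu hsθ))
            (P.sub (P.sub (P.mul (P.const m) hΛi2) (P.sq hκb)) hsl)
          have h2 : (δ (δ κ) / (Λ * δ κ)) * (δ κ / (Λ * κ))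
              + (δ κ / (Λ * κ)) * (∑ i, (μ i : K) * (θ i / Λ))
              + (algebraMap ℂ K m * Λ⁻¹ ^ 2 - (κ / Λ) ^ 2 - ∑ i, (μ i : K) * (lam i / Λ) ^ 2) = 0 := by
            have hx' : ∑ i, (μ i : K) * (θ i / Λ) = (∑ i, (μ i : K) * θ i) / Λ := by
              rw [Finset.sum_div]; refine Finset.sum_congr rfl fun i _ => ?_
              ring
            have hz' : ∑ i, (μ i : K) * (lam i / Λ) ^ 2 = (∑ i, (μ i : K) * lam i ^ 2) / Λ ^ 2 := by
              rw [Finset.sum_div]; refine Finset.sum_congr rfl fun i _ => ?_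
              ring
            rw [hx', hz']
            have hE := E2
            field_simp
            linear_combination hE
          rw [h2] at h1
          exact (P.unique h1 P.zero)
        -- algebra
        have hsq : ∀ i, (a * lb i) ^ 2 = -(a * θb i) ^ 2 := by
          intro i
          have h1 := f1 i; have h2 := f2 i
          have h3 : k * ((a * lb i) ^ 2 + (a * θb i) ^ 2) = 0 := by
            rw [hk]; linear_combination (a * θb i) * h2 - (a * lb i) * h1
          rcases mul_eq_zero.mp h3 with h | h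
          · exact absurd h hk0
          · linear_combination h
        have hsumE : ∑ i, (μ i : ℂ) * (a * lb i) = -3 * k := by
          have : ∑ i, (μ i : ℂ) * (a * lb i) = a * ∑ i, (μ i : ℂ) * lb i := by
            rw [Finset.mul_sum]; refine Finset.sum_congr rfl fun i _ => ?_
            ring
          rw [this, hE1b, hk]; ring
        have hsum2 : ∑ i, (μ i : ℂ) * (a * θb i) + ∑ i, (μ i : ℂ) * (a * lb i) ^ 2 = -3 * k ^ 2 := by
          rw [← Finset.sum_add_distrib]
          have : ∀ i, (μ i : ℂ) * (a * θb i) + (μ i : ℂ) * (a * lb i) ^ 2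
              = k * ((μ i : ℂ) * (a * lb i)) := by
            intro i
            rw [hsq i]
            have h1 := f1 i
            linear_combination (μ i : ℂ) * h1
          rw [Finset.sum_congr rfl fun i _ => this i, ← Finset.mul_sum, hsumE]; ring
        have hk2 : k ^ 2 = -1 := by
          have h1 : (2 : ℂ) - ∑ i, (μ i : ℂ) * (a * θb i) - k ^ 2
              - ∑ i, (μ i : ℂ) * (a * lb i) ^ 2 = 0 := by
            have hx' : ∑ i, (μ i : ℂ) * (a * θb i) = a * ∑ i, (μ i : ℂ) * θb i := by
              rw [Finset.mul_sum]; refine Finset.sum_congr rfl fun i _ => ?_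
              ring
            have hz' : ∑ i, (μ i : ℂ) * (a * lb i) ^ 2 = a ^ 2 * ∑ i, (μ i : ℂ) * lb i ^ 2 := by
              rw [Finset.mul_sum]; refine Finset.sum_congr rfl fun i _ => ?_
              ring
            rw [hx', hz', hk, ha]
            have h3 := hE2b
            field_simp at h3 ⊢
            linear_combination h3
          linear_combination (1/2 : ℂ) * h1 + (1/2 : ℂ) * hsum2
        have hcase : ∀ i, lb i = 0 ∨ lb i = 2 * κb := by
          intro i
          have h1 := f1 i; have h2 := f2 i; have h3 := hsq i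
          set X := a * θb i
          set Y := a * lb i
          have h4 : X ^ 3 * (X - 2) = 0 := by
            have h5 : Y * (1 - X) = -k * X := by linear_combination h2
            have h6 : Y ^ 2 * (1 - X) ^ 2 = k ^ 2 * X ^ 2 := by
              linear_combination (Y * (1 - X) - k * X) * h5
            rw [h3, hk2] at h6
            linear_combination -h6
          have h5 : X = 0 ∨ X = 2 := by
            rcases mul_eq_zero.mp h4 with h | h
            · left; exact pow_eq_zero_iff (by norm_num) |>.mp h
            · right; linear_combination h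
          have h6 : Y * (Y - 2 * k) = 0 := by
            rcases h5 with h | h
            · have : Y ^ 2 = 0 := by rw [h3, h]; ring
              have : Y = 0 := pow_eq_zero_iff (by norm_num) |>.mp this
              rw [this]; ring
            · have h7 : Y * (1 - X) = -k * X := by linear_combination h2
              rw [h] at h7
              have : Y = 2 * k := by linear_combination -h7
              rw [this]; ring
          rcases mul_eq_zero.mp h6 with h | h
          · left
            rcases mul_eq_zero.mp h with h | h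
            · exact absurd h ha0
            · exact h
          · right
            have : a * (lb i - 2 * κb) = 0 := by
              have : Y = 2 * k := by linear_combination h
              rw [hk] at this
              linear_combination this
            rcases mul_eq_zero.mp this with h | h
            · exact absurd h ha0
            · linear_combination h
        obtain ⟨M, hM⟩ := hnat (2 * κb) (mul_ne_zero two_ne_zero hκb0) hcase
        rw [hE1b] at hM
        have h1 : ((2 * M + 3 : ℕ) : ℂ) * κb = 0 := by push_cast; linear_combination -hM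
        rcases mul_eq_zero.mp h1 with h | h
        · have : (2 * M + 3 : ℕ) = 0 := by exact_mod_cast h
          omega
        · exact hκb0 h
  · -- τ infinite
    have hD0 : ∀ s, P.Lim (D (z s) / Λ * τ⁻¹) 0 := fun s =>
      P.congr (P.mul (hDz s) hc) rfl (by ring)
    have e1 : ∀ i, -κb * lb i - θb i ^ 2 = 0 := fun i =>
      P.unique (hRθ i) (P.congr (hD0 (Sum.inl i)) (by
        show _ = D (θ i) / Λ * τ⁻¹
        rw [hDθ i]; field_simp) rfl)
    have e2 : ∀ i, (κb - lb i) * θb i = 0 := fun i =>
      P.unique (hRl i) (P.congr (hD0 (Sum.inr i)) (by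
        show _ = D (lam i) / Λ * τ⁻¹
        rw [hDl i]; field_simp) rfl)
    by_cases hκb0 : κb = 0
    · have hθ0 : ∀ i, θb i = 0 := by
        intro i
        have := e1 i
        rw [hκb0] at this
        have h : θb i ^ 2 = 0 := by linear_combination -this
        exact pow_eq_zero_iff (by norm_num) |>.mp h
      obtain ⟨j, hj⟩ : ∃ j, lb j = 1 := by
        rcases s0 with i | i
        · exfalso
          have h1 : θb i = 1 := hzb0
          rw [hθ0 i] at h1
          exact zero_ne_one h1
        · exact ⟨i, hzb0⟩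
      have hothers : ∀ i, i ≠ j → lb i = 0 := by
        intro i hij
        obtain ⟨c, hc1, hg⟩ := gram i j hij
        have h1 : P.Lim ((Λ⁻¹ ^ 2 + (θ i / Λ) * (θ j / Λ) + (lam i / Λ) * (lam j / Λ)) ^ 2)
            ((0 + θb i * θb j + lb i * lb j) ^ 2) :=
          P.sq (P.add (P.add hΛi2 (P.mul (hθl i) (hθl j))) (P.mul (hll i) (hll j)))
        have h2 : P.Lim (algebraMap ℂ K c * ((Λ⁻¹ ^ 2 + (θ i / Λ) ^ 2 + (lam i / Λ) ^ 2)
            * (Λ⁻¹ ^ 2 + (θ j / Λ) ^ 2 + (lam j / Λ) ^ 2)))
            (c * ((0 + θb i ^ 2 + lb i ^ 2) * (0 + θb j ^ 2 + lb j ^ 2))) :=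
          P.mul (P.const c) (P.mul (P.add (P.add hΛi2 (P.sq (hθl i))) (P.sq (hll i)))
            (P.add (P.add hΛi2 (P.sq (hθl j))) (P.sq (hll j))))
        have h3 : (Λ⁻¹ ^ 2 + (θ i / Λ) * (θ j / Λ) + (lam i / Λ) * (lam j / Λ)) ^ 2
            = algebraMap ℂ K c * ((Λ⁻¹ ^ 2 + (θ i / Λ) ^ 2 + (lam i / Λ) ^ 2)
            * (Λ⁻¹ ^ 2 + (θ j / Λ) ^ 2 + (lam j / Λ) ^ 2)) := by
          field_simp
          linear_combination hg
        rw [h3] at h1
        have h4 := P.unique h1 h2
        rw [hθ0 i, hθ0 j, hj] at h4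
        have h5 : (1 - c) * lb i ^ 2 = 0 := by linear_combination h4
        rcases mul_eq_zero.mp h5 with h | h
        · exact absurd (by linear_combination -h) hc1
        · exact pow_eq_zero_iff (by norm_num) |>.mp h
      have hsum : ∑ i, (μ i : ℂ) * lb i = μ j := by
        rw [Finset.sum_eq_single j]
        · rw [hj, mul_one]
        · intro i _ hij
          rw [hothers i hij, mul_zero]
        · intro h; exact absurd (Finset.mem_univ j) h
      rw [hE1b, hκb0] at hsum
      have h1 : (μ j : ℂ) = 0 := by rw [← hsum]; ring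
      have h2 : μ j = 0 := by exact_mod_cast h1
      have := hμ j
      omega
    · have hcase : ∀ i, lb i = 0 ∨ lb i = κb := by
        intro i
        have h1 := e1 i; have h2 := e2 i
        rcases mul_eq_zero.mp h2 with h | h
        · right; linear_combination -h
        · left
          rw [h] at h1
          have h3 : κb * lb i = 0 := by linear_combination -h1
          rcases mul_eq_zero.mp h3 with h | h
          · exact absurd h hκb0
          · exact h
      obtain ⟨M, hM⟩ := hnat κb hκb0 hcase
      rw [hE1b] at hM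
      have h1 : ((M + 3 : ℕ) : ℂ) * κb = 0 := by push_cast; linear_combination -hM
      rcases mul_eq_zero.mp h1 with h | h
      · have : (M + 3 : ℕ) = 0 := by exact_mod_cast h
        omega
      · exact hκb0 h

end BH
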