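import Mathlib

set_option autoImplicit false

namespace BH

/-- Module E: the case of a single pair (two principal curvatures). -/
theorem one_pair {K : Type*} [Field K] [CharZero K] (δ : K → K)
    (hadd : ∀ x y, δ (x + y) = δ x + δ y) (hmul : ∀ x y, δ (x * y) = x * δ y + y * δ x)
    (n : ℕ) (hn : 0 < n) (κ θ lam : K)
    (hθ : δ θ = -1 - κ * lam - θ ^ 2) (hlam : δ lam = (κ - lam) * θ)
    (E1 : (n : K) * lam = -3 * κ)
    (E2 : δ (δ κ) + δ κ * ((n : K) * θ) + κ * ((n : K) + 1 - κ ^ 2 - (n : K) * lam ^ 2) = 0) :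
    δ κ = 0 := by
  by_contra hκ
  have hn0 : (n : K) ≠ 0 := by exact_mod_cast hn.ne'
  have h0 : δ 0 = 0 := by
    have := hadd 0 0
    rw [add_zero] at this
    linear_combination -this
  have h1 : δ 1 = 0 := by
    have := hmul 1 1
    rw [mul_one] at this
    linear_combination -this
  have hnat : ∀ k : ℕ, δ (k : K) = 0 := by
    intro k
    induction k with
    | zero => simpa using h0
    | succ k ih => rw [Nat.cast_succ, hadd, ih, h1, add_zero]
  have hneg : ∀ x, δ (-x) = - δ x := by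
    intro x
    have := hadd x (-x)
    rw [add_neg_cancel, h0] at this
    linear_combination -this
  have hc : ∀ (k : ℕ) x, δ ((k : K) * x) = (k : K) * δ x := by
    intro k x; rw [hmul, hnat]; ring
  have h3 : δ (3 * κ) = 3 * δ κ := by
    have := hc 3 κ; simpa using this
  -- first derivative
  have D0 : (n : K) * δ lam = - (3 * δ κ) := by
    rw [← hc, E1, ← h3, ← hneg]; congr 1; ring
  have D1 : 3 * δ κ = - ((n : K) + 3) * (κ * θ) := by
    rw [hlam] at D0
    linear_combination D0 + θ * E1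
  have hκ0 : κ ≠ 0 := by
    intro h; apply hκ; rw [h, h0]
  have hθ0 : θ ≠ 0 := by
    intro h
    rw [h, mul_zero, mul_zero] at D1
    have : (3 : K) ≠ 0 := by norm_num
    exact hκ ((mul_eq_zero.mp D1).resolve_left this)
  have D2 : 3 * δ (δ κ) = - ((n : K) + 3) * (κ * δ θ + θ * δ κ) := by
    have e1 : δ (3 * δ κ) = 3 * δ (δ κ) := by
      have := hc 3 (δ κ); simpa using this
    have e2 : δ (- ((n : K) + 3) * (κ * θ)) = - ((n : K) + 3) * (κ * δ θ + θ * δ κ) := by
      have e3 : - ((n : K) + 3) * (κ * θ) = - (((n + 3 : ℕ) : K) * (κ * θ)) := by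
        push_cast; ring
      rw [e3, hneg, hc, hmul]; push_cast; ring
    rw [← e1, D1, e2]
  have nθ : (n : K) * δ θ = -(n : K) + 3 * κ ^ 2 - (n : K) * θ ^ 2 := by
    rw [hθ]; linear_combination (-κ) * E1
  have nlam : (n : K) ^ 2 * lam ^ 2 = 9 * κ ^ 2 := by
    have : (n : K) ^ 2 * lam ^ 2 = ((n : K) * lam) ^ 2 := by ring
    rw [this, E1]; ring
  -- the algebraic relation
  have F : (n : K) * ((n : K) + 3) * (3 - (n : K)) * θ ^ 2 + 3 * (n : K) * (2 * (n : K) + 3)
      - 9 * ((n : K) + 6) * κ ^ 2 = 0 := by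
    have h2κ : (2 : K) * κ ≠ 0 := mul_ne_zero (by norm_num) hκ0
    apply mul_left_cancel₀ h2κ
    rw [mul_zero]
    linear_combination (9 * (n : K)) * E2 - 3 * (n : K) * D2 + 3 * ((n : K) + 3) * κ * nθ
      + (n : K) * ((n : K) + 3) * θ * D1 - 3 * (n : K) ^ 2 * θ * D1 + 9 * κ * nlam
  -- derivative of the relation
  have hsub : ∀ x y, δ (x - y) = δ x - δ y := by
    intro x y; rw [sub_eq_add_neg, hadd, hneg]; ring
  have hint : ∀ (k : ℤ) x, δ ((k : K) * x) = (k : K) * δ x := by
    intro k x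
    obtain ⟨j, rfl | rfl⟩ := k.eq_nat_or_neg
    · push_cast; exact hc j x
    · push_cast; rw [neg_mul, hneg, hc]; ring
  have F' : (n : K) * ((n : K) + 3) * (3 - (n : K)) * (2 * θ * δ θ)
      - 9 * ((n : K) + 6) * (2 * κ * δ κ) = 0 := by
    have e : δ ((((n : ℤ) * ((n : ℤ) + 3) * (3 - (n : ℤ)) : ℤ) : K) * (θ * θ)
        + ((3 * n * (2 * n + 3) : ℕ) : K) - ((9 * (n + 6) : ℕ) : K) * (κ * κ)) = 0 := by
      rw [← h0]; congr 1
      push_cast
      linear_combination F
    rw [hsub, hadd, hint, hc, hnat, hmul, hmul] at e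
    push_cast at e
    linear_combination e
  -- final contradiction
  have G : 9 * (2 * (n : K) + 3) * κ ^ 2 + (n : K) ^ 2 * ((n : K) + 6) = 0 := by
    have h2θ : (2 : K) * θ ≠ 0 := mul_ne_zero (by norm_num) hθ0
    apply mul_left_cancel₀ h2θ
    rw [mul_zero]
    linear_combination F' - 2 * θ * ((n : K) + 3) * (3 - (n : K)) * nθ
      + 6 * ((n : K) + 6) * κ * D1 + 2 * θ * F
  have G' : 9 * (2 * (n : K) + 3) * (2 * κ * δ κ) = 0 := by
    have e : δ (((9 * (2 * n + 3) : ℕ) : K) * (κ * κ) + ((n ^ 2 * (n + 6) : ℕ) : K)) = 0 := by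
      rw [← h0]; congr 1
      push_cast
      linear_combination G
    rw [hadd, hc, hnat, hmul] at e
    push_cast at e
    linear_combination e
  have h9 : (9 * (2 * (n : K) + 3)) ≠ 0 := by
    have : ((9 * (2 * n + 3) : ℕ) : K) ≠ 0 := Nat.cast_ne_zero.mpr (by omega)
    push_cast at this; exact this
  have h4 := (mul_eq_zero.mp G').resolve_left h9
  exact hκ ((mul_eq_zero.mp h4).resolve_left (mul_ne_zero (by norm_num) hκ0))

end BH
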