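import Mathlib

set_option autoImplicit false

/-!
Power series expansion at a discrete place with residue field `ℂ`.
-/

namespace BH

open PowerSeries

namespace PX

open WithZero

/-- a discrete valuation on `K / ℂ` with uniformiser `t` and residue field `ℂ`. -/
structure Pl (K : Type*) [Field K] [Algebra ℂ K] where
  v : Valuation K (WithZero (Multiplicative ℤ))
  t : K
  hC : ∀ c : ℂ, v (algebraMap ℂ K c) ≤ 1
  ht : v t = WithZero.exp (-1 : ℤ)
  hres : ∀ u : K, v u ≤ 1 → ∃ c : ℂ, v (u - algebraMap ℂ K c) < 1

variable {K : Type*} [Field K] [Algebra ℂ K] (p : Pl K)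

theorem lt_one_iff {a : WithZero (Multiplicative ℤ)} : a < 1 ↔ a ≤ WithZero.exp (-1 : ℤ) := by
  rcases eq_or_ne a 0 with h | h
  · subst h
    simp
  · rw [← WithZero.exp_log h, ← WithZero.exp_zero, WithZero.exp_lt_exp, WithZero.exp_le_exp]
    omega

theorem t_ne : p.t ≠ 0 := by
  intro h
  have := p.ht
  rw [h, map_zero] at this
  exact WithZero.exp_ne_zero this.symm

theorem vt_lt : p.v p.t < 1 := by
  rw [lt_one_iff, p.ht]

theorem vC {c : ℂ} (hc : c ≠ 0) : p.v (algebraMap ℂ K c) = 1 := by
  refine le_antisymm (p.hC c) ?_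
  have h := p.hC c⁻¹
  rw [map_inv₀, map_inv₀] at h
  have h0 : algebraMap ℂ K c ≠ 0 := by simpa using hc
  have h4 : p.v (algebraMap ℂ K c) ≠ 0 := (Valuation.ne_zero_iff _).2 h0
  exact (inv_le_one₀ (zero_lt_iff.2 h4)).1 h

theorem C_zero_of_lt {c : ℂ} (h : p.v (algebraMap ℂ K c) < 1) : c = 0 := by
  by_contra hc
  rw [vC p hc] at h
  exact lt_irrefl _ h

theorem v_aeval {q : Polynomial ℂ} : p.v (Polynomial.aeval p.t q) ≤ 1 := by
  induction q using Polynomial.induction_on' with
  | add q r hq hr =>
    rw [map_add]
    exact Valuation.map_add_le _ hq hr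
  | monomial n a =>
    rw [Polynomial.aeval_monomial, map_mul, map_pow]
    exact mul_le_one' (p.hC a) (pow_le_one' (vt_lt p).le n)

/-- the residue -/
noncomputable def res (u : K) : ℂ := by
  classical
  exact if h : p.v u ≤ 1 then (p.hres u h).choose else 0

theorem v_sub_res {u : K} (h : p.v u ≤ 1) : p.v (u - algebraMap ℂ K (res p u)) < 1 := by
  unfold res
  rw [dif_pos h]
  exact (p.hres u h).choose_spec

/-- the successive remainders -/
noncomputable def rem (u : K) : ℕ → K
  | 0 => u
  | n + 1 => (rem u n - algebraMap ℂ K (res p (rem u n))) / p.t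

theorem v_rem {u : K} (h : p.v u ≤ 1) (n : ℕ) : p.v (rem p u n) ≤ 1 := by
  induction n with
  | zero => exact h
  | succ n ih =>
    have h1 := v_sub_res p ih
    rw [lt_one_iff] at h1
    change p.v ((rem p u n - algebraMap ℂ K (res p (rem p u n))) / p.t) ≤ 1
    rw [map_div₀, p.ht]
    exact (div_le_one₀ WithZero.exp_pos).2 h1

/-- `u` has the expansion `f` -/
def App (u : K) (f : PowerSeries ℂ) : Prop :=
  ∀ n, p.v (u - Polynomial.aeval p.t (trunc n f)) ≤ p.v p.t ^ n

theorem exists_app {u : K} (h : p.v u ≤ 1) : ∃ f, App p u f := by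
  refine ⟨PowerSeries.mk fun n => res p (rem p u n), ?_⟩
  have h1 : ∀ n, u = Polynomial.aeval p.t (trunc n (PowerSeries.mk fun n => res p (rem p u n))) +
      p.t ^ n * rem p u n := by
    intro n
    induction n with
    | zero => simp [rem]
    | succ n ih =>
      rw [trunc_succ, map_add, Polynomial.aeval_monomial, coeff_mk]
      have h2 : p.t ^ (n + 1) * rem p u (n + 1) =
          p.t ^ n * (rem p u n - algebraMap ℂ K (res p (rem p u n))) := by
        change p.t ^ (n + 1) * ((rem p u n - algebraMap ℂ K (res p (rem p u n))) / p.t) = _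
        have := t_ne p
        field_simp
        ring
      rw [h2]
      nth_rewrite 1 [ih]
      ring
  intro n
  have h2 : u - Polynomial.aeval p.t (trunc n (PowerSeries.mk fun n => res p (rem p u n))) =
      p.t ^ n * rem p u n := by
    nth_rewrite 1 [h1 n]
    ring
  rw [h2, map_mul, map_pow]
  exact mul_le_of_le_one_right' (v_rem p h n)

theorem app_unique {u : K} {f g : PowerSeries ℂ} (hf : App p u f) (hg : App p u g) : f = g := by
  ext n
  induction n using Nat.strong_induction_on with
  | _ n ih =>
    have h1 : trunc n f = trunc n g := by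
      ext m
      rw [coeff_trunc, coeff_trunc]
      split_ifs with hm
      · exact ih m hm
      · rfl
    have h2 := hf (n + 1)
    have h3 := hg (n + 1)
    rw [trunc_succ, map_add, Polynomial.aeval_monomial] at h2 h3
    have h4 : p.v (algebraMap ℂ K (coeff n f - coeff n g) * p.t ^ n) ≤ p.v p.t ^ (n + 1) := by
      have h5 : algebraMap ℂ K (coeff n f - coeff n g) * p.t ^ n =
          (u - (Polynomial.aeval p.t (trunc n g) + algebraMap ℂ K (coeff n g) * p.t ^ n)) -
          (u - (Polynomial.aeval p.t (trunc n f) + algebraMap ℂ K (coeff n f) * p.t ^ n)) := by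
        rw [h1, map_sub]
        ring
      rw [h5]
      exact Valuation.map_sub_le _ h3 h2
    rw [map_mul, map_pow, pow_succ', mul_comm (p.v p.t)] at h4
    have hne : p.v p.t ≠ 0 := (Valuation.ne_zero_iff _).2 (t_ne p)
    have h6 : p.v (algebraMap ℂ K (coeff n f - coeff n g)) ≤ p.v p.t := by
      rw [mul_comm] at h4
      exact le_of_mul_le_mul_left h4 (zero_lt_iff.2 (pow_ne_zero n hne))
    have h7 := C_zero_of_lt p (lt_of_le_of_lt h6 (vt_lt p))
    exact sub_eq_zero.1 h7

theorem app_add {u w : K} {f g : PowerSeries ℂ} (hf : App p u f) (hg : App p w g) :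
    App p (u + w) (f + g) := by
  intro n
  have h1 : u + w - Polynomial.aeval p.t (trunc n (f + g)) =
      (u - Polynomial.aeval p.t (trunc n f)) + (w - Polynomial.aeval p.t (trunc n g)) := by
    rw [map_add, map_add]
    ring
  rw [h1]
  exact Valuation.map_add_le _ (hf n) (hg n)

theorem app_mul {u w : K} (hu : p.v u ≤ 1) {f g : PowerSeries ℂ}
    (hf : App p u f) (hg : App p w g) : App p (u * w) (f * g) := by
  intro n
  set A := trunc n f with hA
  set B := trunc n g with hB
  have hdvd : Polynomial.X ^ n ∣ A * B - trunc n (f * g) := by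
    rw [Polynomial.X_pow_dvd_iff]
    intro d hd
    have h2 : (trunc n (f * g)).coeff d = (A * B).coeff d := by
      rw [← trunc_trunc_mul_trunc, coeff_trunc, if_pos hd, ← Polynomial.coe_mul,
        Polynomial.coeff_coe]
    rw [Polynomial.coeff_sub, h2, sub_self]
  obtain ⟨C, hC⟩ := hdvd
  have h1 : u * w - Polynomial.aeval p.t (trunc n (f * g)) =
      u * (w - Polynomial.aeval p.t B) + (u - Polynomial.aeval p.t A) * Polynomial.aeval p.t B +
      p.t ^ n * Polynomial.aeval p.t C := by
    have h2 : Polynomial.aeval p.t (trunc n (f * g)) =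
        Polynomial.aeval p.t A * Polynomial.aeval p.t B - p.t ^ n * Polynomial.aeval p.t C := by
      have h3 : trunc n (f * g) = A * B - Polynomial.X ^ n * C := by
        rw [← hC]; ring
      rw [h3, map_sub, map_mul, map_mul, map_pow, Polynomial.aeval_X]
    rw [h2]
    ring
  rw [h1]
  refine Valuation.map_add_le _ (Valuation.map_add_le _ ?_ ?_) ?_
  · rw [map_mul]
    exact mul_le_of_le_one_of_le hu (hg n)
  · rw [map_mul]
    exact mul_le_of_le_of_le_one (hf n) (v_aeval p)
  · rw [map_mul, map_pow]
    exact mul_le_of_le_one_right' (v_aeval p)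

theorem app_C (c : ℂ) : App p (algebraMap ℂ K c) (C c) := by
  intro n
  cases n with
  | zero => simpa using p.hC c
  | succ n =>
    rw [trunc_C]
    simp

theorem app_t : App p p.t X := by
  intro n
  match n with
  | 0 => simpa using (vt_lt p).le
  | 1 =>
    have : trunc 1 (X : PowerSeries ℂ) = 0 := by
      ext d
      rw [coeff_trunc]
      split_ifs with h
      · have : d = 0 := by omega
        subst this
        simp
      · simp
    rw [this]
    simp
  | n + 2 =>
    rw [trunc_X]
    simp

/-- the expansion ring hom on the valuation ring -/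
noncomputable def phi : p.v.valuationSubring →+* PowerSeries ℂ := by
  classical
  have hm : ∀ u : p.v.valuationSubring, p.v (u : K) ≤ 1 := fun u =>
    (Valuation.mem_valuationSubring_iff _ _).1 u.2
  exact
  { toFun := fun u => (exists_app p (hm u)).choose
    map_one' := by
      refine app_unique p (exists_app p (hm 1)).choose_spec ?_
      have := app_C p 1
      simpa using this
    map_mul' := fun u w => by
      refine app_unique p (exists_app p (hm (u * w))).choose_spec ?_
      exact app_mul p (hm u) (exists_app p (hm u)).choose_spec (exists_app p (hm w)).choose_spec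
    map_zero' := by
      refine app_unique p (exists_app p (hm 0)).choose_spec ?_
      have := app_C p 0
      simpa using this
    map_add' := fun u w => by
      refine app_unique p (exists_app p (hm (u + w))).choose_spec ?_
      exact app_add p (exists_app p (hm u)).choose_spec (exists_app p (hm w)).choose_spec }

theorem phi_app (u : p.v.valuationSubring) : App p (u : K) (phi p u) :=
  (exists_app p ((Valuation.mem_valuationSubring_iff _ _).1 u.2)).choose_spec

theorem phi_eq {u : p.v.valuationSubring} {f : PowerSeries ℂ} (h : App p (u : K) f) :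
    phi p u = f := app_unique p (phi_app p u) h

theorem phi_inj : Function.Injective (phi p) := by
  rw [injective_iff_map_eq_zero]
  intro u hu
  have h1 := phi_app p u
  rw [hu] at h1
  by_contra hne
  have hne' : (u : K) ≠ 0 := fun h => hne (by exact_mod_cast h)
  have hv : p.v (u : K) ≠ 0 := (Valuation.ne_zero_iff _).2 hne'
  have h2 : ∀ n : ℕ, p.v (u : K) ≤ p.v p.t ^ n := by
    intro n
    have := h1 n
    simpa using this
  set k := WithZero.log (p.v (u : K)) with hk
  have h3 := h2 (k.natAbs + 1)
  rw [← WithZero.exp_log hv, p.ht, ← WithZero.exp_nsmul, WithZero.exp_le_exp] at h3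
  simp only [smul_neg, nsmul_eq_mul, mul_one] at h3
  push_cast at h3
  have h4 : k ≤ -(|k| + 1) := by linarith [h3, hk]
  have h5 := neg_abs_le k
  linarith

/-- the expansion hom on `K` -/
noncomputable def psi : K →+* FractionRing (PowerSeries ℂ) :=
  IsFractionRing.lift (A := p.v.valuationSubring) (K := K)
    (g := (algebraMap (PowerSeries ℂ) (FractionRing (PowerSeries ℂ))).comp (phi p))
    ((IsFractionRing.injective _ _).comp (phi_inj p))

theorem psi_coe (u : p.v.valuationSubring) : psi p (u : K) =
    algebraMap (PowerSeries ℂ) (FractionRing (PowerSeries ℂ)) (phi p u) :=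
  IsFractionRing.lift_algebraMap (A := p.v.valuationSubring) (K := K) _ u

theorem psi_of_app {u : K} (hu : p.v u ≤ 1) {f : PowerSeries ℂ} (h : App p u f) :
    psi p u = algebraMap (PowerSeries ℂ) (FractionRing (PowerSeries ℂ)) f := by
  have h1 := psi_coe p ⟨u, (Valuation.mem_valuationSubring_iff _ _).2 hu⟩
  rw [phi_eq p (u := ⟨u, (Valuation.mem_valuationSubring_iff _ _).2 hu⟩) h] at h1
  exact h1

theorem psi_C (c : ℂ) : psi p (algebraMap ℂ K c) =
    algebraMap (PowerSeries ℂ) (FractionRing (PowerSeries ℂ)) (C c) :=
  psi_of_app p (p.hC c) (app_C p c)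

theorem psi_t : psi p p.t =
    algebraMap (PowerSeries ℂ) (FractionRing (PowerSeries ℂ)) X :=
  psi_of_app p (vt_lt p).le (app_t p)

end PX

end BH
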