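import Mathlib

set_option autoImplicit false

namespace BH

namespace PlaceVal

open Polynomial

variable {K : Type*} [Field K] [Algebra ℂ K]

/-- the residue step -/
lemma residue (v : Valuation K (WithZero (Multiplicative ℤ)))
    (hc : ∀ c : ℂ, v (algebraMap ℂ K c) ≤ 1) (x : K) (hx : Transcendental ℂ x) (hvx : v x < 1)
    (u : K) (hu : v u ≤ 1) (G : ℂ[X][X]) (hG : G ≠ 0)
    (hGu : G.eval₂ ((aeval x : ℂ[X] →ₐ[ℂ] K) : ℂ[X] →+* K) u = 0) :
    ∃ c : ℂ, v (u - algebraMap ℂ K c) < 1 := by
  obtain ⟨φ, hφ⟩ : ∃ φ : ℂ[X] →+* K, φ = ((aeval x : ℂ[X] →ₐ[ℂ] K) : ℂ[X] →+* K) := ⟨_, rfl⟩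
  have hφC : ∀ c : ℂ, φ (C c) = algebraMap ℂ K c := by
    intro c; rw [hφ]; simp
  have hφX : φ X = x := by rw [hφ]; simp
  rw [← hφ] at hGu
  have hx0 : x ≠ 0 := by
    rintro rfl
    exact hx (isAlgebraic_zero)
  -- remove the powers of `X`
  have hnu : ¬ IsUnit (C (X : ℂ[X]) : ℂ[X][X]) := by
    intro h
    have h1 := Polynomial.isUnit_C.1 h
    exact Polynomial.not_isUnit_X h1
  obtain ⟨G', hGG', hnd⟩ :=
    (FiniteMultiplicity.of_not_isUnit hnu hG).exists_eq_pow_mul_and_not_dvd
  have hG'u : G'.eval₂ φ u = 0 := by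
    rw [hGG', eval₂_mul, eval₂_pow, eval₂_C, hφX] at hGu
    rcases mul_eq_zero.1 hGu with h | h
    · exact absurd h (pow_ne_zero _ hx0)
    · exact h
  -- valuations of polynomials in x
  have hvφ : ∀ f : ℂ[X], v (φ f) ≤ 1 := by
    intro f
    induction f using Polynomial.induction_on' with
    | add p q hp hq =>
      rw [map_add]
      exact (v.map_add _ _).trans (max_le hp hq)
    | monomial n a =>
      rw [← C_mul_X_pow_eq_monomial, map_mul, map_pow, hφC, hφX, map_mul, map_pow]
      exact mul_le_one' (hc a) (pow_le_one₀ zero_le hvx.le)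
  have hvφ0 : ∀ f : ℂ[X], v (φ f - algebraMap ℂ K (f.coeff 0)) < 1 := by
    intro f
    have h0 : φ f = x * φ f.divX + algebraMap ℂ K (f.coeff 0) := by
      conv_lhs => rw [← Polynomial.X_mul_divX_add f]
      rw [map_add, map_mul, hφX, hφC]
    have h1 : φ f - algebraMap ℂ K (f.coeff 0) = x * φ f.divX := by
      rw [h0]; ring
    rw [h1, map_mul]
    calc v x * v (φ f.divX) ≤ v x * 1 := by gcongr; exact hvφ _
      _ = v x := mul_one _
      _ < 1 := hvx
  -- the reduction
  obtain ⟨g, hg⟩ : ∃ g : ℂ[X], g = G'.map (Polynomial.constantCoeff) := ⟨_, rfl⟩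
  have hg0 : g ≠ 0 := by
    intro h
    apply hnd
    rw [Polynomial.C_dvd_iff_dvd_coeff]
    intro i
    rw [Polynomial.X_dvd_iff]
    have h1 : g.coeff i = 0 := by rw [h]; simp
    rw [hg, coeff_map] at h1
    exact h1
  have hgu : v (g.eval₂ (algebraMap ℂ K) u) < 1 := by
    have h1 : g.eval₂ (algebraMap ℂ K) u
        = - ∑ i ∈ Finset.range (G'.natDegree + 1),
          (φ (G'.coeff i) - algebraMap ℂ K ((G'.coeff i).coeff 0)) * u ^ i := by
      have h2 : G'.eval₂ φ u = ∑ i ∈ Finset.range (G'.natDegree + 1), φ (G'.coeff i) * u ^ i :=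
        Polynomial.eval₂_eq_sum_range _ _
      have h3 : g.eval₂ (algebraMap ℂ K) u
          = ∑ i ∈ Finset.range (G'.natDegree + 1), algebraMap ℂ K ((G'.coeff i).coeff 0) * u ^ i := by
        rw [hg, Polynomial.eval₂_map, Polynomial.eval₂_eq_sum_range]
        rfl
      simp only [sub_mul]
      rw [Finset.sum_sub_distrib, ← h2, ← h3, hG'u]
      ring
    rw [h1, Valuation.map_neg]
    apply v.map_sum_lt one_ne_zero
    intro i _
    rw [map_mul, map_pow]
    calc _ ≤ v (φ (G'.coeff i) - algebraMap ℂ K ((G'.coeff i).coeff 0)) * 1 := by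
          gcongr
          exact pow_le_one₀ zero_le hu
      _ = _ := mul_one _
      _ < 1 := hvφ0 _
  -- split `g`
  by_contra hcon
  push Not at hcon
  have hone : ∀ c : ℂ, c ≠ 0 → v (algebraMap ℂ K c) = 1 := by
    intro c hc0
    have h1 : v (algebraMap ℂ K c) * v (algebraMap ℂ K c⁻¹) = 1 := by
      rw [← map_mul, ← map_mul, mul_inv_cancel₀ hc0, map_one, map_one]
    apply le_antisymm (hc c)
    calc (1 : WithZero (Multiplicative ℤ)) = v (algebraMap ℂ K c) * v (algebraMap ℂ K c⁻¹) :=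
          h1.symm
      _ ≤ v (algebraMap ℂ K c) * 1 := by gcongr; exact hc _
      _ = _ := mul_one _
  have hsplit := (IsAlgClosed.splits g).eq_prod_roots
  rw [hsplit, eval₂_mul, eval₂_C, map_mul, hone _ (leadingCoeff_ne_zero.2 hg0), one_mul] at hgu
  have h2 : ∀ s : Multiset ℂ, 1 ≤ v (((s.map (fun a => X - C a)).prod).eval₂ (algebraMap ℂ K) u) := by
    intro s
    induction s using Multiset.induction_on with
    | empty => simp
    | cons a s ih =>
      rw [Multiset.map_cons, Multiset.prod_cons, eval₂_mul, map_mul, eval₂_sub, eval₂_X, eval₂_C]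
      exact one_le_mul (hcon a) ih
  exact absurd hgu (not_lt.2 (h2 _))

open scoped IntermediateField.algebraAdjoinAdjoin

lemma exists_relation (x : K) (hx : Transcendental ℂ x)
    (hfin : FiniteDimensional (IntermediateField.adjoin ℂ {x}) K) (u : K) :
    ∃ G : ℂ[X][X], G ≠ 0 ∧ G.eval₂ ((aeval x : ℂ[X] →ₐ[ℂ] K) : ℂ[X] →+* K) u = 0 := by
  have h1 : IsAlgebraic (IntermediateField.adjoin ℂ {x}) u :=
    (IsIntegral.of_finite _ u).isAlgebraic
  have h2 : IsAlgebraic (Algebra.adjoin ℂ ({x} : Set K)) u :=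
    (IsFractionRing.isAlgebraic_iff (Algebra.adjoin ℂ ({x} : Set K))
      (IntermediateField.adjoin ℂ {x}) K).2 h1
  obtain ⟨P, hP, hPu⟩ := h2
  obtain ⟨e, he⟩ : ∃ e : ℂ[X] ≃ₐ[ℂ] Algebra.adjoin ℂ ({x} : Set K),
      e = Polynomial.algEquivOfTranscendental ℂ x hx := ⟨_, rfl⟩
  have heval : ∀ f : ℂ[X], ((e f : Algebra.adjoin ℂ ({x} : Set K)) : K) = aeval x f := by
    intro f
    rw [he, Polynomial.algEquivOfTranscendental_apply]
    simp
  refine ⟨P.map (e.symm : Algebra.adjoin ℂ ({x} : Set K) →+* ℂ[X]), ?_, ?_⟩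
  · intro h
    apply hP
    have hinj : Function.Injective (e.symm : Algebra.adjoin ℂ ({x} : Set K) →+* ℂ[X]) :=
      e.symm.injective
    apply Polynomial.map_injective _ hinj
    rw [Polynomial.map_zero]
    exact h
  · rw [Polynomial.eval₂_map]
    have h3 : ((aeval x : ℂ[X] →ₐ[ℂ] K) : ℂ[X] →+* K).comp
        (e.symm : Algebra.adjoin ℂ ({x} : Set K) →+* ℂ[X])
        = algebraMap (Algebra.adjoin ℂ ({x} : Set K)) K := by
      ext a
      have h4 := heval (e.symm a)
      rw [AlgEquiv.apply_symm_apply] at h4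
      exact h4.symm
    rw [h3]
    exact hPu

end PlaceVal

open scoped IntermediateField.algebraAdjoinAdjoin in
theorem exists_val {K : Type*} [Field K] [Algebra ℂ K] (x : K) (hx : Transcendental ℂ x)
    (hfin : FiniteDimensional (IntermediateField.adjoin ℂ {x}) K) :
    ∃ (v : Valuation K (WithZero (Multiplicative ℤ))) (t : K),
      (∀ c : ℂ, v (algebraMap ℂ K c) ≤ 1) ∧ v x < 1 ∧ v t = WithZero.exp (-1 : ℤ) ∧
      (∀ u : K, v u ≤ 1 → ∃ c : ℂ, v (u - algebraMap ℂ K c) < 1) := by
  let A := Algebra.adjoin ℂ ({x} : Set K)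
  let L := IntermediateField.adjoin ℂ ({x} : Set K)
  have hfin' : FiniteDimensional L K := hfin
  let e : Polynomial ℂ ≃ₐ[ℂ] A := Polynomial.algEquivOfTranscendental ℂ x hx
  have hPIR : IsPrincipalIdealRing A :=
    IsPrincipalIdealRing.of_surjective (e : Polynomial ℂ →+* A) e.surjective
  have hch : CharZero L := charZero_of_injective_algebraMap (algebraMap ℂ L).injective
  have hDed : IsDedekindDomain (integralClosure A K) := integralClosure.isDedekindDomain A L K
  have hfrac : IsFractionRing (integralClosure A K) K :=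
    integralClosure.isFractionRing_of_finite_extension L K
  obtain ⟨xA, hxA⟩ : ∃ xA : A, (xA : K) = x := ⟨⟨x, Algebra.self_mem_adjoin_singleton ℂ x⟩, rfl⟩
  have hexA : e Polynomial.X = xA := by
    apply Subtype.ext
    rw [hxA]
    have h := congrArg (fun z : A => (z : K)) (Polynomial.algEquivOfTranscendental_apply_X ℂ x hx)
    exact h
  have hx0 : x ≠ 0 := by
    rintro rfl
    exact hx (isAlgebraic_zero)
  have hnon : xA ∈ nonunits A := by
    intro h
    rw [← hexA] at h
    have h1 : IsUnit (Polynomial.X : Polynomial ℂ) := by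
      have h2 := h.map (e.symm : A →ₐ[ℂ] Polynomial ℂ)
      simpa using h2
    exact Polynomial.not_isUnit_X h1
  obtain ⟨M0, hM0, hxM0⟩ := exists_max_ideal_of_mem_nonunits hnon
  have hinjAB : Function.Injective (algebraMap A (integralClosure A K)) := by
    intro a b hab
    have h1 := congrArg (fun z : integralClosure A K => (z : K)) hab
    exact Subtype.ext h1
  obtain ⟨Q, hQmax, hQ⟩ := Ideal.exists_ideal_over_maximal_of_isIntegral (S := integralClosure A K)
    M0 (by
      intro a ha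
      rw [RingHom.mem_ker] at ha
      have h1 : a = 0 := hinjAB (by rw [ha, map_zero])
      rw [h1]; exact M0.zero_mem)
  have hxQ : algebraMap A (integralClosure A K) xA ∈ Q := by
    rw [← hQ] at hxM0
    exact hxM0
  have hxK : algebraMap (integralClosure A K) K (algebraMap A (integralClosure A K) xA) = x := by
    exact hxA
  have hQne : Q ≠ ⊥ := by
    rintro rfl
    rw [Ideal.mem_bot] at hxQ
    rw [hxQ, map_zero] at hxK
    exact hx0 hxK.symm
  obtain ⟨w, hw⟩ : ∃ w : IsDedekindDomain.HeightOneSpectrum (integralClosure A K),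
      w.asIdeal = Q := ⟨⟨Q, hQmax.isPrime, hQne⟩, rfl⟩
  obtain ⟨t, ht⟩ := w.valuation_exists_uniformizer K
  have hvc : ∀ c : ℂ, w.valuation K (algebraMap ℂ K c) ≤ 1 := by
    intro c
    have h1 : algebraMap ℂ K c = algebraMap (integralClosure A K) K
        (algebraMap A (integralClosure A K) (algebraMap ℂ A c)) := rfl
    rw [h1]
    exact w.valuation_le_one _
  have hvx : w.valuation K x < 1 := by
    have h := (w.valuation_lt_one_iff_mem (K := K)
      (algebraMap A (integralClosure A K) xA)).2 (by rw [hw]; exact hxQ)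
    have h2 : w.valuation K (algebraMap (integralClosure A K) K
      (algebraMap A (integralClosure A K) xA)) < 1 := h
    rwa [hxK] at h2
  refine ⟨w.valuation K, t, hvc, hvx, ht, fun u hu => ?_⟩
  obtain ⟨G, hG, hGu⟩ := PlaceVal.exists_relation x hx hfin u
  exact PlaceVal.residue (w.valuation K) hvc x hx hvx u hu G hG hGu

end BH
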