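import Mathlib
import Pool.Agent.Lib_helper71.BH.Place
import Pool.Agent.Lib_helper71.BH.Formal1
import Pool.Agent.Lib_helper71.BH.PlaceVal
import Pool.Agent.Lib_helper71.BH.PlaceExp

set_option autoImplicit false

namespace BH

open PX

/-- a derivation along a ring hom into a field which kills `ℂ` and `x` kills everything algebraic
over `ℂ(x)`. -/
theorem der_zero {K Q : Type*} [Field K] [Algebra ℂ K] [Field Q] (ψ : K →+* Q)
    (Δ : K → Q) (hadd : ∀ a b, Δ (a + b) = Δ a + Δ b)
    (hmul : ∀ a b, Δ (a * b) = ψ a * Δ b + ψ b * Δ a)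
    (hC : ∀ c : ℂ, Δ (algebraMap ℂ K c) = 0) (x : K) (hx : Δ x = 0)
    (halg : Algebra.IsAlgebraic (IntermediateField.adjoin ℂ {x}) K) (z : K) : Δ z = 0 := by
  have h1 : Δ 1 = 0 := by
    have := hC 1
    rwa [map_one] at this
  have h0 : Δ 0 = 0 := by
    have := hC 0
    rwa [map_zero] at this
  -- the base field
  have hL : ∀ a : IntermediateField.adjoin ℂ {x}, Δ (a : K) = 0 := by
    rintro ⟨a, ha⟩
    change Δ a = 0
    induction ha using IntermediateField.adjoin_induction with
    | mem y hy =>
      rw [Set.mem_singleton_iff] at hy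
      rw [hy, hx]
    | algebraMap c => exact hC c
    | add a b _ _ iha ihb => rw [hadd, iha, ihb, add_zero]
    | inv a _ iha =>
      by_cases hz : a = 0
      · rw [hz, inv_zero, h0]
      · have h2 := hmul a a⁻¹
        rw [mul_inv_cancel₀ hz, h1, iha, mul_zero, add_zero] at h2
        have h3 : ψ a ≠ 0 := (map_ne_zero ψ).2 hz
        exact (mul_eq_zero.1 h2.symm).resolve_left h3
    | mul a b _ _ iha ihb => rw [hmul, iha, ihb, mul_zero, mul_zero, add_zero]
  set L := IntermediateField.adjoin ℂ {x} with hLdef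
  -- powers
  have hpow : ∀ n : ℕ, Δ (z ^ n) = n * ψ z ^ (n - 1) * Δ z := by
    intro n
    induction n with
    | zero => simp [h1]
    | succ n ih =>
      rw [pow_succ, hmul, ih, map_pow]
      cases n with
      | zero => simp
      | succ k =>
        rw [show k + 1 - 1 = k from rfl, show k + 1 + 1 - 1 = k + 1 from rfl]
        push_cast
        ring
  have hpoly : ∀ q : Polynomial L, Δ (Polynomial.aeval z q) =
      ψ (Polynomial.aeval z (Polynomial.derivative q)) * Δ z := by
    intro q
    induction q using Polynomial.induction_on' with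
    | add q r hq hr =>
      rw [map_add, hadd, hq, hr, Polynomial.derivative_add, map_add, map_add]
      ring
    | monomial n a =>
      rw [Polynomial.aeval_monomial, hmul, hpow, Polynomial.derivative_monomial,
        Polynomial.aeval_monomial]
      have h2 : Δ (algebraMap L K a) = 0 := hL a
      rw [h2]
      simp only [map_mul, map_natCast, map_pow]
      ring
  have hint : IsIntegral L z := (halg.isAlgebraic z).isIntegral
  have h2 := hpoly (minpoly L z)
  rw [minpoly.aeval, h0] at h2
  have h3 : ψ (Polynomial.aeval z (Polynomial.derivative (minpoly L z))) ≠ 0 := by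
    rw [map_ne_zero]
    have hsep : (minpoly L z).Separable := (minpoly.irreducible hint).separable
    exact hsep.aeval_derivative_ne_zero (minpoly.aeval L z)
  exact (mul_eq_zero.1 h2.symm).resolve_left h3

/-- Module B: a finite extension of `ℂ(x)` has a place with `x = 0`, compatible with a multiple of
the given derivation. -/
theorem exists_placeCalc {K : Type*} [Field K] [Algebra ℂ K] (δ : Derivation ℂ K K) (x : K)
    (hx : δ x ≠ 0) (hfin : FiniteDimensional (IntermediateField.adjoin ℂ {x}) K) :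
    ∃ (Θ : K) (D : Derivation ℂ K K) (P : PlaceCalc K D),
      Θ ≠ 0 ∧ (∀ z, D z = Θ * δ z) ∧ P.Lim x 0 := by
  have halg : Algebra.IsAlgebraic (IntermediateField.adjoin ℂ {x}) K :=
    Algebra.IsAlgebraic.of_finite _ _
  have htr : Transcendental ℂ x := by
    intro halgx
    apply hx
    have hint : IsIntegral ℂ x := halgx.isIntegral
    obtain ⟨c, hc⟩ : ∃ c : ℂ, algebraMap ℂ K c = x := by
      have h1 := IsAlgClosed.degree_eq_one_of_irreducible ℂ (minpoly.irreducible hint)
      have h2 := minpoly.mem_range_of_degree_eq_one ℂ x h1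
      exact h2
    rw [← hc]
    exact δ.map_algebraMap c
  obtain ⟨v, t, hvC, hvx, hvt, hvres⟩ := exists_val x htr hfin
  let p : Pl K := ⟨v, t, hvC, hvt, hvres⟩
  set Q := FractionRing (PowerSeries ℂ) with hQ
  obtain ⟨DQ, hDQ⟩ := exists_derivation_fraction (A := PowerSeries ℂ) (K := Q)
    ((PowerSeries.X : PowerSeries ℂ) • PowerSeries.derivative ℂ)
  have hDQ' : ∀ f : PowerSeries ℂ, DQ (algebraMap (PowerSeries ℂ) Q f) =
      algebraMap (PowerSeries ℂ) Q (PowerSeries.X * PowerSeries.derivative ℂ f) := fun f => hDQ f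
  have hinjQ : Function.Injective (algebraMap (PowerSeries ℂ) Q) := IsFractionRing.injective _ _
  have hconst : ∀ c : ℂ, psi p (algebraMap ℂ K c) = algebraMap ℂ Q c := by
    intro c
    rw [psi_C, IsScalarTower.algebraMap_apply ℂ (PowerSeries ℂ) Q]
    rfl
  -- comparison of the derivations
  set ψ := psi p with hψ
  have hψδ : ψ (δ x) ≠ 0 := (map_ne_zero ψ).2 hx
  set γ : Q := DQ (ψ x) / ψ (δ x) with hγ
  have hcomp : ∀ z, DQ (ψ z) = γ * ψ (δ z) := by
    intro z
    have h1 := der_zero ψ (fun z => DQ (ψ z) - γ * ψ (δ z)) ?_ ?_ ?_ x ?_ halg z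
    · exact sub_eq_zero.1 h1
    · intro a b
      simp only [map_add]
      ring
    · intro a b
      simp only [map_mul, Derivation.leibniz, smul_eq_mul, map_add]
      ring
    · intro c
      simp only [hconst, Derivation.map_algebraMap, map_zero, mul_zero, sub_zero]
    · simp only [hγ]
      rw [div_mul_cancel₀ _ hψδ, sub_self]
  have ht1 : DQ (ψ t) = ψ t := by
    have h1 : ψ t = algebraMap (PowerSeries ℂ) Q PowerSeries.X := psi_t p
    rw [h1, hDQ']
    congr 1
    simp
  have htne : t ≠ 0 := t_ne p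
  have hψt : ψ t ≠ 0 := (map_ne_zero ψ).2 htne
  have hδt : δ t ≠ 0 := by
    intro h0
    have h1 := hcomp t
    rw [h0, map_zero, mul_zero, ht1] at h1
    exact hψt h1
  have hγt : γ = ψ (t / δ t) := by
    have h1 := hcomp t
    rw [ht1] at h1
    have h2 : ψ (δ t) ≠ 0 := (map_ne_zero ψ).2 hδt
    rw [map_div₀, h1]
    field_simp
  have hD : ∀ z, ψ (t / δ t * δ z) = DQ (ψ z) := by
    intro z
    rw [map_mul, hcomp, hγt]
  -- elements of the valuation ring
  have hO : ∀ u : K, v u ≤ 1 → ∃ f : PowerSeries ℂ, ψ u = algebraMap (PowerSeries ℂ) Q f ∧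
      (v u < 1 → PowerSeries.constantCoeff f = 0) := by
    intro u hu
    obtain ⟨f, hf⟩ := exists_app p hu
    refine ⟨f, psi_of_app p hu hf, ?_⟩
    intro hlt
    have h1 := hf 1
    rw [PowerSeries.trunc_one_left, Polynomial.aeval_C, pow_one] at h1
    have h2 : v (algebraMap ℂ K (PowerSeries.coeff 0 f)) < 1 := by
      have h3 : algebraMap ℂ K (PowerSeries.coeff 0 f) =
          u - (u - algebraMap ℂ K (PowerSeries.coeff 0 f)) := by ring
      rw [h3]
      exact Valuation.map_sub_lt _ hlt (lt_of_le_of_lt h1 (vt_lt p))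
    have h3 := C_zero_of_lt p h2
    rwa [PowerSeries.coeff_zero_eq_constantCoeff_apply] at h3
  have hexpv : ∀ z : K, z ≠ 0 → v z = WithZero.exp (WithZero.log (v z)) := fun z hz =>
    (WithZero.exp_log ((Valuation.ne_zero_iff _).2 hz)).symm
  refine ⟨t / δ t, (t / δ t) • δ,
    { Lim := fun z a => ∃ f : PowerSeries ℂ, ψ z = algebraMap (PowerSeries ℂ) Q f ∧
        PowerSeries.constantCoeff f = a
      rho := fun z => ((-(WithZero.log (v z)) : ℤ) : ℝ)
      const := fun c => ⟨PowerSeries.C c, psi_C p c, by simp⟩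
      add := ?_
      mul := ?_
      unique := ?_
      dich := ?_
      logD := ?_
      rho_pos := ?_ }, div_ne_zero htne hδt, fun z => rfl, ?_⟩
  · rintro a b α β ⟨f, hf, hf'⟩ ⟨g, hg, hg'⟩
    exact ⟨f + g, by rw [map_add, hf, hg, map_add], by rw [map_add, hf', hg']⟩
  · rintro a b α β ⟨f, hf, hf'⟩ ⟨g, hg, hg'⟩
    exact ⟨f * g, by rw [map_mul, hf, hg, map_mul], by rw [map_mul, hf', hg']⟩
  · rintro a α β ⟨f, hf, hf'⟩ ⟨g, hg, hg'⟩
    have : f = g := hinjQ (by rw [← hf, ← hg])
    rw [← hf', ← hg', this]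
  · intro z
    rcases le_or_gt (v z) 1 with h | h
    · left
      obtain ⟨f, hf, -⟩ := hO z h
      exact ⟨_, f, hf, rfl⟩
    · right
      have h1 : v z⁻¹ < 1 := by
        rw [map_inv₀]
        exact inv_lt_one_of_one_lt₀ h
      obtain ⟨f, hf, hf'⟩ := hO z⁻¹ h1.le
      exact ⟨f, hf, hf' h1⟩
  · intro z hz
    set n : ℤ := -(WithZero.log (v z)) with hn
    set u : K := z / t ^ n with hu
    have htn : t ^ n ≠ 0 := zpow_ne_zero _ htne
    have hzu : z = t ^ n * u := by
      rw [hu]; field_simp
    have hvu : v u = 1 := by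
      have h1 : v (t ^ n) = v z := by
        rw [map_zpow₀, hvt, ← WithZero.exp_zsmul]
        conv_rhs => rw [hexpv z hz]
        congr 1
        rw [hn]
        simp
      rw [hu, map_div₀, h1]
      exact div_self ((Valuation.ne_zero_iff _).2 hz)
    obtain ⟨f, hf, -⟩ := hO u hvu.le
    obtain ⟨g, hg, -⟩ := hO u⁻¹ (by rw [map_inv₀, hvu, inv_one])
    have hune : u ≠ 0 := by
      intro h0
      rw [h0, map_zero] at hvu
      exact zero_ne_one hvu
    have hfg : f * g = 1 := by
      apply hinjQ
      rw [map_mul, ← hf, ← hg, ← map_mul, mul_inv_cancel₀ hune, map_one, map_one]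
    refine ⟨PowerSeries.C ((n : ℤ) : ℂ) + PowerSeries.X * PowerSeries.derivative ℂ f * g, ?_, ?_⟩
    · change ψ ((t / δ t * δ z) / z) = _
      rw [map_div₀, hD]
      have hψz : ψ z ≠ 0 := (map_ne_zero ψ).2 hz
      rw [div_eq_iff hψz]
      have h1 : DQ (ψ z) = (n : Q) * ψ z + ψ t ^ n * algebraMap (PowerSeries ℂ) Q
          (PowerSeries.X * PowerSeries.derivative ℂ f) := by
        have h2 : ψ z = ψ t ^ n * ψ u := by
          conv_lhs => rw [hzu]
          rw [map_mul, map_zpow₀]
        rw [h2, Derivation.leibniz, hf, hDQ', Derivation.leibniz_zpow, ht1]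
        simp only [smul_eq_mul, zsmul_eq_mul]
        have h3 : ψ t ^ (n - 1) * ψ t = ψ t ^ n := by
          rw [← zpow_add_one₀ hψt, sub_add_cancel]
        linear_combination (algebraMap (PowerSeries ℂ) Q f * (n : Q)) * h3
      rw [h1, map_add, add_mul]
      congr 1
      · congr 1
        have : ((n : ℤ) : Q) = algebraMap (PowerSeries ℂ) Q (PowerSeries.C ((n : ℤ) : ℂ)) := by
          rw [map_intCast, map_intCast]
        exact this
      · have h2 : ψ z = ψ t ^ n * algebraMap (PowerSeries ℂ) Q f := by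
          conv_lhs => rw [hzu]
          rw [map_mul, map_zpow₀, hf]
        rw [h2]
        have h3 : algebraMap (PowerSeries ℂ) Q f * algebraMap (PowerSeries ℂ) Q g = 1 := by
          rw [← map_mul, hfg, map_one]
        simp only [map_mul]
        linear_combination (-(algebraMap (PowerSeries ℂ) Q PowerSeries.X *
          algebraMap (PowerSeries ℂ) Q (PowerSeries.derivative ℂ f) * ψ t ^ n)) * h3
    · simp only [map_add, map_mul, PowerSeries.constantCoeff_X, zero_mul, add_zero,
        PowerSeries.constantCoeff_C]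
      push_cast
      rfl
  · rintro z hz ⟨f, hf, hf'⟩
    by_contra hneg
    push Not at hneg
    have h1 : v z⁻¹ ≤ 1 := by
      rw [map_inv₀]
      have h2 : 1 ≤ v z := by
        rw [hexpv z hz, ← WithZero.exp_zero, WithZero.exp_le_exp]
        have h3 : (-(WithZero.log (v z)) : ℤ) ≤ 0 := by exact_mod_cast hneg
        linarith
      exact inv_le_one_of_one_le₀ h2
    obtain ⟨g, hg, -⟩ := hO z⁻¹ h1
    have hfg : f * g = 1 := by
      apply hinjQ
      rw [map_mul, ← hf, ← hg, ← map_mul, mul_inv_cancel₀ hz, map_one, map_one]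
    have h2 := congrArg PowerSeries.constantCoeff hfg
    rw [map_mul, hf', zero_mul, map_one] at h2
    exact zero_ne_one h2
  · obtain ⟨f, hf, hf'⟩ := hO x hvx.le
    exact ⟨f, hf, hf' hvx⟩

end BH
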