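import Mathlib
import Pool.Agent.Lib_helper71.BH.Formal1
import Pool.Agent.Lib_helper71.BH.FieldExt
import Pool.Agent.Lib_helper71.BH.OnePair
import Pool.Agent.Lib_helper71.BH.AlgDep
import Pool.Agent.Lib_helper71.BH.PlaceExists
import Pool.Agent.Lib_helper71.BH.Local

set_option autoImplicit false

namespace BH

open PowerSeries

namespace T1

/-- the frame identities in a ring with derivation -/
lemma frame_ring {A : Type*} [CommRing A] [Algebra ℂ A] (d : Derivation ℂ A A)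
    (J κ p q Ψ Ψi b bb c B ν νt θ lam X Y : A) (hJ : J * J = -1)
    (dJ : d J = 0) (db : d b = 0) (dbb : d bb = 0) (dc : d c = 0) (d2 : d 2 = 0)
    (hΨ : Ψ * Ψi = 1) (hp : 2 * d p = (1 + p * q) * Ψ) (hq : 2 * d q = (1 + p * q) * Ψi)
    (hΨ' : 2 * d Ψ = Ψ * (2 * J * κ + (q * Ψ - p * Ψi)))
    (hB : B = c * (p * q - 1) + b * p + bb * q)
    (hν : ν = b + 2 * c * q - bb * q ^ 2)
    (hνt : νt = bb + 2 * c * p - b * p ^ 2)
    (hθ : d θ = -1 - κ * lam - θ ^ 2) (hlam : d lam = (κ - lam) * θ)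
    (hX : X = 2 * B * θ - (ν * Ψ + νt * Ψi))
    (hY : Y = 2 * B * lam + J * (ν * Ψ - νt * Ψi)) :
    2 * d X = (q * Ψ + p * Ψi) * X - 2 * κ * Y - 2 * θ * X ∧
    2 * d Y = (q * Ψ + p * Ψi) * Y + 2 * (κ - lam) * X := by
  have hΨi' : 2 * d Ψi = -Ψi * (2 * J * κ + (q * Ψ - p * Ψi)) := by
    have h1 : d (Ψ * Ψi) = 0 := by rw [hΨ, Derivation.map_one_eq_zero]
    rw [Derivation.leibniz, smul_eq_mul, smul_eq_mul] at h1
    linear_combination (-2 * d Ψi) * hΨ + 2 * Ψi * h1 - Ψi * Ψi * hΨ'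
      - Ψi * (2 * J * κ + (q * Ψ - p * Ψi)) * hΨ
  have dB : 2 * d B = (q * Ψ + p * Ψi) * B + ν * Ψ + νt * Ψi := by
    rw [hB, hν, hνt]
    simp only [map_add, map_sub, Derivation.leibniz, smul_eq_mul, db, dbb, dc,
      Derivation.map_one_eq_zero]
    linear_combination (c * q + b) * hp + (c * p + bb) * hq
  have dU : 2 * d (ν * Ψ) = 2 * (c - bb * q) * (1 + p * q)
      + ν * Ψ * (2 * J * κ + (q * Ψ - p * Ψi)) := by
    have h1 : d ν = (2 * c - 2 * bb * q) * d q := by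
      rw [hν]
      simp only [map_add, map_sub, Derivation.leibniz, smul_eq_mul, db, dbb, dc, pow_two, d2]
      ring
    rw [Derivation.leibniz, smul_eq_mul, smul_eq_mul, h1]
    linear_combination ν * hΨ' + Ψ * (2 * c - 2 * bb * q) * hq
      + (2 * c - 2 * bb * q) * (1 + p * q) * hΨ
  have dV : 2 * d (νt * Ψi) = 2 * (c - b * p) * (1 + p * q)
      - νt * Ψi * (2 * J * κ + (q * Ψ - p * Ψi)) := by
    have h1 : d νt = (2 * c - 2 * b * p) * d p := by
      rw [hνt]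
      simp only [map_add, map_sub, Derivation.leibniz, smul_eq_mul, db, dbb, dc, pow_two, d2]
      ring
    rw [Derivation.leibniz, smul_eq_mul, smul_eq_mul, h1]
    linear_combination νt * hΨi' + Ψi * (2 * c - 2 * b * p) * hp
      + (2 * c - 2 * b * p) * (1 + p * q) * hΨ
  have key1 : 2 * B + (2 * c - bb * q - b * p) * (1 + p * q) = q * Ψ * (νt * Ψi)
      + p * Ψi * (ν * Ψ) := by
    rw [hB, hν, hνt]
    linear_combination -(q * (bb + 2 * c * p - b * p ^ 2) + p * (b + 2 * c * q - bb * q ^ 2)) * hΨ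
  have key2 : (b * p - bb * q) * (1 + p * q) = p * Ψi * (ν * Ψ) - q * Ψ * (νt * Ψi) := by
    rw [hν, hνt]
    linear_combination (q * (bb + 2 * c * p - b * p ^ 2) - p * (b + 2 * c * q - bb * q ^ 2)) * hΨ
  generalize ν * Ψ = U at *
  generalize νt * Ψi = V at *
  constructor
  · rw [hX, hY]
    simp only [map_add, map_sub, Derivation.leibniz, smul_eq_mul, hθ, d2]
    linear_combination 2 * θ * dB - dU - dV - 2 * key1
  · rw [hX, hY]
    simp only [map_add, map_sub, Derivation.leibniz, smul_eq_mul, hlam, d2, dJ]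
    linear_combination 2 * lam * dB + J * dU - J * dV + 2 * J * key2
      + 2 * κ * (U + V) * hJ

lemma dC (a : ℂ) : d⁄dX ℂ (C a) = 0 := (d⁄dX ℂ).map_algebraMap a

lemma d2 : d⁄dX ℂ (2 : PowerSeries ℂ) = 0 := by
  have h : (2 : PowerSeries ℂ) = C 2 := (map_ofNat C 2).symm
  rw [h]; exact dC 2

lemma half_eq {x y : PowerSeries ℂ} (h : 2 * x = y) : x = C (1 / 2) * y := by
  rw [← h, ← mul_assoc]
  have h1 : (C (1 / 2) * 2 : PowerSeries ℂ) = 1 := by
    have h : (2 : PowerSeries ℂ) = C 2 := (map_ofNat C 2).symm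
    rw [h, ← map_mul]
    norm_num
  rw [h1, one_mul]

/-- the frame formulas for `θ`, `lam` -/
lemma frame_formula (κ p q Ψ Ψi θ lam : PowerSeries ℂ) (t l : ℝ) (hΨ : Ψ * Ψi = 1)
    (hp : 2 * d⁄dX ℂ p = (1 + p * q) * Ψ) (hq : 2 * d⁄dX ℂ q = (1 + p * q) * Ψi)
    (hΨ' : 2 * d⁄dX ℂ Ψ = Ψ * (2 * C Complex.I * κ + (q * Ψ - p * Ψi)))
    (p0 : constantCoeff p = 1) (q0 : constantCoeff q = 1) (Ψ0 : constantCoeff Ψ = Complex.I)
    (ht : constantCoeff θ = (t : ℂ)) (hl : constantCoeff lam = (l : ℂ))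
    (hθ : d⁄dX ℂ θ = -1 - κ * lam - θ ^ 2) (hlam : d⁄dX ℂ lam = (κ - lam) * θ)
    (B ν νt : PowerSeries ℂ)
    (hB : B = C (l : ℂ) * (p * q - 1) + C (1 - Complex.I * t) * p + C (1 + Complex.I * t) * q)
    (hν : ν = C (1 - Complex.I * t) + 2 * C (l : ℂ) * q - C (1 + Complex.I * t) * q ^ 2)
    (hνt : νt = C (1 + Complex.I * t) + 2 * C (l : ℂ) * p - C (1 - Complex.I * t) * p ^ 2) :
    2 * B * θ = ν * Ψ + νt * Ψi ∧ 2 * B * lam = -C Complex.I * (ν * Ψ - νt * Ψi) := by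
  have Ψi0 : constantCoeff Ψi = -Complex.I := by
    have h1 : constantCoeff (Ψ * Ψi) = 1 := by rw [hΨ, map_one]
    rw [map_mul, Ψ0] at h1
    have h2 : Complex.I * (Complex.I * constantCoeff Ψi) = Complex.I * 1 := by rw [h1]
    rw [← mul_assoc, Complex.I_mul_I] at h2
    linear_combination -h2
  have hJ : (C Complex.I : PowerSeries ℂ) * C Complex.I = -1 := by
    rw [← map_mul, Complex.I_mul_I, map_neg, map_one]
  obtain ⟨X, hX⟩ : ∃ X, X = 2 * B * θ - (ν * Ψ + νt * Ψi) := ⟨_, rfl⟩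
  obtain ⟨Y, hY⟩ : ∃ Y, Y = 2 * B * lam + C Complex.I * (ν * Ψ - νt * Ψi) := ⟨_, rfl⟩
  obtain ⟨h1, h2⟩ := frame_ring (d⁄dX ℂ) (C Complex.I) κ p q Ψ Ψi (C (1 - Complex.I * t))
    (C (1 + Complex.I * t)) (C (l : ℂ)) B ν νt θ lam X Y hJ (dC _) (dC _) (dC _) (dC _) d2 hΨ hp hq
    hΨ' hB hν hνt hθ hlam hX hY
  have h1' := half_eq h1
  have h2' := half_eq h2
  have c2 : (C (1 / 2) * 2 : PowerSeries ℂ) = 1 := by
    have h : (2 : PowerSeries ℂ) = C 2 := (map_ofNat C 2).symm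
    rw [h, ← map_mul]
    norm_num
  have h3 := ps_zero_of_linear (C (1 / 2) * (q * Ψ + p * Ψi) - θ) (-κ) (κ - lam)
    (C (1 / 2) * (q * Ψ + p * Ψi)) X Y
    (by rw [h1']; linear_combination -(κ * Y + θ * X) * c2)
    (by rw [h2']; linear_combination ((κ - lam) * X) * c2)
    (by
      rw [hX, hB, hν, hνt]
      simp only [map_add, map_sub, map_mul, map_pow, map_one, map_ofNat, p0, q0, Ψ0, Ψi0, ht,
        constantCoeff_C]
      linear_combination (4 * (t : ℂ)) * Complex.I_mul_I)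
    (by
      rw [hY, hB, hν, hνt]
      simp only [map_add, map_sub, map_mul, map_pow, map_one, map_ofNat, p0, q0, Ψ0, Ψi0, hl,
        constantCoeff_C]
      linear_combination (4 * (l : ℂ)) * Complex.I_mul_I)
  rw [hX, hY] at h3
  exact ⟨by linear_combination h3.1, by linear_combination h3.2⟩

/-- uniqueness: equal initial values give equal pairs -/
lemma pair_unique (κ θ lam θ' lam' : PowerSeries ℂ)
    (hθ : d⁄dX ℂ θ = -1 - κ * lam - θ ^ 2) (hlam : d⁄dX ℂ lam = (κ - lam) * θ)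
    (hθ' : d⁄dX ℂ θ' = -1 - κ * lam' - θ' ^ 2) (hlam' : d⁄dX ℂ lam' = (κ - lam') * θ')
    (h0 : constantCoeff θ = constantCoeff θ') (h1 : constantCoeff lam = constantCoeff lam') :
    θ = θ' ∧ lam = lam' := by
  have h := ps_zero_of_linear (-(θ + θ')) (-κ) (κ - lam) (-θ') (θ - θ') (lam - lam')
    (by rw [map_sub, hθ, hθ']; ring) (by rw [map_sub, hlam, hlam']; ring)
    (by rw [map_sub, h0, sub_self]) (by rw [map_sub, h1, sub_self])
  exact ⟨sub_eq_zero.1 h.1, sub_eq_zero.1 h.2⟩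

/-- the Gram relation -/
lemma gram_rel (κ θ lam θ' lam' : PowerSeries ℂ) (t l t' l' : ℝ)
    (ht : constantCoeff θ = (t : ℂ)) (hl : constantCoeff lam = (l : ℂ))
    (ht' : constantCoeff θ' = (t' : ℂ)) (hl' : constantCoeff lam' = (l' : ℂ))
    (hθ : d⁄dX ℂ θ = -1 - κ * lam - θ ^ 2) (hlam : d⁄dX ℂ lam = (κ - lam) * θ)
    (hθ' : d⁄dX ℂ θ' = -1 - κ * lam' - θ' ^ 2) (hlam' : d⁄dX ℂ lam' = (κ - lam') * θ')
    (hne : ¬ (t = t' ∧ l = l')) :
    ∃ c : ℂ, c ≠ 1 ∧ (1 + θ * θ' + lam * lam') ^ 2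
      = C c * ((1 + θ ^ 2 + lam ^ 2) * (1 + θ' ^ 2 + lam' ^ 2)) := by
  have hpos : 0 < (1 + t ^ 2 + l ^ 2) * (1 + t' ^ 2 + l' ^ 2) := by positivity
  have hlt : (1 + t * t' + l * l') ^ 2 < (1 + t ^ 2 + l ^ 2) * (1 + t' ^ 2 + l' ^ 2) := by
    have h1 : (1 + t ^ 2 + l ^ 2) * (1 + t' ^ 2 + l' ^ 2) - (1 + t * t' + l * l') ^ 2
      = (t - t') ^ 2 + (l - l') ^ 2 + (t * l' - t' * l) ^ 2 := by ring
    have h2 : 0 < (t - t') ^ 2 + (l - l') ^ 2 + (t * l' - t' * l) ^ 2 := by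
      by_cases h : t = t'
      · have h' : l - l' ≠ 0 := fun h'' => hne ⟨h, by linarith⟩
        have : 0 < (l - l') ^ 2 := by positivity
        nlinarith [sq_nonneg (t - t'), sq_nonneg (t * l' - t' * l)]
      · have h' : t - t' ≠ 0 := sub_ne_zero.2 h
        have : 0 < (t - t') ^ 2 := by positivity
        nlinarith [sq_nonneg (l - l'), sq_nonneg (t * l' - t' * l)]
    linarith
  obtain ⟨c, hc⟩ : ∃ c : ℝ, c = (1 + t * t' + l * l') ^ 2 /
      ((1 + t ^ 2 + l ^ 2) * (1 + t' ^ 2 + l' ^ 2)) := ⟨_, rfl⟩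
  have hc' : c * ((1 + t ^ 2 + l ^ 2) * (1 + t' ^ 2 + l' ^ 2)) = (1 + t * t' + l * l') ^ 2 := by
    rw [hc, div_mul_cancel₀ _ hpos.ne']
  refine ⟨(c : ℂ), ?_, ?_⟩
  · intro h1
    have h2 : c = 1 := by exact_mod_cast h1
    rw [h2, one_mul] at hc'
    linarith
  · have h := ps_zero_of_linear (-2 * (θ + θ')) 0 0 0
      ((1 + θ * θ' + lam * lam') ^ 2
        - C (c : ℂ) * ((1 + θ ^ 2 + lam ^ 2) * (1 + θ' ^ 2 + lam' ^ 2))) 0
      (by
        simp only [map_add, map_sub, Derivation.leibniz, smul_eq_mul, pow_two, dC,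
          Derivation.map_one_eq_zero, hθ, hlam, hθ', hlam']
        ring)
      (by simp) 
      (by
        simp only [map_add, map_sub, map_mul, map_pow, map_one, ht, hl, ht', hl', constantCoeff_C]
        have h3 : ((c * ((1 + t ^ 2 + l ^ 2) * (1 + t' ^ 2 + l' ^ 2)) : ℝ) : ℂ)
          = (((1 + t * t' + l * l') ^ 2 : ℝ) : ℂ) := by rw [hc']
        push_cast at h3
        linear_combination -h3)
      (by simp)
    exact sub_eq_zero.1 h.1

section field

variable {K : Type*} [Field K] [Algebra ℂ K] (δ : Derivation ℂ K K)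
    {ι : Type*} [Fintype ι] (μ : ι → ℕ) (κ : K) (θ lam : ι → K)
    (hθ' : ∀ i, δ (θ i) = -1 - κ * lam i - θ i ^ 2)
    (hlam' : ∀ i, δ (lam i) = (κ - lam i) * θ i)
    (E1 : ∑ i, (μ i : K) * lam i = -3 * κ)

include hθ' hlam' E1

omit hθ' in
lemma star_one : 3 * δ κ = (∑ i, (μ i : K) * θ i * lam i) - κ * ∑ i, (μ i : K) * θ i := by
  have d3 : δ (3 : K) = 0 := by
    have h := δ.map_natCast 3
    exact_mod_cast h
  have h1 : δ (∑ i, (μ i : K) * lam i)
      = κ * (∑ i, (μ i : K) * θ i) - ∑ i, (μ i : K) * θ i * lam i := by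
    rw [map_sum, Finset.mul_sum, ← Finset.sum_sub_distrib]
    apply Finset.sum_congr rfl
    intro i _
    rw [Derivation.leibniz, smul_eq_mul, smul_eq_mul, hlam', Derivation.map_natCast]
    ring
  rw [E1, neg_mul, map_neg, Derivation.leibniz, smul_eq_mul, smul_eq_mul, d3] at h1
  linear_combination -h1

lemma star_field
    (E2 : δ (δ κ) + δ κ * ∑ i, (μ i : K) * θ i
        + κ * ((∑ i, (μ i : K)) + 1 - κ ^ 2 - ∑ i, (μ i : K) * lam i ^ 2) = 0) :
    (2 * (∑ i, (μ i : K)) + 3) * κ - 3 * κ ^ 3 - 2 * κ * (∑ i, (μ i : K) * lam i ^ 2)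
        + κ * (∑ i, (μ i : K) * θ i ^ 2) - (∑ i, (μ i : K) * θ i ^ 2 * lam i)
        + ((∑ i, (μ i : K) * θ i * lam i) - κ * (∑ i, (μ i : K) * θ i)) / 3
          * (∑ i, (μ i : K) * θ i) = 0 := by
  have : CharZero K := charZero_of_injective_algebraMap (algebraMap ℂ K).injective
  have d3 : δ (3 : K) = 0 := by
    have h := δ.map_natCast 3
    exact_mod_cast h
  have h0 := star_one δ μ κ θ lam hlam' E1
  have h10 : δ (∑ i, (μ i : K) * θ i) = -(∑ i, (μ i : K)) - κ * (∑ i, (μ i : K) * lam i)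
      - ∑ i, (μ i : K) * θ i ^ 2 := by
    rw [map_sum, Finset.mul_sum, ← Finset.sum_neg_distrib, ← Finset.sum_sub_distrib,
      ← Finset.sum_sub_distrib]
    apply Finset.sum_congr rfl
    intro i _
    rw [Derivation.leibniz, smul_eq_mul, smul_eq_mul, hθ', Derivation.map_natCast]
    ring
  have h11 : δ (∑ i, (μ i : K) * θ i * lam i) = -(∑ i, (μ i : K) * lam i)
      - κ * (∑ i, (μ i : K) * lam i ^ 2) + κ * (∑ i, (μ i : K) * θ i ^ 2)
      - 2 * ∑ i, (μ i : K) * θ i ^ 2 * lam i := by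
    rw [map_sum, Finset.mul_sum, Finset.mul_sum, Finset.mul_sum, ← Finset.sum_neg_distrib,
      ← Finset.sum_sub_distrib, ← Finset.sum_add_distrib, ← Finset.sum_sub_distrib]
    apply Finset.sum_congr rfl
    intro i _
    simp only [Derivation.leibniz, smul_eq_mul, hθ', hlam', Derivation.map_natCast]
    ring
  have h2 : δ (3 * δ κ) = δ ((∑ i, (μ i : K) * θ i * lam i) - κ * ∑ i, (μ i : K) * θ i) := by
    rw [h0]
  rw [map_sub, h11, Derivation.leibniz, Derivation.leibniz, smul_eq_mul, smul_eq_mul, smul_eq_mul,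
    smul_eq_mul, h10, d3, E1] at h2
  have h3 : ((∑ i, (μ i : K) * θ i * lam i) - κ * ∑ i, (μ i : K) * θ i) / 3 = δ κ := by
    rw [← h0]; field_simp
  rw [h3]
  have h4 : (2 : K) * ((2 * (∑ i, (μ i : K)) + 3) * κ - 3 * κ ^ 3
        - 2 * κ * (∑ i, (μ i : K) * lam i ^ 2)
        + κ * (∑ i, (μ i : K) * θ i ^ 2) - (∑ i, (μ i : K) * θ i ^ 2 * lam i)
        + δ κ * (∑ i, (μ i : K) * θ i)) = 0 := by
    linear_combination 3 * E2 - h2
  exact (mul_eq_zero.1 h4).resolve_left two_ne_zero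

end field

/-- restriction of a derivation to a stable subfield -/
lemma exists_restrict {K : Type*} [Field K] [Algebra ℂ K] (δ : Derivation ℂ K K)
    (L : IntermediateField ℂ K) (hL : ∀ x ∈ L, δ x ∈ L) :
    ∃ δL : Derivation ℂ L L, ∀ x : L, ((δL x : L) : K) = δ (x : K) := by
  refine ⟨Derivation.mk' { toFun := fun x => ⟨δ x, hL x x.2⟩, map_add' := ?_, map_smul' := ?_ } ?_,
    ?_⟩
  · intro x y
    apply Subtype.ext
    simp
  · intro c x
    apply Subtype.ext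
    simp
  · intro x y
    apply Subtype.ext
    simp
  · intro x
    rfl

lemma field_contra {K : Type*} [Field K] [Algebra ℂ K] (δ : Derivation ℂ K K)
    {ι : Type*} [Fintype ι] [DecidableEq ι] (μ : ι → ℕ) (hμ : ∀ i, 0 < μ i)
    (t l : ι → ℝ) (hinj : ∀ i j, t i = t j → l i = l j → i = j) (hcard : 2 ≤ Fintype.card ι)
    (J : K) (hJ : J = algebraMap ℂ K Complex.I)
    (p q Ψ Ψi κ : K) (B ν νt θ lam : ι → K)
    (hΨ : Ψ * Ψi = 1)
    (hp : δ p = (1 + p * q) * Ψ / 2) (hq : δ q = (1 + p * q) * Ψi / 2)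
    (hΨ' : δ Ψ = Ψ * (J * κ + (q * Ψ - p * Ψi) / 2))
    (hBdef : ∀ i, B i = algebraMap ℂ K (l i) * (p * q - 1)
        + algebraMap ℂ K (1 - Complex.I * t i) * p + algebraMap ℂ K (1 + Complex.I * t i) * q)
    (hν : ∀ i, ν i = algebraMap ℂ K (1 - Complex.I * t i) + 2 * algebraMap ℂ K (l i) * q
        - algebraMap ℂ K (1 + Complex.I * t i) * q ^ 2)
    (hνt : ∀ i, νt i = algebraMap ℂ K (1 + Complex.I * t i) + 2 * algebraMap ℂ K (l i) * p
        - algebraMap ℂ K (1 - Complex.I * t i) * p ^ 2)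
    (hB : ∀ i, B i ≠ 0)
    (hθ : ∀ i, 2 * B i * θ i = ν i * Ψ + νt i * Ψi)
    (hlam : ∀ i, 2 * B i * lam i = - J * (ν i * Ψ - νt i * Ψi))
    (hpq : 1 + p * q ≠ 0)
    (hθ' : ∀ i, δ (θ i) = -1 - κ * lam i - θ i ^ 2)
    (hlam' : ∀ i, δ (lam i) = (κ - lam i) * θ i)
    (E1 : ∑ i, (μ i : K) * lam i = -3 * κ)
    (E2 : δ (δ κ) + δ κ * ∑ i, (μ i : K) * θ i
        + κ * ((∑ i, (μ i : K)) + 1 - κ ^ 2 - ∑ i, (μ i : K) * lam i ^ 2) = 0)
    (gram : ∀ i j, i ≠ j → ∃ c : ℂ, c ≠ 1 ∧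
        (1 + θ i * θ j + lam i * lam j) ^ 2
          = algebraMap ℂ K c * ((1 + θ i ^ 2 + lam i ^ 2) * (1 + θ j ^ 2 + lam j ^ 2)))
    (hδκ : δ κ ≠ 0) : False := by
  have : CharZero K := charZero_of_injective_algebraMap (algebraMap ℂ K).injective
  have star := star_field δ μ κ θ lam hθ' hlam' E1 E2
  have hdep := alg_dep δ μ hμ t l hinj hcard J hJ p q Ψ Ψi κ B ν νt θ lam hΨ hp hq hΨ' hBdef hν hνt
    hB hθ hlam E1 star
  -- memberships
  obtain ⟨F, hF⟩ : ∃ F : IntermediateField ℂ K,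
    F = IntermediateField.adjoin ℂ ({p, q, Ψ, Ψi} : Set K) := ⟨_, rfl⟩
  have hsub : ({p, q, Ψ, Ψi} : Set K) ⊆ F := by
    rw [hF]; exact IntermediateField.subset_adjoin ℂ _
  have pF : p ∈ F := hsub (by simp)
  have qF : q ∈ F := hsub (by simp)
  have ΨF : Ψ ∈ F := hsub (by simp)
  have ΨiF : Ψi ∈ F := hsub (by simp)
  have cF : ∀ c : ℂ, algebraMap ℂ K c ∈ F := fun c => F.algebraMap_mem c
  have F2 : (2 : K) ∈ F := by
    have h := cF 2
    rwa [map_ofNat] at h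
  have JF : J ∈ F := by rw [hJ]; exact cF _
  have BF : ∀ i, B i ∈ F := by
    intro i
    rw [hBdef]
    exact F.add_mem (F.add_mem (F.mul_mem (cF _) (F.sub_mem (F.mul_mem pF qF) F.one_mem))
      (F.mul_mem (cF _) pF)) (F.mul_mem (cF _) qF)
  have νF : ∀ i, ν i ∈ F := by
    intro i
    rw [hν]
    exact F.sub_mem (F.add_mem (cF _) (F.mul_mem (F.mul_mem F2 (cF _)) qF))
      (F.mul_mem (cF _) (pow_mem qF 2))
  have νtF : ∀ i, νt i ∈ F := by
    intro i
    rw [hνt]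
    exact F.sub_mem (F.add_mem (cF _) (F.mul_mem (F.mul_mem F2 (cF _)) pF))
      (F.mul_mem (cF _) (pow_mem pF 2))
  have θF : ∀ i, θ i ∈ F := by
    intro i
    have h1 : θ i = (ν i * Ψ + νt i * Ψi) / (2 * B i) := by
      rw [eq_div_iff (mul_ne_zero two_ne_zero (hB i)), ← hθ]; ring
    rw [h1]
    exact F.div_mem (F.add_mem (F.mul_mem (νF i) ΨF) (F.mul_mem (νtF i) ΨiF))
      (F.mul_mem F2 (BF i))
  have lamF : ∀ i, lam i ∈ F := by
    intro i
    have h1 : lam i = (-J * (ν i * Ψ - νt i * Ψi)) / (2 * B i) := by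
      rw [eq_div_iff (mul_ne_zero two_ne_zero (hB i)), ← hlam]; ring
    rw [h1]
    exact F.div_mem (F.mul_mem (F.neg_mem JF) (F.sub_mem (F.mul_mem (νF i) ΨF)
      (F.mul_mem (νtF i) ΨiF))) (F.mul_mem F2 (BF i))
  have hκmem : ∀ M : IntermediateField ℂ K, (∀ i, lam i ∈ M) → κ ∈ M := by
    intro M hM
    have h1 : κ = (-3)⁻¹ * ∑ i, (μ i : K) * lam i := by
      rw [E1]; field_simp
    rw [h1]
    refine M.mul_mem (M.inv_mem (M.neg_mem ?_)) (M.sum_mem fun i _ => M.mul_mem ?_ (hM i))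
    · have h := M.algebraMap_mem 3
      rwa [map_ofNat] at h
    · exact natCast_mem M (μ i)
  have hκ : κ ∈ IntermediateField.adjoin ℂ (Set.range lam) :=
    hκmem _ (fun i => IntermediateField.subset_adjoin ℂ _ ⟨i, rfl⟩)
  obtain ⟨M, hM⟩ : ∃ M : IntermediateField ℂ K,
    M = IntermediateField.adjoin ℂ (Set.range θ ∪ Set.range lam) := ⟨_, rfl⟩
  have hsubM : (Set.range θ ∪ Set.range lam) ⊆ (M : Set K) := by
    rw [hM]; exact IntermediateField.subset_adjoin ℂ _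
  have θM : ∀ i, θ i ∈ M := fun i => hsubM (Or.inl ⟨i, rfl⟩)
  have lamM : ∀ i, lam i ∈ M := fun i => hsubM (Or.inr ⟨i, rfl⟩)
  have κM : κ ∈ M := hκmem M lamM
  obtain ⟨L, hκL, hθL, hlamL, hδL, hfin⟩ := exists_finite_subfield δ p q Ψ Ψi κ θ lam hΨ hp hq hpq
    hdep (by rw [← hF]; exact θF) (by rw [← hF]; exact lamF) hκ hδκ
    (by
      rw [← hM]
      intro i
      rw [hθ']
      exact M.sub_mem (M.sub_mem (M.neg_mem M.one_mem) (M.mul_mem κM (lamM i)))
        (pow_mem (θM i) 2))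
    (by
      rw [← hM]
      intro i
      rw [hlam']
      exact M.mul_mem (M.sub_mem κM (lamM i)) (θM i))
  obtain ⟨δL, hδL'⟩ := exists_restrict δ L hδL
  obtain ⟨κL, hκLdef⟩ : ∃ x : L, x = ⟨κ, hκL⟩ := ⟨_, rfl⟩
  rw [← hκLdef] at hfin
  have hκLc : ((κL : L) : K) = κ := by rw [hκLdef]
  have hδκL : δL κL ≠ 0 := by
    intro h
    apply hδκ
    rw [← hκLc, ← hδL', h]
    rfl
  have hκL0 : κL ≠ 0 := by
    rintro h
    apply hδκL
    rw [h, map_zero]
  have hx : δL κL⁻¹ ≠ 0 := by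
    intro h
    have h1 : δL (κL * κL⁻¹) = 0 := by
      rw [mul_inv_cancel₀ hκL0, Derivation.map_one_eq_zero]
    rw [Derivation.leibniz, h, smul_zero, zero_add, smul_eq_mul] at h1
    rcases mul_eq_zero.1 h1 with h2 | h2
    · exact inv_ne_zero hκL0 h2
    · exact hδκL h2
  obtain ⟨Θ, D, P, hΘ, hD, hlim⟩ := exists_placeCalc δL κL⁻¹ hx hfin
  have castsum : ∀ f : ι → L, ((∑ i, (μ i : L) * f i : L) : K) = ∑ i, (μ i : K) * ((f i : L) : K) := by
    intro f
    push_cast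
    rfl
  refine no_place D δL P Θ hΘ hD μ hμ ((∑ i, (μ i : ℂ)) + 1) κL (fun i => ⟨θ i, hθL i⟩)
    (fun i => ⟨lam i, hlamL i⟩) ?_ ?_ ?_ ?_ ?_ hκL0 hlim
  · intro i
    apply Subtype.ext
    rw [hδL']
    push_cast
    rw [hκLc, hθ']
  · intro i
    apply Subtype.ext
    rw [hδL']
    push_cast
    rw [hκLc, hlam']
  · apply Subtype.ext
    push_cast
    rw [hκLc, E1]
    rfl
  · apply Subtype.ext
    push_cast
    rw [hδL', hδL', hκLc]
    exact E2
  · intro i j hij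
    obtain ⟨c, hc, h⟩ := gram i j hij
    refine ⟨c, hc, ?_⟩
    apply Subtype.ext
    push_cast
    exact h

lemma grouped {ι : Type*} [Fintype ι] [DecidableEq ι] (μ : ι → ℕ) (hμ : ∀ i, 0 < μ i)
    (κ : PowerSeries ℂ) (θ lam : ι → PowerSeries ℂ) (t l : ι → ℝ)
    (hinj : ∀ i j, t i = t j → l i = l j → i = j)
    (ht : ∀ i, constantCoeff (θ i) = (t i : ℂ)) (hl : ∀ i, constantCoeff (lam i) = (l i : ℂ))
    (hθ : ∀ i, d⁄dX ℂ (θ i) = -1 - κ * lam i - θ i ^ 2)
    (hlam : ∀ i, d⁄dX ℂ (lam i) = (κ - lam i) * θ i)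
    (E1 : ∑ i, (μ i : PowerSeries ℂ) * lam i = -3 * κ)
    (E2 : d⁄dX ℂ (d⁄dX ℂ κ) + d⁄dX ℂ κ * ∑ i, (μ i : PowerSeries ℂ) * θ i
        + κ * ((∑ i, (μ i : PowerSeries ℂ)) + 1 - κ ^ 2
          - ∑ i, (μ i : PowerSeries ℂ) * lam i ^ 2) = 0) :
    d⁄dX ℂ κ = 0 := by
  by_contra hκ'
  obtain ⟨δ, hδ⟩ := exists_derivation_fraction (A := PowerSeries ℂ)
    (K := FractionRing (PowerSeries ℂ)) (d⁄dX ℂ)
  have hinjφ : Function.Injective (algebraMap (PowerSeries ℂ) (FractionRing (PowerSeries ℂ))) :=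
    IsFractionRing.injective _ _
  have hφC : ∀ a : ℂ, algebraMap (PowerSeries ℂ) (FractionRing (PowerSeries ℂ)) (C a)
      = algebraMap ℂ (FractionRing (PowerSeries ℂ)) a := by
    intro a
    rw [IsScalarTower.algebraMap_apply ℂ (PowerSeries ℂ) (FractionRing (PowerSeries ℂ))]
    rfl
  have : CharZero (FractionRing (PowerSeries ℂ)) :=
    charZero_of_injective_algebraMap (algebraMap ℂ (FractionRing (PowerSeries ℂ))).injective
  generalize hφ : algebraMap (PowerSeries ℂ) (FractionRing (PowerSeries ℂ)) = φ at *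
  have hδκ : δ (φ κ) ≠ 0 := by
    intro h
    rw [hδ] at h
    apply hκ'
    apply hinjφ
    rw [h, map_zero]
  have hθ' : ∀ i, δ (φ (θ i)) = -1 - φ κ * φ (lam i) - φ (θ i) ^ 2 := by
    intro i
    rw [hδ, hθ]
    simp only [map_sub, map_neg, map_one, map_mul, map_pow]
  have hlam' : ∀ i, δ (φ (lam i)) = (φ κ - φ (lam i)) * φ (θ i) := by
    intro i
    rw [hδ, hlam]
    simp only [map_sub, map_mul]
  have E1' : ∑ i, (μ i : FractionRing (PowerSeries ℂ)) * φ (lam i) = -3 * φ κ := by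
    have h := congrArg φ E1
    simpa only [map_sum, map_mul, map_natCast, map_neg, map_ofNat] using h
  have E2' : δ (δ (φ κ)) + δ (φ κ) * ∑ i, (μ i : FractionRing (PowerSeries ℂ)) * φ (θ i)
        + φ κ * ((∑ i, (μ i : FractionRing (PowerSeries ℂ))) + 1 - φ κ ^ 2
          - ∑ i, (μ i : FractionRing (PowerSeries ℂ)) * φ (lam i) ^ 2) = 0 := by
    have h := congrArg φ E2
    rw [hδ, hδ]
    simpa only [map_sum, map_add, map_sub, map_mul, map_pow, map_natCast, map_one, map_zero]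
      using h
  rcases Nat.lt_or_ge (Fintype.card ι) 2 with hcard | hcard
  · rcases Nat.lt_or_ge (Fintype.card ι) 1 with hcard1 | hcard1
    · -- no pairs
      have hemp : IsEmpty ι := Fintype.card_eq_zero_iff.1 (by omega)
      rw [Finset.univ_eq_empty, Finset.sum_empty] at E1'
      have h1 : φ κ = 0 := by
        have h2 : (3 : FractionRing (PowerSeries ℂ)) * φ κ = 0 := by linear_combination E1'
        exact (mul_eq_zero.1 h2).resolve_left three_ne_zero
      exact hδκ (by rw [h1, map_zero])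
    · -- one pair
      have hc1 : Fintype.card ι = 1 := by omega
      obtain ⟨i0, hi0⟩ := Fintype.card_eq_one_iff.1 hc1
      have huniv : (Finset.univ : Finset ι) = {i0} := by
        ext i
        simp [hi0 i]
      apply hδκ
      refine one_pair δ (fun x y => map_add δ x y) (fun x y => ?_) (μ i0) (hμ i0) (φ κ)
        (φ (θ i0)) (φ (lam i0)) (hθ' i0) (hlam' i0) ?_ ?_
      · rw [Derivation.leibniz, smul_eq_mul, smul_eq_mul]
      · rw [huniv, Finset.sum_singleton] at E1'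
        exact E1'
      · rw [huniv, Finset.sum_singleton, Finset.sum_singleton, Finset.sum_singleton] at E2'
        exact E2'
  · -- at least two pairs
    obtain ⟨p, q, Ψ, Ψi, hΨ, hp, hq, hΨ', p0, q0, Ψ0⟩ := exists_frame κ
    have hff := fun i => frame_formula κ p q Ψ Ψi (θ i) (lam i) (t i) (l i) hΨ hp hq hΨ' p0 q0 Ψ0
      (ht i) (hl i) (hθ i) (hlam i) _ _ _ rfl rfl rfl
    have h2 : (2 : FractionRing (PowerSeries ℂ)) ≠ 0 := two_ne_zero
    refine field_contra δ μ hμ t l hinj hcard (algebraMap ℂ _ Complex.I) rfl (φ p) (φ q) (φ Ψ)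
      (φ Ψi) (φ κ)
      (fun i => φ (C (l i : ℂ) * (p * q - 1) + C (1 - Complex.I * t i) * p
        + C (1 + Complex.I * t i) * q))
      (fun i => φ (C (1 - Complex.I * t i) + 2 * C (l i : ℂ) * q
        - C (1 + Complex.I * t i) * q ^ 2))
      (fun i => φ (C (1 + Complex.I * t i) + 2 * C (l i : ℂ) * p
        - C (1 - Complex.I * t i) * p ^ 2))
      (fun i => φ (θ i)) (fun i => φ (lam i)) ?_ ?_ ?_ ?_ ?_ ?_ ?_ ?_ ?_ ?_ ?_ hθ' hlam' E1' E2'
      ?_ hδκ
    · rw [← map_mul, hΨ, map_one]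
    · have h := congrArg φ hp
      simp only [map_mul, map_add, map_one, map_ofNat] at h
      rw [hδ, eq_div_iff h2, ← h]; ring
    · have h := congrArg φ hq
      simp only [map_mul, map_add, map_one, map_ofNat] at h
      rw [hδ, eq_div_iff h2, ← h]; ring
    · have h := congrArg φ hΨ'
      simp only [map_mul, map_add, map_sub, map_ofNat, hφC] at h
      have h3 : (2 : FractionRing (PowerSeries ℂ)) * δ (φ Ψ) = 2 * (φ Ψ *
        (algebraMap ℂ _ Complex.I * φ κ + (φ q * φ Ψ - φ p * φ Ψi) / 2)) := by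
        rw [hδ, h]; field_simp
      exact mul_left_cancel₀ h2 h3
    · intro i
      simp only [map_mul, map_add, map_sub, map_one, hφC]
    · intro i
      simp only [map_mul, map_add, map_sub, map_ofNat, map_pow, hφC]
    · intro i
      simp only [map_mul, map_add, map_sub, map_ofNat, map_pow, hφC]
    · intro i h
      have h1 : C (l i : ℂ) * (p * q - 1) + C (1 - Complex.I * t i) * p
        + C (1 + Complex.I * t i) * q = 0 := hinjφ (by rw [h, map_zero])
      have h3 := congrArg constantCoeff h1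
      simp only [map_mul, map_add, map_sub, map_one, map_zero, constantCoeff_C, p0, q0] at h3
      have h4 : (2 : ℂ) = 0 := by linear_combination h3
      exact two_ne_zero h4
    · intro i
      have h := congrArg φ (hff i).1
      simpa only [map_mul, map_add, map_ofNat] using h
    · intro i
      have key : ∀ B ν νt : PowerSeries ℂ, 2 * B * lam i = -C Complex.I * (ν * Ψ - νt * Ψi) →
          2 * φ B * φ (lam i) = -algebraMap ℂ (FractionRing (PowerSeries ℂ)) Complex.I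
            * (φ ν * φ Ψ - φ νt * φ Ψi) := by
        intro B ν νt h
        have h1 := congrArg φ h
        simpa only [map_mul, map_neg, map_sub, map_ofNat, hφC] using h1
      exact key _ _ _ (hff i).2
    · intro h
      have h1 : 1 + p * q = 0 := hinjφ (by rw [map_add, map_one, map_mul, h, map_zero])
      have h3 := congrArg constantCoeff h1
      simp only [map_mul, map_add, map_one, map_zero, p0, q0] at h3
      have h4 : (2 : ℂ) = 0 := by linear_combination h3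
      exact two_ne_zero h4
    · intro i j hij
      obtain ⟨c, hc, h⟩ := gram_rel κ (θ i) (lam i) (θ j) (lam j) (t i) (l i) (t j) (l j) (ht i)
        (hl i) (ht j) (hl j) (hθ i) (hlam i) (hθ j) (hlam j) (fun h => hij (hinj i j h.1 h.2))
      refine ⟨c, hc, ?_⟩
      have h1 := congrArg φ h
      simpa only [map_mul, map_add, map_one, map_pow, hφC] using h1

end T1

/-- Theorem T1: the formal ODE problem has no solution with nonconstant `κ`. -/
theorem no_formal {ι : Type*} [Fintype ι] (κ : PowerSeries ℂ) (θ lam : ι → PowerSeries ℂ)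
    (t l : ι → ℝ)
    (ht : ∀ i, constantCoeff (θ i) = (t i : ℂ)) (hl : ∀ i, constantCoeff (lam i) = (l i : ℂ))
    (hθ : ∀ i, d⁄dX ℂ (θ i) = -1 - κ * lam i - θ i ^ 2)
    (hlam : ∀ i, d⁄dX ℂ (lam i) = (κ - lam i) * θ i)
    (E1 : ∑ i, lam i = -3 * κ)
    (E2 : d⁄dX ℂ (d⁄dX ℂ κ) + d⁄dX ℂ κ * ∑ i, θ i
        + κ * ((Fintype.card ι + 1 : PowerSeries ℂ) - κ ^ 2 - ∑ i, lam i ^ 2) = 0) :
    d⁄dX ℂ κ = 0 := by
  classical
  -- group the equal pairs
  obtain ⟨g, hg⟩ : ∃ g : ι → Finset.univ.image (fun i : ι => (t i, l i)),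
      ∀ i, (g i : ℝ × ℝ) = (t i, l i) :=
    ⟨fun i => ⟨(t i, l i), Finset.mem_image_of_mem _ (Finset.mem_univ i)⟩, fun i => rfl⟩
  have hsurj : ∀ x : Finset.univ.image (fun i : ι => (t i, l i)), ∃ i, g i = x := by
    rintro ⟨x, hx⟩
    obtain ⟨i, -, hi⟩ := Finset.mem_image.1 hx
    exact ⟨i, Subtype.ext (by rw [hg]; exact hi)⟩
  choose s hs using hsurj
  have hts : ∀ x, t (s x) = (x : ℝ × ℝ).1 := by
    intro x
    have h := hg (s x)
    rw [hs] at h
    rw [h]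
  have hls : ∀ x, l (s x) = (x : ℝ × ℝ).2 := by
    intro x
    have h := hg (s x)
    rw [hs] at h
    rw [h]
  have huniq : ∀ i, θ i = θ (s (g i)) ∧ lam i = lam (s (g i)) := by
    intro i
    apply T1.pair_unique κ _ _ _ _ (hθ _) (hlam _) (hθ _) (hlam _)
    · rw [ht, ht, hts, hg]
    · rw [hl, hl, hls, hg]
  have hsum : ∀ f : ι → PowerSeries ℂ, (∀ i, f i = f (s (g i))) → ∑ i, f i
      = ∑ x, (((Finset.univ.filter (fun i => g i = x)).card : ℕ) : PowerSeries ℂ) * f (s x) := by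
    intro f hf
    rw [← Finset.sum_fiberwise (s := Finset.univ) (g := g) (f := f)]
    apply Finset.sum_congr rfl
    intro x _
    have h1 : ∀ i ∈ Finset.univ.filter (fun i => g i = x), f i = f (s x) := by
      intro i hi
      rw [hf i, (Finset.mem_filter.1 hi).2]
    rw [Finset.sum_congr rfl h1, Finset.sum_const, nsmul_eq_mul]
  refine T1.grouped (fun x => (Finset.univ.filter (fun i => g i = x)).card) ?_ κ
    (fun x => θ (s x)) (fun x => lam (s x)) (fun x => (x : ℝ × ℝ).1) (fun x => (x : ℝ × ℝ).2)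
    ?_ ?_ ?_ (fun x => hθ _) (fun x => hlam _) ?_ ?_
  · intro x
    apply Finset.card_pos.2
    exact ⟨s x, by simp [hs]⟩
  · intro x y h1 h2
    exact Subtype.ext (Prod.ext h1 h2)
  · intro x
    rw [ht, hts]
  · intro x
    rw [hl, hls]
  · rw [← hsum lam (fun i => (huniq i).2)]
    exact E1
  · rw [← hsum θ (fun i => (huniq i).1), ← hsum (fun i => lam i ^ 2)
      (fun i => by rw [← (huniq i).2])]
    have h1 := hsum (fun _ => 1) (fun _ => rfl)
    simp only [mul_one] at h1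
    rw [← h1, Finset.sum_const, Finset.card_univ, nsmul_eq_mul, mul_one]
    exact E2

end BH
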