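import Mathlib
import Pool.Agent.Lib_helper71.BH.FormalT1

set_option autoImplicit false

namespace BH

open PowerSeries

theorem derivative_map_ofReal (f : PowerSeries ℝ) :
    d⁄dX ℂ (PowerSeries.map (algebraMap ℝ ℂ) f) = PowerSeries.map (algebraMap ℝ ℂ) (d⁄dX ℝ f) := by
  ext n
  simp [coeff_derivative]

/-- matrix version over the reals -/
theorem no_formal_matrix' {n : Type*} [Fintype n] [DecidableEq n] (κ : PowerSeries ℝ)
    (A B : n → n → PowerSeries ℝ) (P : n → ℝ) (hP : ∀ i, P i = 0 ∨ P i = 1)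
    (hA : ∀ i j, d⁄dX ℝ (A i j) = κ * B i j - ∑ k, A i k * B k j)
    (hB : ∀ i j, d⁄dX ℝ (B i j) = - C (if i = j then P i else 0) - κ * A i j
        - ∑ k, B i k * B k j)
    (hA0 : ∀ i j, i ≠ j → constantCoeff (A i j) = 0)
    (hB0 : ∀ i j, i ≠ j → constantCoeff (B i j) = 0)
    (hA1 : ∀ i, P i = 0 → constantCoeff (A i i) = 0)
    (hB1 : ∀ i, P i = 0 → constantCoeff (B i i) = 0)
    (E1 : ∑ i, A i i = -3 * κ)
    (E2 : d⁄dX ℝ (d⁄dX ℝ κ) + d⁄dX ℝ κ * ∑ i, B i i
        + κ * (C (∑ i, P i + 1) - κ ^ 2 - ∑ i, ∑ j, A i j * A j i) = 0) :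
    d⁄dX ℝ κ = 0 := by
  obtain ⟨hAo, hBo⟩ := diag_persist κ A B P hA hB hA0 hB0
  have hAd : ∀ i, d⁄dX ℝ (A i i) = κ * B i i - A i i * B i i := by
    intro i
    rw [hA i i, Finset.sum_eq_single i]
    · intro k _ hk
      rw [hAo i k hk.symm, zero_mul]
    · intro h; exact absurd (Finset.mem_univ i) h
  have hBd : ∀ i, d⁄dX ℝ (B i i) = - C (P i) - κ * A i i - B i i * B i i := by
    intro i
    rw [hB i i, Finset.sum_eq_single i, if_pos rfl]
    · intro k _ hk
      rw [hBo i k hk.symm, zero_mul]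
    · intro h; exact absurd (Finset.mem_univ i) h
  have hz : ∀ i, P i = 0 → A i i = 0 ∧ B i i = 0 := by
    intro i hi
    refine zero_persist κ (A i i) (B i i) (hAd i) ?_ (hA1 i hi) (hB1 i hi)
    rw [hBd i, hi]; simp
  set Φ := PowerSeries.map (algebraMap ℝ ℂ) with hΦ
  let ι := {i : n // P i = 1}
  have hsub : ∀ F : n → PowerSeries ℝ, (∀ i, P i = 0 → F i = 0) →
      ∑ i : ι, F i.1 = ∑ i, F i := by
    intro F hF
    have h1 : ∑ i : ι, F i.1 = ∑ i ∈ Finset.univ.filter (fun i => P i = 1), F i := by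
      rw [Finset.sum_subtype (p := fun i => P i = 1)]
      intro x; simp
    rw [h1]
    refine Finset.sum_subset (Finset.filter_subset _ _) ?_
    intro i _ hi
    have : P i ≠ 1 := fun h => hi (Finset.mem_filter.mpr ⟨Finset.mem_univ _, h⟩)
    rcases hP i with h | h
    · exact hF i h
    · exact absurd h this
  have hcard : ((Fintype.card ι : ℝ)) = ∑ i, P i := by
    have h1 : ∑ i, P i = ∑ i ∈ Finset.univ.filter (fun i => P i = 1), P i := by
      symm
      refine Finset.sum_subset (Finset.filter_subset _ _) ?_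
      intro i _ hi
      have : P i ≠ 1 := fun h => hi (Finset.mem_filter.mpr ⟨Finset.mem_univ _, h⟩)
      rcases hP i with h | h
      · exact h
      · exact absurd h this
    rw [h1, Finset.sum_congr rfl (g := fun _ => (1 : ℝ)) (fun i hi => (Finset.mem_filter.mp hi).2)]
    simp [ι, Fintype.card_subtype]
  have hrm : ∀ r : ℝ, Φ (C r) = C (r : ℂ) := by intro r; simp [hΦ]
  have hcc : ∀ f : PowerSeries ℝ, constantCoeff (Φ f) = ((constantCoeff f : ℝ) : ℂ) := by
    intro f
    rw [hΦ, ← coeff_zero_eq_constantCoeff_apply, ← coeff_zero_eq_constantCoeff_apply, coeff_map]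
    rfl
  have key := no_formal (ι := ι) (Φ κ) (fun i => Φ (B i.1 i.1)) (fun i => Φ (A i.1 i.1))
    (fun i => constantCoeff (B i.1 i.1)) (fun i => constantCoeff (A i.1 i.1))
    (fun i => hcc _) (fun i => hcc _)
    (fun i => by
      rw [derivative_map_ofReal, hBd i.1, i.2, ← hΦ]
      simp only [map_sub, map_neg, map_mul, map_one]
      ring)
    (fun i => by
      rw [derivative_map_ofReal, hAd i.1, ← hΦ]
      simp only [map_sub, map_mul]
      ring)
    (by
      rw [← map_sum, hsub (fun i => A i i) (fun i hi => (hz i hi).1), E1, map_mul, map_neg,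
        map_ofNat])
    (by
      have h1 := congrArg Φ E2
      rw [map_zero] at h1
      rw [← h1]
      have h2 : ∑ i : ι, Φ (B i.1 i.1) = Φ (∑ i, B i i) := by
        rw [← map_sum, hsub (fun i => B i i) (fun i hi => (hz i hi).2)]
      have h3 : ∑ i : ι, Φ (A i.1 i.1) ^ 2 = Φ (∑ i, ∑ j, A i j * A j i) := by
        have h4 : ∀ i, ∑ j, A i j * A j i = A i i ^ 2 := by
          intro i
          rw [Finset.sum_eq_single i, pow_two]
          · intro j _ hj
            rw [hAo i j hj.symm, zero_mul]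
          · intro h; exact absurd (Finset.mem_univ i) h
        rw [Finset.sum_congr rfl fun i _ => h4 i,
          ← hsub (fun i => A i i ^ 2) (fun i hi => by rw [(hz i hi).1]; ring)]
        simp only [map_sum, map_pow]
      rw [h2, h3]
      simp only [map_add, map_mul, map_sub, map_pow]
      rw [derivative_map_ofReal, derivative_map_ofReal, ← hΦ]
      have h5 : Φ (C (∑ i, P i)) + Φ (C 1) = (Fintype.card ι + 1 : PowerSeries ℂ) := by
        rw [← hcard]; simp [hΦ]
      rw [← h5])
  rw [derivative_map_ofReal] at key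
  have hinj : Function.Injective (PowerSeries.map (algebraMap ℝ ℂ)) :=
    PowerSeries.map_injective _ (algebraMap ℝ ℂ).injective
  exact hinj (by rw [key, map_zero])

end BH
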