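import Mathlib
import Pool.Agent.Lib_helper71.BH.GeoDefs

set_option autoImplicit false

namespace BH

open Matrix Set Filter Topology

namespace Geo3

section smooth

variable {X : Type*} [NormedAddCommGroup X] [NormedSpace ℝ X] {U : Set X}

lemma det_smooth {n : ℕ} {M : X → Matrix (Fin n) (Fin n) ℝ}
    (h : ∀ i j, ContDiffOn ℝ smth (fun x => M x i j) U) :
    ContDiffOn ℝ smth (fun x => (M x).det) U := by
  simp only [Matrix.det_apply']
  refine ContDiffOn.sum fun σ _ => ?_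
  refine contDiffOn_const.mul ?_
  exact contDiffOn_prod fun i _ => h _ _

lemma adj_smooth {n : ℕ} {M : X → Matrix (Fin n) (Fin n) ℝ}
    (h : ∀ i j, ContDiffOn ℝ smth (fun x => M x i j) U) (i j : Fin n) :
    ContDiffOn ℝ smth (fun x => (M x).adjugate i j) U := by
  simp only [Matrix.adjugate_apply]
  apply det_smooth
  intro k l
  by_cases hk : k = j
  · subst hk
    simp only [Matrix.updateRow_self]
    exact contDiffOn_const
  · simp only [Matrix.updateRow_ne hk]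
    exact h k l

lemma inv_smooth {n : ℕ} {M : X → Matrix (Fin n) (Fin n) ℝ}
    (h : ∀ i j, ContDiffOn ℝ smth (fun x => M x i j) U) (hd : ∀ x ∈ U, (M x).det ≠ 0)
    (i j : Fin n) : ContDiffOn ℝ smth (fun x => (M x)⁻¹ i j) U := by
  have e : ∀ x, (M x)⁻¹ i j = ((M x).det)⁻¹ * (M x).adjugate i j := by
    intro x
    rw [Matrix.inv_def, Matrix.smul_apply, Ring.inverse_eq_inv', smul_eq_mul]
  simp only [e]
  exact ((det_smooth h).inv hd).mul (adj_smooth h i j)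

end smooth

end Geo3

namespace Setup

variable {m : ℕ} (S : Setup m)

/-- first fundamental form -/
noncomputable def g : Xm m → Matrix (Fin m) (Fin m) ℝ := fun x =>
  Matrix.of (fun i j : Fin m =>
    inner ℝ (fderiv ℝ S.f x (Pi.single i (1 : ℝ))) (fderiv ℝ S.f x (Pi.single j (1 : ℝ))))

/-! ### preliminaries -/


theorem g_apply (x : Xm m) (i j : Fin m) : S.g x i j =
    inner ℝ (fderiv ℝ S.f x (Pi.single i (1 : ℝ) : Xm m)) (fderiv ℝ S.f x (Pi.single j (1 : ℝ) : Xm m)) := rfl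

theorem g_symm (x : Xm m) (i j : Fin m) : S.g x i j = S.g x j i := by
  rw [g_apply, g_apply, real_inner_comm]

theorem lin_ee {F : Type*} [NormedAddCommGroup F] [NormedSpace ℝ F] (Λ : Xm m →L[ℝ] F)
    (v : Xm m) : Λ v = ∑ i, v i • Λ (Pi.single i (1 : ℝ) : Xm m) := by
  conv_lhs => rw [pi_eq_sum_univ' v]
  rw [map_sum]
  refine Finset.sum_congr rfl fun i _ => ?_
  rw [← map_smul]

theorem g_mulVec (x v : Xm m) (j : Fin m) : (S.g x).mulVec v j =
    inner ℝ (fderiv ℝ S.f x (Pi.single j (1 : ℝ) : Xm m)) (fderiv ℝ S.f x v) := by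
  rw [lin_ee (fderiv ℝ S.f x) v, inner_sum]
  simp only [Matrix.mulVec, dotProduct, g_apply, inner_smul_right]
  refine Finset.sum_congr rfl fun i _ => by ring

theorem g_posDef {x : Xm m} (hx : x ∈ S.U) : (S.g x).PosDef := by
  have h1 : LinearIndependent ℝ (fun i => fderiv ℝ S.f x (Pi.single i (1 : ℝ) : Xm m)) := by
    rw [Fintype.linearIndependent_iff]
    intro c hc i
    have h2 : fderiv ℝ S.f x c = 0 := by
      rw [lin_ee (fderiv ℝ S.f x) c]
      exact hc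
    have h3 := S.inj x hx c h2
    rw [h3]
    rfl
  exact Matrix.posDef_gram_of_linearIndependent h1

theorem g_det_pos {x : Xm m} (hx : x ∈ S.U) : 0 < (S.g x).det := (S.g_posDef hx).det_pos

theorem g_inv_mul {x : Xm m} (hx : x ∈ S.U) : (S.g x)⁻¹ * S.g x = 1 :=
  Matrix.nonsing_inv_mul _ (S.g_det_pos hx).ne'.isUnit

theorem g_mul_inv {x : Xm m} (hx : x ∈ S.U) : S.g x * (S.g x)⁻¹ = 1 :=
  Matrix.mul_nonsing_inv _ (S.g_det_pos hx).ne'.isUnit

theorem ginv_symm (x : Xm m) (i j : Fin m) : (S.g x)⁻¹ i j = (S.g x)⁻¹ j i := by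
  have h1 : (S.g x)ᵀ = S.g x := by
    ext i j
    rw [Matrix.transpose_apply, g_symm]
  have h2 : ((S.g x)⁻¹)ᵀ = (S.g x)⁻¹ := by
    rw [Matrix.transpose_nonsing_inv, h1]
  conv_lhs => rw [← h2]
  rfl

/-- coordinates of a tangent vector. -/
theorem coord {x : Xm m} (hx : x ∈ S.U) (v : Xm m) (i : Fin m) :
    v i = ∑ j, (S.g x)⁻¹ i j * inner ℝ (fderiv ℝ S.f x (Pi.single j (1 : ℝ) : Xm m)) (fderiv ℝ S.f x v) := by
  have h1 : (S.g x)⁻¹.mulVec ((S.g x).mulVec v) = v := by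
    rw [Matrix.mulVec_mulVec, S.g_inv_mul hx, Matrix.one_mulVec]
  conv_lhs => rw [← h1]
  simp only [Matrix.mulVec, dotProduct]
  refine Finset.sum_congr rfl fun j _ => ?_
  congr 1
  exact S.g_mulVec x v j

/-! ### smoothness -/

theorem cf {x : Xm m} (hx : x ∈ S.U) : ContDiffAt ℝ smth S.f x :=
  S.hf.contDiffAt (S.hU.mem_nhds hx)

theorem cN {x : Xm m} (hx : x ∈ S.U) : ContDiffAt ℝ smth S.N x :=
  S.hN.contDiffAt (S.hU.mem_nhds hx)

theorem ce {x : Xm m} (hx : x ∈ S.U) : ContDiffAt ℝ smth S.e x :=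
  S.he.contDiffAt (S.hU.mem_nhds hx)

theorem smth_ne : (smth : WithTop ℕ∞) ≠ 0 := by simp [smth]

theorem df_diff {x : Xm m} (hx : x ∈ S.U) : DifferentiableAt ℝ S.f x :=
  (S.cf hx).differentiableAt smth_ne

theorem dN_diff {x : Xm m} (hx : x ∈ S.U) : DifferentiableAt ℝ S.N x :=
  (S.cN hx).differentiableAt smth_ne

theorem de_diff {x : Xm m} (hx : x ∈ S.U) : DifferentiableAt ℝ S.e x :=
  (S.ce hx).differentiableAt smth_ne

theorem cDf {x : Xm m} (hx : x ∈ S.U) : ContDiffAt ℝ smth (fderiv ℝ S.f) x :=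
  (S.cf hx).fderiv_right (by simp [smth])

theorem dDf {x : Xm m} (hx : x ∈ S.U) : DifferentiableAt ℝ (fderiv ℝ S.f) x :=
  (S.cDf hx).differentiableAt smth_ne

/-- second derivative -/
theorem fderiv_Df {x : Xm m} (hx : x ∈ S.U) (u v : Xm m) :
    fderiv ℝ (fun y => fderiv ℝ S.f y u) x v = fderiv ℝ (fderiv ℝ S.f) x v u := by
  have h1 := (S.dDf hx).hasFDerivAt.clm_apply (hasFDerivAt_const u x)
  rw [h1.fderiv]
  simp

theorem dDfu {x : Xm m} (hx : x ∈ S.U) (u : Xm m) :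
    DifferentiableAt ℝ (fun y => fderiv ℝ S.f y u) x :=
  ((S.dDf hx).hasFDerivAt.clm_apply (hasFDerivAt_const u x)).differentiableAt

theorem D2_symm {x : Xm m} (hx : x ∈ S.U) (u v : Xm m) :
    fderiv ℝ (fderiv ℝ S.f) x v u = fderiv ℝ (fderiv ℝ S.f) x u v :=
  (S.cf hx).isSymmSndFDerivAt (by
    rw [minSmoothness_of_isRCLikeNormedField]
    exact WithTop.coe_le_coe.2 (le_top : (2 : ℕ∞) ≤ ⊤)) v u

theorem T_hasFDerivAt {x : Xm m} (hx : x ∈ S.U) :
    HasFDerivAt S.T ((fderiv ℝ S.f x).comp (fderiv ℝ S.e x) +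
      (fderiv ℝ (fderiv ℝ S.f) x).flip (S.e x)) x :=
  (S.dDf hx).hasFDerivAt.clm_apply (S.de_diff hx).hasFDerivAt

theorem fderiv_T {x : Xm m} (hx : x ∈ S.U) (v : Xm m) :
    fderiv ℝ S.T x v = fderiv ℝ S.f x (fderiv ℝ S.e x v) +
      fderiv ℝ (fderiv ℝ S.f) x v (S.e x) := by
  rw [(S.T_hasFDerivAt hx).fderiv]
  simp

/-- differentiate an identity valid on `U` -/
theorem deriv_const {x : Xm m} (hx : x ∈ S.U) (φ : Xm m → ℝ) (c : ℝ) (h : ∀ y ∈ S.U, φ y = c) :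
    fderiv ℝ φ x = 0 := by
  have h1 : φ =ᶠ[nhds x] fun _ => c := by
    filter_upwards [S.hU.mem_nhds hx] with y hy
    exact h y hy
  rw [h1.fderiv_eq]
  simp

theorem f_Df {x : Xm m} (hx : x ∈ S.U) (v : Xm m) : inner ℝ (S.f x) (fderiv ℝ S.f x v) = 0 := by
  have h1 := S.deriv_const hx _ 1 S.ff
  have h2 := fderiv_inner_apply ℝ (S.df_diff hx) (S.df_diff hx) v
  rw [h1] at h2
  rw [real_inner_comm (S.f x) (fderiv ℝ S.f x v)] at h2
  simp only [_root_.zero_apply] at h2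
  linarith

theorem N_DN {x : Xm m} (hx : x ∈ S.U) (v : Xm m) : inner ℝ (S.N x) (fderiv ℝ S.N x v) = 0 := by
  have h1 := S.deriv_const hx _ 1 S.NN
  have h2 := fderiv_inner_apply ℝ (S.dN_diff hx) (S.dN_diff hx) v
  rw [h1] at h2
  rw [real_inner_comm (S.N x) (fderiv ℝ S.N x v)] at h2
  simp only [_root_.zero_apply] at h2
  linarith

theorem T_DT {x : Xm m} (hx : x ∈ S.U) (v : Xm m) : inner ℝ (S.T x) (fderiv ℝ S.T x v) = 0 := by
  have h1 := S.deriv_const hx (fun y => inner ℝ (S.T y) (S.T y)) 1 S.TT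
  have hd := (S.T_hasFDerivAt hx).differentiableAt
  have h2 := fderiv_inner_apply ℝ hd hd v
  rw [h1] at h2
  rw [real_inner_comm (S.T x) (fderiv ℝ S.T x v)] at h2
  simp only [_root_.zero_apply] at h2
  linarith

theorem f_DN {x : Xm m} (hx : x ∈ S.U) (v : Xm m) : inner ℝ (S.f x) (fderiv ℝ S.N x v) = 0 := by
  have h1 := S.deriv_const hx _ 0 S.Nf
  have h2 := fderiv_inner_apply ℝ (S.dN_diff hx) (S.df_diff hx) v
  rw [h1, S.NDf x hx, real_inner_comm] at h2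
  simp only [_root_.zero_apply] at h2
  linarith

/-- `⟨D_u f, D_v N⟩ = - ⟨D_v D_u f, N⟩` -/
theorem Df_DN {x : Xm m} (hx : x ∈ S.U) (u v : Xm m) :
    inner ℝ (fderiv ℝ S.f x u) (fderiv ℝ S.N x v) =
      - inner ℝ (fderiv ℝ (fderiv ℝ S.f) x v u) (S.N x) := by
  have h1 := S.deriv_const hx (fun y => inner ℝ (S.N y) (fderiv ℝ S.f y u)) 0
    (fun y hy => S.NDf y hy u)
  have h2 := fderiv_inner_apply ℝ (S.dN_diff hx) (S.dDfu hx u) v
  rw [h1, S.fderiv_Df hx, real_inner_comm, real_inner_comm (fderiv ℝ S.f x u)] at h2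
  simp only [_root_.zero_apply] at h2
  linarith

/-- the shape form is symmetric -/
theorem Df_DN_symm {x : Xm m} (hx : x ∈ S.U) (u v : Xm m) :
    inner ℝ (fderiv ℝ S.f x u) (fderiv ℝ S.N x v) =
      inner ℝ (fderiv ℝ S.f x v) (fderiv ℝ S.N x u) := by
  rw [S.Df_DN hx, S.Df_DN hx, S.D2_symm hx]

theorem T_DN {x : Xm m} (hx : x ∈ S.U) (v : Xm m) :
    inner ℝ (S.T x) (fderiv ℝ S.N x v) = - S.κ x * inner ℝ (fderiv ℝ S.f x v) (S.T x) := by
  change inner ℝ (fderiv ℝ S.f x (S.e x)) (fderiv ℝ S.N x v) = _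
  rw [S.Df_DN_symm hx, S.DNe x hx, inner_smul_right]
  rfl

/-! ### second derivatives -/

theorem cT {x : Xm m} (hx : x ∈ S.U) : ContDiffAt ℝ smth S.T x := (S.cDf hx).clm_apply (S.ce hx)

theorem dT_diff {x : Xm m} (hx : x ∈ S.U) : DifferentiableAt ℝ S.T x :=
  (S.cT hx).differentiableAt smth_ne

theorem ck {x : Xm m} (hx : x ∈ S.U) : ContDiffAt ℝ smth S.κ x :=
  S.hκ.contDiffAt (S.hU.mem_nhds hx)

theorem dk_diff {x : Xm m} (hx : x ∈ S.U) : DifferentiableAt ℝ S.κ x :=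
  (S.ck hx).differentiableAt smth_ne

theorem dr_diff {x : Xm m} (hx : x ∈ S.U) : DifferentiableAt ℝ S.r x :=
  (S.hr.contDiffAt (S.hU.mem_nhds hx)).differentiableAt smth_ne

/-- a field of the form `x ↦ dF(x)(u(x))` -/
theorem hasFDerivAt_app {F : Type*} [NormedAddCommGroup F] [NormedSpace ℝ F]
    {Φ : Xm m → F} {x : Xm m} (hΦ : ContDiffAt ℝ smth Φ x) {u : Xm m → Xm m}
    (hu : DifferentiableAt ℝ u x) :
    HasFDerivAt (fun y => fderiv ℝ Φ y (u y)) ((fderiv ℝ Φ x).comp (fderiv ℝ u x) +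
      (fderiv ℝ (fderiv ℝ Φ) x).flip (u x)) x :=
  (((hΦ.fderiv_right (m := smth) (by simp [smth])).differentiableAt
    smth_ne).hasFDerivAt).clm_apply hu.hasFDerivAt

theorem fderiv_app {F : Type*} [NormedAddCommGroup F] [NormedSpace ℝ F]
    {Φ : Xm m → F} {x : Xm m} (hΦ : ContDiffAt ℝ smth Φ x) {u : Xm m → Xm m}
    (hu : DifferentiableAt ℝ u x) (v : Xm m) :
    fderiv ℝ (fun y => fderiv ℝ Φ y (u y)) x v = fderiv ℝ Φ x (fderiv ℝ u x v) +
      fderiv ℝ (fderiv ℝ Φ) x v (u x) := by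
  rw [(hasFDerivAt_app hΦ hu).fderiv]
  simp

theorem fderiv_app_const {F : Type*} [NormedAddCommGroup F] [NormedSpace ℝ F]
    {Φ : Xm m → F} {x : Xm m} (hΦ : ContDiffAt ℝ smth Φ x) (u v : Xm m) :
    fderiv ℝ (fun y => fderiv ℝ Φ y u) x v = fderiv ℝ (fderiv ℝ Φ) x v u := by
  rw [fderiv_app hΦ (differentiableAt_const u)]
  simp

theorem diff_app_const {F : Type*} [NormedAddCommGroup F] [NormedSpace ℝ F]
    {Φ : Xm m → F} {x : Xm m} (hΦ : ContDiffAt ℝ smth Φ x) (u : Xm m) :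
    DifferentiableAt ℝ (fun y => fderiv ℝ Φ y u) x :=
  (hasFDerivAt_app hΦ (differentiableAt_const u)).differentiableAt

theorem snd_symm {F : Type*} [NormedAddCommGroup F] [NormedSpace ℝ F]
    {Φ : Xm m → F} {x : Xm m} (hΦ : ContDiffAt ℝ smth Φ x) (u v : Xm m) :
    fderiv ℝ (fderiv ℝ Φ) x v u = fderiv ℝ (fderiv ℝ Φ) x u v :=
  hΦ.isSymmSndFDerivAt (by
    rw [minSmoothness_of_isRCLikeNormedField]
    exact WithTop.coe_le_coe.2 (le_top : (2 : ℕ∞) ≤ ⊤)) v u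

/-- the commutator formula -/
theorem comm_fields {F : Type*} [NormedAddCommGroup F] [NormedSpace ℝ F]
    {Φ : Xm m → F} {x : Xm m} (hΦ : ContDiffAt ℝ smth Φ x) {u v : Xm m → Xm m}
    (hu : DifferentiableAt ℝ u x) (hv : DifferentiableAt ℝ v x) :
    fderiv ℝ (fun y => fderiv ℝ Φ y (u y)) x (v x) =
      fderiv ℝ (fun y => fderiv ℝ Φ y (v y)) x (u x) +
        fderiv ℝ Φ x (fderiv ℝ u x (v x) - fderiv ℝ v x (u x)) := by
  rw [fderiv_app hΦ hu, fderiv_app hΦ hv, snd_symm hΦ (u x) (v x), map_sub]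
  abel

/-- two functions which agree on `U` have the same derivative -/
theorem fderiv_congr {F : Type*} [NormedAddCommGroup F] [NormedSpace ℝ F] {x : Xm m}
    (hx : x ∈ S.U) {φ ψ : Xm m → F} (h : ∀ y ∈ S.U, φ y = ψ y) : fderiv ℝ φ x = fderiv ℝ ψ x := by
  have h1 : φ =ᶠ[nhds x] ψ := by
    filter_upwards [S.hU.mem_nhds hx] with y hy
    exact h y hy
  exact h1.fderiv_eq

/-- a tangent vector orthogonal to all tangent vectors vanishes -/
theorem eq_zero_of_orth {x : Xm m} (hx : x ∈ S.U) {w : Em m} (h1 : inner ℝ (S.f x) w = 0)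
    (h2 : inner ℝ (S.N x) w = 0) (h3 : ∀ v, inner ℝ (fderiv ℝ S.f x v) w = 0) : w = 0 := by
  obtain ⟨v, hv⟩ := S.span x hx w h1 h2
  have h4 := h3 v
  rw [hv] at h4
  exact inner_self_eq_zero.1 h4

theorem f_T {x : Xm m} (hx : x ∈ S.U) : inner ℝ (S.f x) (S.T x) = 0 := S.f_Df hx _

theorem N_T {x : Xm m} (hx : x ∈ S.U) : inner ℝ (S.N x) (S.T x) = 0 := S.NDf x hx _

theorem T_T {x : Xm m} (hx : x ∈ S.U) : inner ℝ (S.T x) (S.T x) = 1 := S.TT x hx

theorem f_DT {x : Xm m} (hx : x ∈ S.U) (v : Xm m) :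
    inner ℝ (S.f x) (fderiv ℝ S.T x v) = - inner ℝ (S.T x) (fderiv ℝ S.f x v) := by
  have h1 := S.deriv_const hx (fun y => inner ℝ (S.f y) (S.T y)) 0 (fun y hy => S.f_T hy)
  have h2 := fderiv_inner_apply ℝ (S.df_diff hx) (S.dT_diff hx) v
  rw [h1, real_inner_comm (S.T x) (fderiv ℝ S.f x v)] at h2
  simp only [_root_.zero_apply] at h2
  linarith

theorem N_DT {x : Xm m} (hx : x ∈ S.U) (v : Xm m) :
    inner ℝ (S.N x) (fderiv ℝ S.T x v) = S.κ x * inner ℝ (S.T x) (fderiv ℝ S.f x v) := by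
  have h1 := S.deriv_const hx (fun y => inner ℝ (S.N y) (S.T y)) 0 (fun y hy => S.N_T hy)
  have h2 := fderiv_inner_apply ℝ (S.dN_diff hx) (S.dT_diff hx) v
  rw [h1, real_inner_comm (S.T x) (fderiv ℝ S.N x v), S.T_DN hx] at h2
  simp only [_root_.zero_apply] at h2
  rw [real_inner_comm (S.T x) (fderiv ℝ S.f x v)] at h2
  linarith

/-- differentiate `DN(e) = -κ T` -/
theorem DDN_e {x : Xm m} (hx : x ∈ S.U) (v : Xm m) :
    fderiv ℝ (fderiv ℝ S.N) x v (S.e x) = -(fderiv ℝ S.κ x v) • S.T x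
      - S.κ x • fderiv ℝ S.T x v - fderiv ℝ S.N x (fderiv ℝ S.e x v) := by
  have h1 : fderiv ℝ (fun y => fderiv ℝ S.N y (S.e y)) x v
      = fderiv ℝ (fun y => -(S.κ y) • S.T y) x v := by
    rw [S.fderiv_congr hx (fun y hy => S.DNe y hy)]
    rfl
  rw [fderiv_app (S.cN hx) (S.de_diff hx)] at h1
  have h2 : HasFDerivAt (fun y => -(S.κ y) • S.T y) _ x :=
    (S.dk_diff hx).hasFDerivAt.neg.smul (S.dT_diff hx).hasFDerivAt
  rw [h2.fderiv] at h1
  simp only [_root_.add_apply, _root_.smul_apply, ContinuousLinearMap.smulRight_apply,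
    _root_.neg_apply, Pi.neg_apply] at h1
  have h3 : fderiv ℝ (fderiv ℝ S.N) x v (S.e x) = (-(S.κ x) • fderiv ℝ S.T x v
      + -(fderiv ℝ S.κ x v) • S.T x) - fderiv ℝ S.N x (fderiv ℝ S.e x v) := by
    rw [← h1]; abel
  rw [h3]
  module

/-- `⟨D_v N + κ D_v f, D_e T⟩ = 0` -/
theorem codazzi0 {x : Xm m} (hx : x ∈ S.U) (v : Xm m) :
    inner ℝ (fderiv ℝ S.N x v + S.κ x • fderiv ℝ S.f x v) (fderiv ℝ S.T x (S.e x)) = 0 := by
  have h1 : fderiv ℝ (fun y => inner ℝ (S.T y) (fderiv ℝ S.N y v)) x (S.e x)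
      = fderiv ℝ (fun y => - S.κ y * inner ℝ (fderiv ℝ S.f y v) (S.T y)) x (S.e x) := by
    rw [S.fderiv_congr hx (fun y hy => S.T_DN hy v)]
  rw [fderiv_inner_apply ℝ (S.dT_diff hx) (diff_app_const (S.cN hx) v),
    fderiv_app_const (S.cN hx), snd_symm (S.cN hx), S.DDN_e hx] at h1
  have h2 : HasFDerivAt (fun y => - S.κ y * inner ℝ (fderiv ℝ S.f y v) (S.T y)) _ x :=
    (S.dk_diff hx).hasFDerivAt.neg.mul
      (((diff_app_const (S.cf hx) v).inner ℝ (S.dT_diff hx)).hasFDerivAt)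
  rw [h2.fderiv] at h1
  simp only [_root_.add_apply, _root_.smul_apply, _root_.neg_apply, smul_eq_mul] at h1
  rw [fderiv_inner_apply ℝ (diff_app_const (S.cf hx) v) (S.dT_diff hx),
    fderiv_app_const (S.cf hx), S.dκ x hx, S.dκ x hx, inner_sub_right, inner_sub_right,
    inner_smul_right, inner_smul_right, S.T_T hx, S.T_DT hx, S.T_DN hx] at h1
  have h3 := S.T_DT hx v
  rw [S.fderiv_T hx, inner_add_right, S.D2_symm hx] at h3
  have h4 : inner ℝ (fderiv ℝ S.f x (S.e x)) (fderiv ℝ S.f x (S.e x)) = 1 := S.TT x hx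
  rw [h4] at h1
  rw [inner_add_left, inner_smul_left]
  simp only [conj_trivial]
  have h5 : inner ℝ (fderiv ℝ S.f x (S.e x)) (fderiv ℝ S.f x v)
      = inner ℝ (fderiv ℝ S.f x v) (S.T x) := real_inner_comm _ _
  rw [h5, real_inner_comm (fderiv ℝ S.N x v) (fderiv ℝ S.T x (S.e x))] at h1
  rw [real_inner_comm (fderiv ℝ S.f x (fderiv ℝ S.e x v)) (S.T x),
    real_inner_comm (fderiv ℝ (fderiv ℝ S.f) x (S.e x) v) (S.T x)] at h3
  simp only [Pi.neg_apply] at h1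
  linear_combination h1 - S.κ x * h3


/-- `V = D_e T + f - κ N` -/
noncomputable def V : Xm m → Em m := fun x => fderiv ℝ S.T x (S.e x) + S.f x - S.κ x • S.N x

theorem f_V {x : Xm m} (hx : x ∈ S.U) : inner ℝ (S.f x) (S.V x) = 0 := by
  unfold V
  have h1 : inner ℝ (S.T x) (fderiv ℝ S.f x (S.e x)) = 1 := S.TT x hx
  have h2 : inner ℝ (S.f x) (S.N x) = 0 := by rw [real_inner_comm]; exact S.Nf x hx
  rw [inner_sub_right, inner_add_right, S.f_DT hx, S.ff x hx, inner_smul_right, h1, h2]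
  ring

theorem N_V {x : Xm m} (hx : x ∈ S.U) : inner ℝ (S.N x) (S.V x) = 0 := by
  unfold V
  have h1 : inner ℝ (S.T x) (fderiv ℝ S.f x (S.e x)) = 1 := S.TT x hx
  rw [inner_sub_right, inner_add_right, S.N_DT hx, S.Nf x hx, inner_smul_right, h1, S.NN x hx]
  ring

theorem T_V {x : Xm m} (hx : x ∈ S.U) : inner ℝ (S.T x) (S.V x) = 0 := by
  unfold V
  have h1 : inner ℝ (S.T x) (S.f x) = 0 := by rw [real_inner_comm]; exact S.f_T hx
  have h2 : inner ℝ (S.T x) (S.N x) = 0 := by rw [real_inner_comm]; exact S.N_T hx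
  rw [inner_sub_right, inner_add_right, S.T_DT hx, inner_smul_right, h1, h2]
  ring

theorem codazzi {x : Xm m} (hx : x ∈ S.U) (v : Xm m) :
    inner ℝ (fderiv ℝ S.N x v + S.κ x • fderiv ℝ S.f x v) (S.V x) = 0 := by
  have h0 := S.codazzi0 hx v
  have h1 : inner ℝ (fderiv ℝ S.N x v + S.κ x • fderiv ℝ S.f x v) (S.f x) = 0 := by
    rw [real_inner_comm, inner_add_right, inner_smul_right, S.f_DN hx, S.f_Df hx]
    ring
  have h2 : inner ℝ (fderiv ℝ S.N x v + S.κ x • fderiv ℝ S.f x v) (S.N x) = 0 := by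
    rw [real_inner_comm, inner_add_right, inner_smul_right, S.N_DN hx, S.NDf x hx]
    ring
  unfold V
  rw [inner_sub_right, inner_add_right, h0, h1, inner_smul_right, h2]
  ring

/-- the integral curves of `e` are geodesics -/
theorem V_zero {x : Xm m} (hx : x ∈ S.U) : S.V x = 0 := by
  obtain ⟨v, hv⟩ := S.span x hx (S.V x) (S.f_V hx) (S.N_V hx)
  -- `D_v N = - κ V`
  have hW : fderiv ℝ S.N x v + S.κ x • fderiv ℝ S.f x v = 0 := by
    apply S.eq_zero_of_orth hx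
    · rw [inner_add_right, inner_smul_right, S.f_DN hx, S.f_Df hx]
      ring
    · rw [inner_add_right, inner_smul_right, S.N_DN hx, S.NDf x hx]
      ring
    · intro u
      rw [inner_add_right, inner_smul_right, S.Df_DN_symm hx, hv]
      have h1 := S.codazzi hx u
      rw [inner_add_left, inner_smul_left] at h1
      simp only [conj_trivial] at h1
      rw [← h1, real_inner_comm (fderiv ℝ S.N x u) (S.V x)]
  -- differentiate `⟨D_v N + κ D_v f, V⟩ = 0` along `e`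
  have hVd : DifferentiableAt ℝ S.V x :=
    ((hasFDerivAt_app (S.cT hx) (S.de_diff hx)).differentiableAt.add (S.df_diff hx)).sub
      ((S.dk_diff hx).smul (S.dN_diff hx))
  have hWd : HasFDerivAt (fun y => fderiv ℝ S.N y v + S.κ y • fderiv ℝ S.f y v) _ x :=
    (diff_app_const (S.cN hx) v).hasFDerivAt.add
      ((S.dk_diff hx).hasFDerivAt.smul (diff_app_const (S.cf hx) v).hasFDerivAt)
  have h1 := fderiv_inner_apply ℝ hWd.differentiableAt hVd (S.e x)
  have h2 := S.deriv_const hx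
    (fun y => inner ℝ (fderiv ℝ S.N y v + S.κ y • fderiv ℝ S.f y v) (S.V y)) 0
    (fun y hy => S.codazzi hy v)
  rw [h2, hW, inner_zero_left, zero_add, hWd.fderiv] at h1
  simp only [_root_.add_apply, _root_.smul_apply, ContinuousLinearMap.smulRight_apply,
    _root_.zero_apply] at h1
  rw [fderiv_app_const (S.cN hx), fderiv_app_const (S.cf hx), snd_symm (S.cN hx),
    S.DDN_e hx, hv, S.dκ x hx v, S.dκ x hx (S.e x), S.TT x hx, mul_one] at h1
  have h3 := S.codazzi hx (fderiv ℝ S.e x v)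
  rw [inner_add_left, inner_smul_left] at h3
  simp only [conj_trivial] at h3
  rw [S.fderiv_T hx, S.D2_symm hx] at h1
  simp only [inner_add_left, inner_sub_left, inner_smul_left, conj_trivial,
    S.T_V hx] at h1
  have h4 : S.r x * inner ℝ (S.V x) (S.V x) = 0 := by
    linear_combination -h1 + h3
  have h5 : inner ℝ (S.V x) (S.V x) = 0 := (mul_eq_zero.1 h4).resolve_left (S.r0 x hx)
  exact inner_self_eq_zero.1 h5

/-- (G1) the integral curves of `e` are geodesics: `D_e T = -f + κ N`.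
Proof on paper: section 1b of the paper proof. -/
theorem DeT : ∀ x ∈ S.U, fderiv ℝ S.T x (S.e x) = - S.f x + S.κ x • S.N x := by
  intro x hx
  have h := S.V_zero hx
  unfold V at h
  have h1 : fderiv ℝ S.T x (S.e x) = (fderiv ℝ S.T x (S.e x) + S.f x - S.κ x • S.N x)
      - S.f x + S.κ x • S.N x := by abel
  rw [h1, h]
  abel

/-! ### the right inverse `ξ` -/

/-- the right inverse in coordinates -/
noncomputable def xi0 (η : Em m) : Xm m → Xm m := fun x i =>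
  ∑ j, (S.g x)⁻¹ i j * inner ℝ (fderiv ℝ S.f x (Pi.single j (1 : ℝ) : Xm m)) η - S.e x i * inner ℝ (S.T x) η

theorem g_smooth (i j : Fin m) : ContDiffOn ℝ smth (fun x => S.g x i j) S.U := by
  intro x hx
  exact (((S.cDf hx).clm_apply contDiffAt_const).inner ℝ
    ((S.cDf hx).clm_apply contDiffAt_const)).contDiffWithinAt

theorem ginv_smooth (i j : Fin m) : ContDiffOn ℝ smth (fun x => (S.g x)⁻¹ i j) S.U :=
  Geo3.inv_smooth (fun i j => S.g_smooth i j) (fun _ hx => (S.g_det_pos hx).ne') i j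

theorem xi0_smooth (η : Em m) : ContDiffOn ℝ smth (S.xi0 η) S.U := by
  rw [contDiffOn_pi]
  intro i
  unfold xi0
  refine ContDiffOn.sub (ContDiffOn.sum fun j _ => (S.ginv_smooth i j).mul ?_) ?_
  · intro x hx
    exact (((S.cDf hx).clm_apply contDiffAt_const).inner ℝ contDiffAt_const).contDiffWithinAt
  · refine ContDiffOn.mul ((contDiffOn_pi.1 S.he) i) ?_
    intro x hx
    exact ((S.cT hx).inner ℝ contDiffAt_const).contDiffWithinAt

theorem inner_P {x : Xm m} (η w : Em m) : inner ℝ w (S.P η x) = inner ℝ w η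
    - inner ℝ (S.f x) η * inner ℝ w (S.f x) - inner ℝ (S.T x) η * inner ℝ w (S.T x)
    - inner ℝ (S.N x) η * inner ℝ w (S.N x) := by
  unfold P
  rw [inner_sub_right, inner_sub_right, inner_sub_right, inner_smul_right, inner_smul_right,
    inner_smul_right]

theorem T_f {x : Xm m} (hx : x ∈ S.U) : inner ℝ (S.T x) (S.f x) = 0 := by
  rw [real_inner_comm]; exact S.f_T hx

theorem T_N {x : Xm m} (hx : x ∈ S.U) : inner ℝ (S.T x) (S.N x) = 0 := by
  rw [real_inner_comm]; exact S.N_T hx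

theorem f_N {x : Xm m} (hx : x ∈ S.U) : inner ℝ (S.f x) (S.N x) = 0 := by
  rw [real_inner_comm]; exact S.Nf x hx

theorem f_P {x : Xm m} (hx : x ∈ S.U) (η : Em m) : inner ℝ (S.f x) (S.P η x) = 0 := by
  rw [S.inner_P, S.ff x hx, S.f_T hx, S.f_N hx]; ring

theorem T_P {x : Xm m} (hx : x ∈ S.U) (η : Em m) : inner ℝ (S.T x) (S.P η x) = 0 := by
  rw [S.inner_P, S.T_f hx, S.T_T hx, S.T_N hx]; ring

theorem N_P {x : Xm m} (hx : x ∈ S.U) (η : Em m) : inner ℝ (S.N x) (S.P η x) = 0 := by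
  rw [S.inner_P, S.Nf x hx, S.N_T hx, S.NN x hx]; ring

/-- `P` fixes the vectors orthogonal to `f`, `T`, `N` -/
theorem P_of_orth {x : Xm m} {w : Em m} (h1 : inner ℝ (S.f x) w = 0) (h2 : inner ℝ (S.T x) w = 0)
    (h3 : inner ℝ (S.N x) w = 0) : S.P w x = w := by
  unfold P
  rw [h1, h2, h3]
  simp

theorem P_P {x : Xm m} (hx : x ∈ S.U) (η : Em m) : S.P (S.P η x) x = S.P η x :=
  S.P_of_orth (S.f_P hx η) (S.T_P hx η) (S.N_P hx η)

theorem Df_xi0 {x : Xm m} (hx : x ∈ S.U) (η : Em m) : fderiv ℝ S.f x (S.xi0 η x) = S.P η x := by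
  set w : Xm m := fun i => ∑ j, (S.g x)⁻¹ i j * inner ℝ (fderiv ℝ S.f x (Pi.single j (1 : ℝ) : Xm m)) η with hw
  have h0 : S.xi0 η x = w - inner ℝ (S.T x) η • S.e x := by
    funext i
    simp only [xi0, hw, Pi.sub_apply, Pi.smul_apply, smul_eq_mul]
    ring
  have h1 : ∀ k, inner ℝ (fderiv ℝ S.f x (Pi.single k (1 : ℝ) : Xm m)) (fderiv ℝ S.f x w)
      = inner ℝ (fderiv ℝ S.f x (Pi.single k (1 : ℝ) : Xm m)) η := by
    intro k
    rw [← S.g_mulVec x w k]
    have h2 : w = (S.g x)⁻¹.mulVec (fun j => inner ℝ (fderiv ℝ S.f x (Pi.single j (1 : ℝ) : Xm m)) η) := by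
      funext i; rfl
    rw [h2, Matrix.mulVec_mulVec, S.g_mul_inv hx, Matrix.one_mulVec]
  have h2 : fderiv ℝ S.f x w - (S.P η x + inner ℝ (S.T x) η • S.T x) = 0 := by
    apply S.eq_zero_of_orth hx
    · rw [inner_sub_right, inner_add_right, inner_smul_right, S.f_Df hx, S.f_P hx, S.f_T hx]
      ring
    · rw [inner_sub_right, inner_add_right, inner_smul_right, S.NDf x hx, S.N_P hx, S.N_T hx]
      ring
    · intro v
      have h3 : inner ℝ (fderiv ℝ S.f x v) (fderiv ℝ S.f x w) = inner ℝ (fderiv ℝ S.f x v) η := by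
        rw [lin_ee (fderiv ℝ S.f x) v, sum_inner, sum_inner]
        refine Finset.sum_congr rfl fun i _ => ?_
        rw [inner_smul_left, inner_smul_left, h1 i]
      have h4 : inner ℝ (fderiv ℝ S.f x v) (S.f x) = 0 := by
        rw [real_inner_comm]; exact S.f_Df hx v
      have h5 : inner ℝ (fderiv ℝ S.f x v) (S.N x) = 0 := by
        rw [real_inner_comm]; exact S.NDf x hx v
      rw [inner_sub_right, inner_add_right, inner_smul_right, S.inner_P, h3, h4, h5]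
      ring
  rw [h0, map_sub, map_smul]
  have h3 : fderiv ℝ S.f x w = S.P η x + inner ℝ (S.T x) η • S.T x := by
    rw [← sub_eq_zero]; exact h2
  rw [h3]
  unfold T
  abel

/-- (G2) a smooth right inverse `ξ η x` of `df x`, defined on the image of the projection `P x`. -/
theorem exists_xi : ∃ ξ : Em m → Xm m → Xm m,
    (∀ η, ContDiffOn ℝ smth (ξ η) S.U) ∧
    (∀ x ∈ S.U, ∀ η, fderiv ℝ S.f x (ξ η x) = S.P η x) ∧
    (∀ x ∈ S.U, ∀ η ζ, ξ (η + ζ) x = ξ η x + ξ ζ x) ∧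
    (∀ x ∈ S.U, ∀ (c : ℝ) η, ξ (c • η) x = c • ξ η x) := by
  refine ⟨S.xi0, S.xi0_smooth, fun x hx η => S.Df_xi0 hx η, fun x _ η ζ => ?_,
    fun x _ c η => ?_⟩
  · funext i
    simp only [xi0, inner_add_right, Pi.add_apply, mul_add, Finset.sum_add_distrib]
    ring
  · funext i
    simp only [xi0, inner_smul_right, Pi.smul_apply, smul_eq_mul, mul_sub, Finset.mul_sum]
    congr 1
    · refine Finset.sum_congr rfl fun j _ => by ring
    · ring

/-- the chosen right inverse -/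
noncomputable def xi : Em m → Xm m → Xm m := S.exists_xi.choose

/-- `⟨η, A ζ⟩`, `A = shape operator on the level set` -/
noncomputable def a (η ζ : Em m) : Xm m → ℝ := fun x => - inner ℝ η (fderiv ℝ S.N x (S.xi ζ x))

/-- `⟨η, B ζ⟩`, `B = ∇ e` on the level set -/
noncomputable def b (η ζ : Em m) : Xm m → ℝ := fun x => inner ℝ η (fderiv ℝ S.T x (S.xi ζ x))

theorem xi_smooth (η : Em m) : ContDiffOn ℝ smth (S.xi η) S.U := S.exists_xi.choose_spec.1 η

theorem Df_xi {x : Xm m} (hx : x ∈ S.U) (η : Em m) : fderiv ℝ S.f x (S.xi η x) = S.P η x :=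
  S.exists_xi.choose_spec.2.1 x hx η

theorem xi_add {x : Xm m} (hx : x ∈ S.U) (η ζ : Em m) : S.xi (η + ζ) x = S.xi η x + S.xi ζ x :=
  S.exists_xi.choose_spec.2.2.1 x hx η ζ

theorem xi_smul {x : Xm m} (hx : x ∈ S.U) (c : ℝ) (η : Em m) : S.xi (c • η) x = c • S.xi η x :=
  S.exists_xi.choose_spec.2.2.2 x hx c η

theorem xi_diff {x : Xm m} (hx : x ∈ S.U) (η : Em m) : DifferentiableAt ℝ (S.xi η) x :=
  ((S.xi_smooth η).contDiffAt (S.hU.mem_nhds hx)).differentiableAt smth_ne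

theorem Df_inj {x : Xm m} (hx : x ∈ S.U) {u v : Xm m}
    (h : fderiv ℝ S.f x u = fderiv ℝ S.f x v) : u = v := by
  rw [← sub_eq_zero]
  apply S.inj x hx
  rw [map_sub, h, sub_self]

theorem a_smooth (η ζ : Em m) : ContDiffOn ℝ smth (S.a η ζ) S.U := by
  intro x hx
  have h1 : ContDiffAt ℝ smth (fun y => fderiv ℝ S.N y (S.xi ζ y)) x :=
    ((S.cN hx).fderiv_right (m := smth) (by simp [smth])).clm_apply
      ((S.xi_smooth ζ).contDiffAt (S.hU.mem_nhds hx))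
  exact (contDiffAt_const.inner ℝ h1).neg.contDiffWithinAt

theorem b_smooth (η ζ : Em m) : ContDiffOn ℝ smth (S.b η ζ) S.U := by
  intro x hx
  have h1 : ContDiffAt ℝ smth (fun y => fderiv ℝ S.T y (S.xi ζ y)) x :=
    ((S.cT hx).fderiv_right (m := smth) (by simp [smth])).clm_apply
      ((S.xi_smooth ζ).contDiffAt (S.hU.mem_nhds hx))
  exact (contDiffAt_const.inner ℝ h1).contDiffWithinAt

/-- `L P = 0`, vector form -/
theorem hasFDerivAt_P {x : Xm m} (hx : x ∈ S.U) (ζ : Em m) :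
    DifferentiableAt ℝ (S.P ζ) x ∧ fderiv ℝ (S.P ζ) x (S.e x) = 0 := by
  have hf := (S.df_diff hx).hasFDerivAt
  have hT := (S.dT_diff hx).hasFDerivAt
  have hN := (S.dN_diff hx).hasFDerivAt
  have hc : HasFDerivAt (fun _ : Xm m => ζ) (0 : Xm m →L[ℝ] Em m) x := hasFDerivAt_const ζ x
  have h1 : HasFDerivAt (S.P ζ) _ x :=
    ((hc.sub ((hf.inner ℝ hc).smul hf)).sub ((hT.inner ℝ hc).smul hT)).sub
      ((hN.inner ℝ hc).smul hN)
  refine ⟨h1.differentiableAt, ?_⟩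
  rw [h1.fderiv]
  have hfe : fderiv ℝ S.f x (S.e x) = S.T x := rfl
  simp only [_root_.sub_apply, _root_.add_apply, _root_.smul_apply,
    ContinuousLinearMap.smulRight_apply, ContinuousLinearMap.comp_apply,
    ContinuousLinearMap.prod_apply, fderivInnerCLM_apply, _root_.zero_apply,
    inner_zero_right, zero_add, S.DeT x hx, S.DNe x hx, hfe, inner_add_left, inner_neg_left,
    inner_smul_left, conj_trivial]
  module

/-- (G3) `L P = 0` -/
theorem LD_P (η ζ : Em m) : ∀ x ∈ S.U, LD S.e (fun y => inner ℝ η (S.P ζ y)) x = 0 := by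
  intro x hx
  obtain ⟨h1, h2⟩ := S.hasFDerivAt_P hx ζ
  unfold LD
  rw [fderiv_inner_apply ℝ (differentiableAt_const η) h1, h2]
  simp

/-- `B ζ` is in the image of `P` -/
theorem P_DT {x : Xm m} (hx : x ∈ S.U) (ζ : Em m) :
    S.P (fderiv ℝ S.T x (S.xi ζ x)) x = fderiv ℝ S.T x (S.xi ζ x) := by
  apply S.P_of_orth
  · rw [S.f_DT hx, S.Df_xi hx, S.T_P hx, neg_zero]
  · exact S.T_DT hx _
  · rw [S.N_DT hx, S.Df_xi hx, S.T_P hx, mul_zero]

theorem P_DN {x : Xm m} (hx : x ∈ S.U) (ζ : Em m) :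
    S.P (fderiv ℝ S.N x (S.xi ζ x)) x = fderiv ℝ S.N x (S.xi ζ x) := by
  apply S.P_of_orth
  · exact S.f_DN hx _
  · rw [S.T_DN hx, S.Df_xi hx, real_inner_comm, S.T_P hx, mul_zero]
  · exact S.N_DN hx _

/-- `ξ` of a sum -/
theorem xi_expand {x : Xm m} (hx : x ∈ S.U) (o : OrthonormalBasis (Fin (m + 2)) ℝ (Em m))
    (w : Em m) : S.xi w x = ∑ k, inner ℝ (o k) w • S.xi (o k) x := by
  let ξl : Em m →ₗ[ℝ] Xm m :=
    { toFun := fun η => S.xi η x
      map_add' := fun η ζ => S.xi_add hx η ζ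
      map_smul' := fun c η => S.xi_smul hx c η }
  have h1 : ∀ η, S.xi η x = ξl η := fun η => rfl
  simp only [h1]
  conv_lhs => rw [← o.sum_repr' w]
  rw [map_sum]
  refine Finset.sum_congr rfl fun k _ => ?_
  rw [map_smul]

/-- the commutator `[e, ξ ζ]` -/
theorem bracket {x : Xm m} (hx : x ∈ S.U) (ζ : Em m) :
    fderiv ℝ (S.xi ζ) x (S.e x) - fderiv ℝ S.e x (S.xi ζ x)
      = - S.xi (fderiv ℝ S.T x (S.xi ζ x)) x := by
  have h1 := comm_fields (S.cf hx) (S.xi_diff hx ζ) (S.de_diff hx)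
  have h2 : fderiv ℝ (fun y => fderiv ℝ S.f y (S.xi ζ y)) x (S.e x) = 0 := by
    rw [S.fderiv_congr hx (fun y hy => S.Df_xi hy ζ)]
    exact (S.hasFDerivAt_P hx ζ).2
  rw [h2] at h1
  apply S.Df_inj hx
  rw [map_neg, S.Df_xi hx, S.P_DT hx]
  have h3 : fderiv ℝ (fun y => fderiv ℝ S.f y (S.e y)) x (S.xi ζ x)
      = fderiv ℝ S.T x (S.xi ζ x) := rfl
  rw [h3] at h1
  exact eq_neg_of_add_eq_zero_right h1.symm

/-- derivative of `DF(ξ ζ)` along `e` -/
theorem LD_app {x : Xm m} (hx : x ∈ S.U) (o : OrthonormalBasis (Fin (m + 2)) ℝ (Em m))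
    {F G : Xm m → Em m} (hF : ContDiffAt ℝ smth F x)
    (hG : ∀ y ∈ S.U, fderiv ℝ F y (S.e y) = G y) (ζ : Em m) :
    fderiv ℝ (fun y => fderiv ℝ F y (S.xi ζ y)) x (S.e x) = fderiv ℝ G x (S.xi ζ x)
      - ∑ k, S.b (o k) ζ x • fderiv ℝ F x (S.xi (o k) x) := by
  rw [comm_fields hF (S.xi_diff hx ζ) (S.de_diff hx), S.bracket hx, S.fderiv_congr hx hG,
    S.xi_expand hx o (fderiv ℝ S.T x (S.xi ζ x)), map_neg, map_sum, ← sub_eq_add_neg]
  congr 1
  refine Finset.sum_congr rfl fun k _ => ?_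
  rw [map_smul]
  rfl

theorem dk_xi {x : Xm m} (hx : x ∈ S.U) (ζ : Em m) : fderiv ℝ S.κ x (S.xi ζ x) = 0 := by
  rw [S.dκ x hx, S.Df_xi hx]
  have h := S.T_P hx ζ
  unfold T at h
  rw [h, mul_zero]

/-- (G4) `L A = κ B - A B`, entrywise in an orthonormal basis -/
theorem LD_a (o : OrthonormalBasis (Fin (m + 2)) ℝ (Em m)) (η ζ : Em m) : ∀ x ∈ S.U,
    LD S.e (S.a η ζ) x = S.κ x * S.b η ζ x - ∑ k, S.a η (o k) x * S.b (o k) ζ x := by
  intro x hx
  have h1 := S.LD_app hx o (F := S.N) (G := fun y => -(S.κ y) • S.T y) (S.cN hx) S.DNe ζ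
  have hd : DifferentiableAt ℝ (fun y => fderiv ℝ S.N y (S.xi ζ y)) x :=
    (hasFDerivAt_app (S.cN hx) (S.xi_diff hx ζ)).differentiableAt
  have h2 : HasFDerivAt (fun y => -(S.κ y) • S.T y) _ x :=
    (S.dk_diff hx).hasFDerivAt.neg.smul (S.dT_diff hx).hasFDerivAt
  have h3 : LD S.e (S.a η ζ) x
      = - inner ℝ η (fderiv ℝ (fun y => fderiv ℝ S.N y (S.xi ζ y)) x (S.e x)) := by
    unfold LD a
    have h4 : HasFDerivAt (fun y => - inner ℝ η (fderiv ℝ S.N y (S.xi ζ y))) _ x :=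
      ((differentiableAt_const η).inner ℝ hd).hasFDerivAt.neg
    rw [h4.fderiv, _root_.neg_apply, fderiv_inner_apply ℝ (differentiableAt_const η) hd]
    simp
  rw [h3, h1, h2.fderiv]
  simp only [_root_.add_apply, _root_.smul_apply, ContinuousLinearMap.smulRight_apply,
    _root_.neg_apply, Pi.neg_apply, S.dk_xi hx, neg_zero, zero_smul, add_zero, inner_sub_right,
    inner_smul_right, inner_sum, a, b]
  rw [neg_sub, sub_eq_iff_eq_add]
  have h5 : ∑ k, -inner ℝ η (fderiv ℝ S.N x (S.xi (o k) x))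
      * inner ℝ (o k) (fderiv ℝ S.T x (S.xi ζ x))
      = - ∑ k, inner ℝ (o k) (fderiv ℝ S.T x (S.xi ζ x))
        * inner ℝ η (fderiv ℝ S.N x (S.xi (o k) x)) := by
    rw [← Finset.sum_neg_distrib]
    refine Finset.sum_congr rfl fun k _ => by ring
  rw [h5]
  ring

/-- (G5) `L B = - P - κ A - B²`, entrywise in an orthonormal basis -/
theorem LD_b (o : OrthonormalBasis (Fin (m + 2)) ℝ (Em m)) (η ζ : Em m) : ∀ x ∈ S.U,
    LD S.e (S.b η ζ) x = - inner ℝ η (S.P ζ x) - S.κ x * S.a η ζ x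
      - ∑ k, S.b η (o k) x * S.b (o k) ζ x := by
  intro x hx
  have h1 := S.LD_app hx o (F := S.T) (G := fun y => - S.f y + S.κ y • S.N y) (S.cT hx) S.DeT ζ
  have hd : DifferentiableAt ℝ (fun y => fderiv ℝ S.T y (S.xi ζ y)) x :=
    (hasFDerivAt_app (S.cT hx) (S.xi_diff hx ζ)).differentiableAt
  have h2 : HasFDerivAt (fun y => - S.f y + S.κ y • S.N y) _ x :=
    (S.df_diff hx).hasFDerivAt.neg.add
      ((S.dk_diff hx).hasFDerivAt.smul (S.dN_diff hx).hasFDerivAt)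
  have h3 : LD S.e (S.b η ζ) x
      = inner ℝ η (fderiv ℝ (fun y => fderiv ℝ S.T y (S.xi ζ y)) x (S.e x)) := by
    unfold LD b
    rw [fderiv_inner_apply ℝ (differentiableAt_const η) hd]
    simp
  rw [h3, h1, h2.fderiv]
  simp only [_root_.add_apply, _root_.smul_apply, ContinuousLinearMap.smulRight_apply,
    _root_.neg_apply, S.dk_xi hx, zero_smul, add_zero, inner_sub_right,
    inner_add_right, inner_neg_right, S.Df_xi hx,
    inner_smul_right, inner_sum, a, b]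
  have h5 : ∑ k, inner ℝ η (fderiv ℝ S.T x (S.xi (o k) x))
      * inner ℝ (o k) (fderiv ℝ S.T x (S.xi ζ x))
      = ∑ k, inner ℝ (o k) (fderiv ℝ S.T x (S.xi ζ x))
        * inner ℝ η (fderiv ℝ S.T x (S.xi (o k) x)) := by
    refine Finset.sum_congr rfl fun k _ => by ring
  rw [h5]
  ring

theorem inner_P_symm {x : Xm m} (η w : Em m) : inner ℝ (S.P η x) w = inner ℝ η (S.P w x) := by
  rw [real_inner_comm, S.inner_P, S.inner_P, real_inner_comm w η, real_inner_comm (S.f x) η,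
    real_inner_comm (S.T x) η, real_inner_comm (S.N x) η, real_inner_comm (S.f x) w,
    real_inner_comm (S.T x) w, real_inner_comm (S.N x) w]
  ring

theorem a_eq {x : Xm m} (hx : x ∈ S.U) (η ζ : Em m) : S.a η ζ x
    = - inner ℝ (fderiv ℝ S.f x (S.xi η x)) (fderiv ℝ S.N x (S.xi ζ x)) := by
  rw [S.Df_xi hx, S.inner_P_symm, S.P_DN hx]
  rfl

theorem b_eq {x : Xm m} (hx : x ∈ S.U) (η ζ : Em m) : S.b η ζ x
    = inner ℝ (fderiv ℝ S.f x (S.xi η x)) (fderiv ℝ S.T x (S.xi ζ x)) := by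
  rw [S.Df_xi hx, S.inner_P_symm, S.P_DT hx]
  rfl

/-- (G6) symmetry -/
theorem a_symm (η ζ : Em m) : ∀ x ∈ S.U, S.a η ζ x = S.a ζ η x := by
  intro x hx
  rw [S.a_eq hx, S.a_eq hx, S.Df_DN_symm hx]

theorem Df_DT_symm {x : Xm m} (hx : x ∈ S.U) (u v : Xm m)
    (hu : inner ℝ (S.T x) (fderiv ℝ S.f x u) = 0) (hv : inner ℝ (S.T x) (fderiv ℝ S.f x v) = 0) :
    inner ℝ (fderiv ℝ S.f x u) (fderiv ℝ S.T x v)
      = inner ℝ (fderiv ℝ S.f x v) (fderiv ℝ S.T x u) := by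
  have key : ∀ u v : Xm m, inner ℝ (S.T x) (fderiv ℝ S.f x v) = 0 →
      fderiv ℝ (fderiv ℝ S.κ) x u v = S.r x * (inner ℝ (S.T x) (fderiv ℝ (fderiv ℝ S.f) x u v)
        + inner ℝ (fderiv ℝ S.f x v) (fderiv ℝ S.T x u)) := by
    intro u v hv
    have h1 : fderiv ℝ (fun y => fderiv ℝ S.κ y v) x u
        = fderiv ℝ (fun y => S.r y * inner ℝ (S.T y) (fderiv ℝ S.f y v)) x u := by
      rw [S.fderiv_congr hx (fun y hy => S.dκ y hy v)]
      rfl
    rw [fderiv_app_const (S.ck hx)] at h1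
    have h2 : HasFDerivAt (fun y => S.r y * inner ℝ (S.T y) (fderiv ℝ S.f y v)) _ x :=
      (S.dr_diff hx).hasFDerivAt.mul
        (((S.dT_diff hx).inner ℝ (diff_app_const (S.cf hx) v)).hasFDerivAt)
    rw [h1, h2.fderiv]
    simp only [_root_.add_apply, _root_.smul_apply, smul_eq_mul]
    rw [fderiv_inner_apply ℝ (S.dT_diff hx) (diff_app_const (S.cf hx) v), hv,
      fderiv_app_const (S.cf hx), real_inner_comm (fderiv ℝ S.f x v)]
    ring
  have h1 := key u v hv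
  have h2 := key v u hu
  rw [snd_symm (S.ck hx) v u, h2, S.D2_symm hx v u] at h1
  have h3 := mul_left_cancel₀ (S.r0 x hx) h1
  linarith

theorem b_symm (η ζ : Em m) : ∀ x ∈ S.U, S.b η ζ x = S.b ζ η x := by
  intro x hx
  rw [S.b_eq hx, S.b_eq hx]
  apply S.Df_DT_symm hx
  · rw [S.Df_xi hx, S.T_P hx]
  · rw [S.Df_xi hx, S.T_P hx]

theorem xi_P {x : Xm m} (hx : x ∈ S.U) (ζ : Em m) : S.xi (S.P ζ x) x = S.xi ζ x := by
  apply S.Df_inj hx
  rw [S.Df_xi hx, S.Df_xi hx, S.P_P hx]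

/-- (G7) `A` and `B` live on the level set: `A P = A`, `B P = B` (hence also `P A = A` by symmetry) -/
theorem a_P (η ζ : Em m) : ∀ x ∈ S.U, S.a η (S.P ζ x) x = S.a η ζ x := by
  intro x hx
  unfold a
  rw [S.xi_P hx]

theorem b_P (η ζ : Em m) : ∀ x ∈ S.U, S.b η (S.P ζ x) x = S.b η ζ x := by
  intro x hx
  unfold b
  rw [S.xi_P hx]

/-- (G8) `A` and `B` commute (because `L A = κ B - A B` is symmetric) -/
theorem a_b_comm (o : OrthonormalBasis (Fin (m + 2)) ℝ (Em m)) (η ζ : Em m) : ∀ x ∈ S.U,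
    ∑ k, S.a η (o k) x * S.b (o k) ζ x = ∑ k, S.b η (o k) x * S.a (o k) ζ x := by
  intro x hx
  have h1 := S.LD_a o η ζ x hx
  have h2 := S.LD_a o ζ η x hx
  have h3 : LD S.e (S.a η ζ) x = LD S.e (S.a ζ η) x := by
    unfold LD
    rw [S.fderiv_congr hx (S.a_symm η ζ)]
  rw [h3, h2, S.b_symm ζ η x hx] at h1
  have h4 : ∑ k, S.a ζ (o k) x * S.b (o k) η x = ∑ k, S.b η (o k) x * S.a (o k) ζ x := by
    refine Finset.sum_congr rfl fun k _ => ?_
    rw [S.a_symm ζ (o k) x hx, S.b_symm (o k) η x hx]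
    ring
  rw [h4] at h1
  linarith

end Setup

end BH
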