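import Mathlib
import Pool.Agent.Lib_helper71.BH.Geo1

set_option autoImplicit false

namespace BH

open Matrix

/-- Jacobi's formula: derivative of the determinant. -/
theorem hasFDerivAt_det {X : Type*} [NormedAddCommGroup X] [NormedSpace ℝ X] {n : Type*}
    [Fintype n] [DecidableEq n] (A : X → Matrix n n ℝ) (A' : n → n → X →L[ℝ] ℝ) (x : X)
    (h : ∀ i j, HasFDerivAt (fun y => A y i j) (A' i j) x) :
    HasFDerivAt (fun y => (A y).det) (∑ i, ∑ k, ((A x).adjugate i k) • A' k i) x := by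
  have h1 : HasFDerivAt (fun y => (A y).det)
      (∑ σ : Equiv.Perm n, ((Equiv.Perm.sign σ : ℤ) : ℝ) •
        ∑ i : n, (∏ j ∈ Finset.univ.erase i, A x (σ j) j) • A' (σ i) i) x := by
    have h2 : (fun y => (A y).det) = fun y => ∑ σ : Equiv.Perm n,
        ((Equiv.Perm.sign σ : ℤ) : ℝ) • ∏ i, A y (σ i) i := by
      funext y
      rw [Matrix.det_apply']
      rfl
    rw [h2]
    apply HasFDerivAt.fun_sum
    intro σ _
    exact (HasFDerivAt.finsetProd (fun i _ => h (σ i) i)).const_smul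
      ((Equiv.Perm.sign σ : ℤ) : ℝ)
  refine h1.congr_fderiv ?_
  ext v
  simp only [_root_.sum_apply, _root_.smul_apply, smul_eq_mul]
  have h3 : ∀ i, ∑ k, (A x).adjugate i k * A' k i v =
      ((A x).updateCol i (fun k => A' k i v)).det := by
    intro i
    rw [← Matrix.cramer_apply, Matrix.cramer_eq_adjugate_mulVec]
    rfl
  rw [Finset.sum_congr rfl (fun i _ => h3 i)]
  simp only [Finset.mul_sum]
  rw [Finset.sum_comm]
  refine Finset.sum_congr rfl fun i _ => ?_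
  rw [Matrix.det_apply']
  refine Finset.sum_congr rfl fun σ _ => ?_
  congr 1
  rw [← Finset.mul_prod_erase Finset.univ _ (Finset.mem_univ i)]
  rw [mul_comm]
  congr 1
  · simp
  · refine Finset.prod_congr rfl fun j hj => ?_
    rw [Matrix.updateCol_ne (Finset.ne_of_mem_erase hj)]

namespace Setup

variable {m : ℕ} (S : Setup m)

/-- shape operator (as in the frozen statement) -/
noncomputable def Sh : Xm m → Matrix (Fin m) (Fin m) ℝ := fun x =>
  (S.g x)⁻¹ * Matrix.of (fun i j : Fin m =>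
    inner ℝ (fderiv ℝ (fun y => fderiv ℝ S.f y (Pi.single i (1 : ℝ))) x (Pi.single j (1 : ℝ))) (S.N x))


/-- `ξ` in coordinates -/
theorem xi_apply {x : Xm m} (hx : x ∈ S.U) (η : Em m) (i : Fin m) :
    S.xi η x i = ∑ j, (S.g x)⁻¹ i j * inner ℝ (fderiv ℝ S.f x (Pi.single j (1 : ℝ) : Xm m)) η
      - S.e x i * inner ℝ (S.T x) η := by
  have h1 := S.exists_xi.choose_spec.2.1 x hx η
  change fderiv ℝ S.f x (S.xi η x) = S.P η x at h1
  rw [S.coord hx (S.xi η x) i, h1]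
  have h2 : ∀ j, inner ℝ (fderiv ℝ S.f x (Pi.single j (1 : ℝ) : Xm m)) (S.P η x) =
      inner ℝ (fderiv ℝ S.f x (Pi.single j (1 : ℝ) : Xm m)) η
        - inner ℝ (fderiv ℝ S.f x (Pi.single j (1 : ℝ) : Xm m)) (S.T x) * inner ℝ (S.T x) η := by
    intro j
    unfold P
    rw [inner_sub_right, inner_sub_right, inner_sub_right, inner_smul_right, inner_smul_right,
      inner_smul_right]
    have h3 : inner ℝ (fderiv ℝ S.f x (Pi.single j (1 : ℝ) : Xm m)) (S.f x) = 0 := by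
      rw [real_inner_comm]
      exact S.f_Df hx _
    have h4 : inner ℝ (fderiv ℝ S.f x (Pi.single j (1 : ℝ) : Xm m)) (S.N x) = 0 := by
      rw [real_inner_comm]
      exact S.NDf x hx _
    rw [h3, h4]
    ring
  have h5 := S.coord hx (S.e x) i
  rw [h5, Finset.sum_mul, ← Finset.sum_sub_distrib]
  refine Finset.sum_congr rfl fun j _ => ?_
  rw [h2 j]
  unfold T
  ring

/-- trace formula for a linear map along `ξ` -/
theorem trace_xi (o : OrthonormalBasis (Fin (m + 2)) ℝ (Em m)) {x : Xm m} (hx : x ∈ S.U)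
    (Λ : Xm m →L[ℝ] Em m) :
    ∑ k, inner ℝ (o k) (Λ (S.xi (o k) x)) =
      (∑ i, ∑ j, (S.g x)⁻¹ i j * inner ℝ (fderiv ℝ S.f x (Pi.single j (1 : ℝ) : Xm m)) (Λ (Pi.single i (1 : ℝ) : Xm m)))
        - inner ℝ (S.T x) (Λ (S.e x)) := by
  have h1 : ∀ k, inner ℝ (o k) (Λ (S.xi (o k) x)) =
      (∑ i, ∑ j, (S.g x)⁻¹ i j * (inner ℝ (fderiv ℝ S.f x (Pi.single j (1 : ℝ) : Xm m)) (o k) *
        inner ℝ (o k) (Λ (Pi.single i (1 : ℝ) : Xm m)))) -
      inner ℝ (S.T x) (o k) * inner ℝ (o k) (Λ (S.e x)) := by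
    intro k
    rw [lin_ee Λ (S.xi (o k) x), lin_ee Λ (S.e x), inner_sum, inner_sum, Finset.mul_sum,
      ← Finset.sum_sub_distrib]
    refine Finset.sum_congr rfl fun i _ => ?_
    rw [inner_smul_right, inner_smul_right, S.xi_apply hx, sub_mul, Finset.sum_mul]
    congr 1
    · refine Finset.sum_congr rfl fun j _ => ?_
      ring
    · ring
  rw [Finset.sum_congr rfl (fun k _ => h1 k), Finset.sum_sub_distrib]
  congr 1
  · rw [Finset.sum_comm]
    refine Finset.sum_congr rfl fun i _ => ?_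
    rw [Finset.sum_comm]
    refine Finset.sum_congr rfl fun j _ => ?_
    rw [← Finset.mul_sum, o.sum_inner_mul_inner]
  · rw [o.sum_inner_mul_inner]

theorem e_t {x : Xm m} (hx : x ∈ S.U) (i : Fin m) :
    ∑ j, (S.g x)⁻¹ i j * inner ℝ (fderiv ℝ S.f x (Pi.single j (1 : ℝ) : Xm m)) (S.T x) = S.e x i :=
  (S.coord hx (S.e x) i).symm

/-- (T0) trace of the projection -/
theorem trace_P (o : OrthonormalBasis (Fin (m + 2)) ℝ (Em m)) : ∀ x ∈ S.U,
    ∑ k, inner ℝ (o k) (S.P (o k) x) = (m : ℝ) - 1 := by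
  intro x hx
  have h1 : ∀ k, inner ℝ (o k) (S.P (o k) x) =
      inner ℝ (o k) (fderiv ℝ S.f x (S.xi (o k) x)) := by
    intro k
    rw [show fderiv ℝ S.f x (S.xi (o k) x) = S.P (o k) x from
      S.exists_xi.choose_spec.2.1 x hx (o k)]
  rw [Finset.sum_congr rfl (fun k _ => h1 k), S.trace_xi o hx]
  congr 1
  · have h2 : ∀ i, ∑ j, (S.g x)⁻¹ i j *
        inner ℝ (fderiv ℝ S.f x (Pi.single j (1 : ℝ) : Xm m)) (fderiv ℝ S.f x (Pi.single i (1 : ℝ) : Xm m)) = 1 := by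
      intro i
      have h3 := S.coord hx (Pi.single i (1 : ℝ) : Xm m) i
      rw [← h3]
      simp
    rw [Finset.sum_congr rfl (fun i _ => h2 i)]
    simp
  · exact S.TT x hx

theorem Sh_apply {x : Xm m} (hx : x ∈ S.U) (i l : Fin m) :
    S.Sh x i l = - ∑ j, (S.g x)⁻¹ i j *
      inner ℝ (fderiv ℝ S.f x (Pi.single j (1 : ℝ) : Xm m)) (fderiv ℝ S.N x (Pi.single l (1 : ℝ) : Xm m)) := by
  unfold Sh
  rw [Matrix.mul_apply, ← Finset.sum_neg_distrib]
  refine Finset.sum_congr rfl fun j _ => ?_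
  rw [Matrix.of_apply, S.fderiv_Df hx, S.Df_DN hx]
  ring

/-- (T1) trace of `A` -/
theorem trace_a (o : OrthonormalBasis (Fin (m + 2)) ℝ (Em m)) : ∀ x ∈ S.U,
    ∑ k, S.a (o k) (o k) x = Matrix.trace (S.Sh x) - S.κ x := by
  intro x hx
  unfold a
  rw [Finset.sum_neg_distrib, S.trace_xi o hx, S.DNe x hx]
  have h1 : inner ℝ (S.T x) (-(S.κ x) • fderiv ℝ S.f x (S.e x)) = -(S.κ x) := by
    rw [inner_smul_right]
    change -(S.κ x) * inner ℝ (fderiv ℝ S.f x (S.e x)) (fderiv ℝ S.f x (S.e x)) = _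
    rw [S.TT x hx, mul_one]
  rw [h1, Matrix.trace]
  have h2 : ∀ i, (S.Sh x).diag i = - ∑ j, (S.g x)⁻¹ i j *
      inner ℝ (fderiv ℝ S.f x (Pi.single j (1 : ℝ) : Xm m)) (fderiv ℝ S.N x (Pi.single i (1 : ℝ) : Xm m)) := fun i => S.Sh_apply hx i i
  rw [Finset.sum_congr rfl (fun i _ => h2 i), Finset.sum_neg_distrib]
  ring

/-- `ξ` is linear at a point of `U` -/
theorem xi_sum {x : Xm m} (hx : x ∈ S.U) (o : OrthonormalBasis (Fin (m + 2)) ℝ (Em m))
    (η : Em m) : S.xi η x = ∑ l, inner ℝ (o l) η • S.xi (o l) x := by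
  ext i
  rw [S.xi_apply hx, Finset.sum_apply]
  simp only [Pi.smul_apply, smul_eq_mul]
  have h1 : ∀ l, inner ℝ (o l) η * S.xi (o l) x i =
      ∑ j, (S.g x)⁻¹ i j * (inner ℝ (fderiv ℝ S.f x (Pi.single j (1 : ℝ) : Xm m)) (o l) * inner ℝ (o l) η)
        - S.e x i * (inner ℝ (S.T x) (o l) * inner ℝ (o l) η) := by
    intro l
    rw [S.xi_apply hx, mul_sub, Finset.mul_sum]
    congr 1
    · refine Finset.sum_congr rfl fun j _ => by ring
    · ring
  rw [Finset.sum_congr rfl (fun l _ => h1 l), Finset.sum_sub_distrib, Finset.sum_comm,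
    ← Finset.mul_sum, o.sum_inner_mul_inner]
  congr 1
  refine Finset.sum_congr rfl fun j _ => ?_
  rw [← Finset.mul_sum, o.sum_inner_mul_inner]

/-- `ξ(D_v N)` -/
theorem xi_DN {x : Xm m} (hx : x ∈ S.U) (l i : Fin m) :
    S.xi (fderiv ℝ S.N x (Pi.single l (1 : ℝ) : Xm m)) x i = - S.Sh x i l
      + S.e x i * (S.κ x * inner ℝ (fderiv ℝ S.f x (Pi.single l (1 : ℝ) : Xm m)) (S.T x)) := by
  rw [S.xi_apply hx, S.Sh_apply hx, S.T_DN hx]
  ring

/-- (T2) trace of `A²` -/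
theorem trace_a_sq (o : OrthonormalBasis (Fin (m + 2)) ℝ (Em m)) : ∀ x ∈ S.U,
    ∑ k, ∑ l, S.a (o k) (o l) x * S.a (o l) (o k) x
      = Matrix.trace (S.Sh x * S.Sh x) - S.κ x ^ 2 := by
  intro x hx
  -- `ξ` as a continuous linear map
  let ξl : Em m →ₗ[ℝ] Xm m :=
    { toFun := fun η => S.xi η x
      map_add' := fun η ζ => S.exists_xi.choose_spec.2.2.1 x hx η ζ
      map_smul' := fun c η => S.exists_xi.choose_spec.2.2.2 x hx c η }
  let ξc : Em m →L[ℝ] Xm m := LinearMap.toContinuousLinearMap ξl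
  have hξ : ∀ η, ξc η = S.xi η x := fun η => rfl
  let Λ : Xm m →L[ℝ] Em m := (fderiv ℝ S.N x).comp (ξc.comp (fderiv ℝ S.N x))
  have hΛ : ∀ v, Λ v = fderiv ℝ S.N x (S.xi (fderiv ℝ S.N x v) x) := fun v => rfl
  have h1 : ∀ k, ∑ l, S.a (o k) (o l) x * S.a (o l) (o k) x =
      inner ℝ (o k) (Λ (S.xi (o k) x)) := by
    intro k
    rw [hΛ, S.xi_sum hx o (fderiv ℝ S.N x (S.xi (o k) x)), map_sum, inner_sum]
    refine Finset.sum_congr rfl fun l _ => ?_
    rw [map_smul, inner_smul_right]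
    unfold a
    ring
  rw [Finset.sum_congr rfl (fun k _ => h1 k), S.trace_xi o hx]
  -- the last term vanishes
  have h2 : Λ (S.e x) = 0 := by
    rw [hΛ, S.DNe x hx]
    have h3 : S.xi (-(S.κ x) • fderiv ℝ S.f x (S.e x)) x = 0 := by
      ext i
      rw [S.xi_apply hx]
      have h4 : ∀ j, (S.g x)⁻¹ i j * inner ℝ (fderiv ℝ S.f x (Pi.single j (1 : ℝ) : Xm m))
          (-(S.κ x) • fderiv ℝ S.f x (S.e x)) =
          -(S.κ x) * ((S.g x)⁻¹ i j * inner ℝ (fderiv ℝ S.f x (Pi.single j (1 : ℝ) : Xm m)) (S.T x)) := by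
        intro j
        rw [inner_smul_right]
        unfold T
        ring
      rw [Finset.sum_congr rfl (fun j _ => h4 j), ← Finset.mul_sum, S.e_t hx, inner_smul_right]
      have h5 : inner ℝ (S.T x) (fderiv ℝ S.f x (S.e x)) = 1 := S.TT x hx
      rw [h5, Pi.zero_apply]
      ring
    rw [h3, map_zero]
  rw [h2, inner_zero_right, sub_zero]
  -- the main term
  have h3 : ∀ i, ∑ j, (S.g x)⁻¹ i j * inner ℝ (fderiv ℝ S.f x (Pi.single j (1 : ℝ) : Xm m)) (Λ (Pi.single i (1 : ℝ) : Xm m)) =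
      ∑ l, (S.Sh x i l * S.Sh x l i
        - S.κ x * inner ℝ (fderiv ℝ S.f x (Pi.single i (1 : ℝ) : Xm m)) (S.T x) * (S.Sh x i l * S.e x l)) := by
    intro i
    have h4 : ∀ j, (S.g x)⁻¹ i j * inner ℝ (fderiv ℝ S.f x (Pi.single j (1 : ℝ) : Xm m)) (Λ (Pi.single i (1 : ℝ) : Xm m)) =
        ∑ l, S.xi (fderiv ℝ S.N x (Pi.single i (1 : ℝ) : Xm m)) x l *
          ((S.g x)⁻¹ i j * inner ℝ (fderiv ℝ S.f x (Pi.single j (1 : ℝ) : Xm m)) (fderiv ℝ S.N x (Pi.single l (1 : ℝ) : Xm m))) := by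
      intro j
      rw [hΛ, lin_ee (fderiv ℝ S.N x) (S.xi (fderiv ℝ S.N x (Pi.single i (1 : ℝ) : Xm m)) x), inner_sum,
        Finset.mul_sum]
      refine Finset.sum_congr rfl fun l _ => ?_
      rw [inner_smul_right]
      ring
    rw [Finset.sum_congr rfl (fun j _ => h4 j), Finset.sum_comm]
    refine Finset.sum_congr rfl fun l _ => ?_
    rw [← Finset.mul_sum]
    have h5 := S.Sh_apply hx i l
    have h6 : ∑ j, (S.g x)⁻¹ i j *
      inner ℝ (fderiv ℝ S.f x (Pi.single j (1 : ℝ) : Xm m)) (fderiv ℝ S.N x (Pi.single l (1 : ℝ) : Xm m)) = - S.Sh x i l := by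
      rw [h5]; ring
    rw [h6, S.xi_DN hx]
    ring
  rw [Finset.sum_congr rfl (fun i _ => h3 i)]
  have h4 : ∀ i, ∑ l, S.Sh x i l * S.e x l = S.κ x * S.e x i := by
    intro i
    have h5 : ∀ l, S.Sh x i l * S.e x l = - ∑ j, (S.g x)⁻¹ i j *
        (S.e x l * inner ℝ (fderiv ℝ S.f x (Pi.single j (1 : ℝ) : Xm m)) (fderiv ℝ S.N x (Pi.single l (1 : ℝ) : Xm m))) := by
      intro l
      rw [S.Sh_apply hx, neg_mul, Finset.sum_mul]
      congr 1
      refine Finset.sum_congr rfl fun j _ => by ring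
    rw [Finset.sum_congr rfl (fun l _ => h5 l), Finset.sum_neg_distrib, Finset.sum_comm]
    have h6 : ∀ j, ∑ l, (S.g x)⁻¹ i j *
        (S.e x l * inner ℝ (fderiv ℝ S.f x (Pi.single j (1 : ℝ) : Xm m)) (fderiv ℝ S.N x (Pi.single l (1 : ℝ) : Xm m))) =
        - S.κ x * ((S.g x)⁻¹ i j * inner ℝ (fderiv ℝ S.f x (Pi.single j (1 : ℝ) : Xm m)) (S.T x)) := by
      intro j
      rw [← Finset.mul_sum]
      have h7 : ∑ l, S.e x l * inner ℝ (fderiv ℝ S.f x (Pi.single j (1 : ℝ) : Xm m)) (fderiv ℝ S.N x (Pi.single l (1 : ℝ) : Xm m)) =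
          inner ℝ (fderiv ℝ S.f x (Pi.single j (1 : ℝ) : Xm m)) (fderiv ℝ S.N x (S.e x)) := by
        rw [lin_ee (fderiv ℝ S.N x) (S.e x), inner_sum]
        refine Finset.sum_congr rfl fun l _ => ?_
        rw [inner_smul_right]
      rw [h7, S.DNe x hx, inner_smul_right]
      unfold T
      ring
    rw [Finset.sum_congr rfl (fun j _ => h6 j), ← Finset.mul_sum, S.e_t hx]
    ring
  have h5 : ∀ i, ∑ l, (S.Sh x i l * S.Sh x l i
        - S.κ x * inner ℝ (fderiv ℝ S.f x (Pi.single i (1 : ℝ) : Xm m)) (S.T x) * (S.Sh x i l * S.e x l)) =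
      (S.Sh x * S.Sh x) i i - S.κ x ^ 2 * (S.e x i * inner ℝ (fderiv ℝ S.f x (Pi.single i (1 : ℝ) : Xm m)) (S.T x)) := by
    intro i
    rw [Finset.sum_sub_distrib, ← Finset.mul_sum, h4 i, Matrix.mul_apply]
    ring
  rw [Finset.sum_congr rfl (fun i _ => h5 i), Finset.sum_sub_distrib, ← Finset.mul_sum]
  have h6 : ∑ i, S.e x i * inner ℝ (fderiv ℝ S.f x (Pi.single i (1 : ℝ) : Xm m)) (S.T x) = 1 := by
    have h7 : inner ℝ (S.T x) (fderiv ℝ S.f x (S.e x)) = 1 := S.TT x hx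
    rw [lin_ee (fderiv ℝ S.f x) (S.e x), inner_sum] at h7
    refine Eq.trans ?_ h7
    refine Finset.sum_congr rfl fun i _ => ?_
    rw [inner_smul_right, real_inner_comm]
  rw [h6, mul_one]
  rfl

/-- (T3) trace of `B` = divergence of `e` -/
theorem trace_b (o : OrthonormalBasis (Fin (m + 2)) ℝ (Em m)) : ∀ x ∈ S.U,
    Real.sqrt (S.g x).det * ∑ k, S.b (o k) (o k) x
      = ∑ i : Fin m, fderiv ℝ (fun y => Real.sqrt (S.g y).det * S.e y i) x
          (Pi.single i (1 : ℝ)) := by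
  intro x hx
  set Q : Xm m → ℝ := fun v => ∑ i, ∑ j, (S.g x)⁻¹ i j *
    inner ℝ (fderiv ℝ S.f x (Pi.single j (1 : ℝ) : Xm m)) (fderiv ℝ (fderiv ℝ S.f) x v (Pi.single i (1 : ℝ) : Xm m)) with hQ
  -- the trace of `B`
  have h1 : ∑ k, S.b (o k) (o k) x = (∑ i, fderiv ℝ S.e x (Pi.single i (1 : ℝ) : Xm m) i) + ∑ l, S.e x l * Q (Pi.single l (1 : ℝ) : Xm m) := by
    unfold b
    rw [S.trace_xi o hx, S.T_DT hx, sub_zero]
    have h2 : ∀ i, ∑ j, (S.g x)⁻¹ i j * inner ℝ (fderiv ℝ S.f x (Pi.single j (1 : ℝ) : Xm m))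
        (fderiv ℝ S.T x (Pi.single i (1 : ℝ) : Xm m)) = fderiv ℝ S.e x (Pi.single i (1 : ℝ) : Xm m) i + ∑ l, S.e x l *
          ∑ j, (S.g x)⁻¹ i j *
            inner ℝ (fderiv ℝ S.f x (Pi.single j (1 : ℝ) : Xm m)) (fderiv ℝ (fderiv ℝ S.f) x (Pi.single l (1 : ℝ) : Xm m) (Pi.single i (1 : ℝ) : Xm m)) := by
      intro i
      have h3 : ∀ j, (S.g x)⁻¹ i j * inner ℝ (fderiv ℝ S.f x (Pi.single j (1 : ℝ) : Xm m))
          (fderiv ℝ S.T x (Pi.single i (1 : ℝ) : Xm m)) =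
          (S.g x)⁻¹ i j * inner ℝ (fderiv ℝ S.f x (Pi.single j (1 : ℝ) : Xm m))
            (fderiv ℝ S.f x (fderiv ℝ S.e x (Pi.single i (1 : ℝ) : Xm m))) +
          ∑ l, S.e x l * ((S.g x)⁻¹ i j *
            inner ℝ (fderiv ℝ S.f x (Pi.single j (1 : ℝ) : Xm m)) (fderiv ℝ (fderiv ℝ S.f) x (Pi.single l (1 : ℝ) : Xm m) (Pi.single i (1 : ℝ) : Xm m))) := by
        intro j
        rw [S.fderiv_T hx, inner_add_right, mul_add]
        congr 1
        rw [lin_ee (fderiv ℝ (fderiv ℝ S.f) x (Pi.single i (1 : ℝ) : Xm m)) (S.e x), inner_sum, Finset.mul_sum]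
        refine Finset.sum_congr rfl fun l _ => ?_
        rw [inner_smul_right, S.D2_symm hx (Pi.single i (1 : ℝ) : Xm m) (Pi.single l (1 : ℝ) : Xm m)]
        ring
      rw [Finset.sum_congr rfl (fun j _ => h3 j), Finset.sum_add_distrib,
        ← S.coord hx, Finset.sum_comm]
      congr 1
      refine Finset.sum_congr rfl fun l _ => ?_
      rw [Finset.mul_sum]
    rw [Finset.sum_congr rfl (fun i _ => h2 i), Finset.sum_add_distrib, Finset.sum_comm]
    congr 1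
    refine Finset.sum_congr rfl fun l _ => ?_
    rw [hQ, Finset.mul_sum]
  -- derivative of the determinant
  let g' : Fin m → Fin m → Xm m →L[ℝ] ℝ := fun i j =>
    fderiv ℝ (fun y => S.g y i j) x
  have hg' : ∀ i j, HasFDerivAt (fun y => S.g y i j) (g' i j) x := by
    intro i j
    exact (((S.dDfu hx (Pi.single i (1 : ℝ) : Xm m)).inner ℝ (S.dDfu hx (Pi.single j (1 : ℝ) : Xm m)))).hasFDerivAt
  have hg'v : ∀ i j v, g' i j v =
      inner ℝ (fderiv ℝ S.f x (Pi.single i (1 : ℝ) : Xm m)) (fderiv ℝ (fderiv ℝ S.f) x v (Pi.single j (1 : ℝ) : Xm m)) +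
      inner ℝ (fderiv ℝ S.f x (Pi.single j (1 : ℝ) : Xm m)) (fderiv ℝ (fderiv ℝ S.f) x v (Pi.single i (1 : ℝ) : Xm m)) := by
    intro i j v
    have h2 := fderiv_inner_apply ℝ (S.dDfu hx (Pi.single i (1 : ℝ) : Xm m)) (S.dDfu hx (Pi.single j (1 : ℝ) : Xm m)) v
    rw [S.fderiv_Df hx, S.fderiv_Df hx, real_inner_comm (fderiv ℝ S.f x (Pi.single j (1 : ℝ) : Xm m))] at h2
    exact h2
  have hdet := hasFDerivAt_det S.g g' x hg'
  have hadj : ∀ i k, (S.g x).adjugate i k = (S.g x).det * (S.g x)⁻¹ i k := by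
    intro i k
    have h2 : (S.g x).adjugate = (S.g x).det • (S.g x)⁻¹ := by
      calc (S.g x).adjugate = (S.g x).adjugate * (S.g x * (S.g x)⁻¹) := by
            rw [S.g_mul_inv hx, Matrix.mul_one]
        _ = ((S.g x).adjugate * S.g x) * (S.g x)⁻¹ := by rw [Matrix.mul_assoc]
        _ = _ := by rw [Matrix.adjugate_mul, Matrix.smul_mul, Matrix.one_mul]
    rw [h2]
    rfl
  have hdetv : ∀ v, (∑ i, ∑ k, ((S.g x).adjugate i k) • g' k i) v =
      2 * (S.g x).det * Q v := by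
    intro v
    simp only [_root_.sum_apply, _root_.smul_apply, smul_eq_mul, hadj, hg'v]
    have h2 : ∑ i, ∑ k, (S.g x).det * (S.g x)⁻¹ i k *
        (inner ℝ (fderiv ℝ S.f x (Pi.single k (1 : ℝ) : Xm m)) (fderiv ℝ (fderiv ℝ S.f) x v (Pi.single i (1 : ℝ) : Xm m)) +
        inner ℝ (fderiv ℝ S.f x (Pi.single i (1 : ℝ) : Xm m)) (fderiv ℝ (fderiv ℝ S.f) x v (Pi.single k (1 : ℝ) : Xm m))) =
        (S.g x).det * Q v + (S.g x).det * ∑ i, ∑ k, (S.g x)⁻¹ i k *
          inner ℝ (fderiv ℝ S.f x (Pi.single i (1 : ℝ) : Xm m)) (fderiv ℝ (fderiv ℝ S.f) x v (Pi.single k (1 : ℝ) : Xm m)) := by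
      rw [hQ, Finset.mul_sum, Finset.mul_sum, ← Finset.sum_add_distrib]
      refine Finset.sum_congr rfl fun i _ => ?_
      rw [Finset.mul_sum, Finset.mul_sum, ← Finset.sum_add_distrib]
      refine Finset.sum_congr rfl fun k _ => ?_
      ring
    rw [h2]
    have h3 : ∑ i, ∑ k, (S.g x)⁻¹ i k *
          inner ℝ (fderiv ℝ S.f x (Pi.single i (1 : ℝ) : Xm m)) (fderiv ℝ (fderiv ℝ S.f) x v (Pi.single k (1 : ℝ) : Xm m)) = Q v := by
      rw [hQ, Finset.sum_comm]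
      refine Finset.sum_congr rfl fun k _ => ?_
      refine Finset.sum_congr rfl fun i _ => ?_
      rw [S.ginv_symm]
    rw [h3]
    ring
  have hpos := S.g_det_pos hx
  have hsq := hdet.sqrt hpos.ne'
  have hsqv : ∀ v, fderiv ℝ (fun y => Real.sqrt (S.g y).det) x v =
      Real.sqrt (S.g x).det * Q v := by
    intro v
    rw [hsq.fderiv, _root_.smul_apply, hdetv, smul_eq_mul]
    have h2 : Real.sqrt (S.g x).det ≠ 0 := (Real.sqrt_pos.2 hpos).ne'
    have h3 : Real.sqrt (S.g x).det * Real.sqrt (S.g x).det = (S.g x).det :=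
      Real.mul_self_sqrt hpos.le
    have h4 : 1 / (2 * Real.sqrt (S.g x).det) * (2 * (S.g x).det * Q v) =
        (S.g x).det / Real.sqrt (S.g x).det * Q v := by
      field_simp
    rw [h4]
    congr 1
    rw [div_eq_iff h2, h3]
  have hei : ∀ i, HasFDerivAt (fun y => S.e y i)
      ((ContinuousLinearMap.proj i : Xm m →L[ℝ] ℝ).comp (fderiv ℝ S.e x)) x := by
    intro i
    exact (ContinuousLinearMap.proj i : Xm m →L[ℝ] ℝ).hasFDerivAt.comp x
      (S.de_diff hx).hasFDerivAt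
  have hfin : ∀ i, fderiv ℝ (fun y => Real.sqrt (S.g y).det * S.e y i) x (Pi.single i (1 : ℝ) : Xm m) =
      Real.sqrt (S.g x).det * fderiv ℝ S.e x (Pi.single i (1 : ℝ) : Xm m) i +
      S.e x i * (Real.sqrt (S.g x).det * Q (Pi.single i (1 : ℝ) : Xm m)) := by
    intro i
    have h2 := hsq.mul (hei i)
    have h3 : fderiv ℝ (fun y => Real.sqrt (S.g y).det * S.e y i) x = _ := h2.fderiv
    rw [h3, ← hsqv, hsq.fderiv]
    simp
  rw [Finset.sum_congr rfl (fun i _ => hfin i), h1, Finset.sum_add_distrib, mul_add,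
    Finset.mul_sum, Finset.mul_sum]
  congr 1
  refine Finset.sum_congr rfl fun l _ => by ring

end Setup

end BH
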