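import Mathlib
import Pool.Agent.Lib_helper71.BH.Geo2

set_option autoImplicit false

namespace BH

open Matrix Set Filter Topology

namespace Geo3

variable {m : ℕ}

/-- coordinates -/
lemma fderiv_sum {F : Type*} [NormedAddCommGroup F] [NormedSpace ℝ F] (L : Xm m →L[ℝ] F)
    (v : Xm m) : L v = ∑ i, v i • L (Pi.single i (1 : ℝ)) := by
  conv_lhs => rw [← Finset.univ_sum_single v]
  rw [map_sum]
  refine Finset.sum_congr rfl fun i _ => ?_
  rw [← map_smul]
  congr 1
  rw [← Pi.single_smul]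
  simp

end Geo3

open Geo3

/-- the mean curvature function of the frozen statement is smooth -/
theorem H_smooth (m : ℕ) (U : Set (Fin m → ℝ)) (f N : (Fin m → ℝ) → EuclideanSpace ℝ (Fin (m + 2)))
    (hU : IsOpen U)
    (hf : ContDiffOn ℝ ((⊤ : ℕ∞) : WithTop ℕ∞) f U)
    (hN : ContDiffOn ℝ ((⊤ : ℕ∞) : WithTop ℕ∞) N U)
    (hfr : ∀ x ∈ U, ‖f x‖ = 1 ∧ ‖N x‖ = 1 ∧ inner ℝ (N x) (f x) = 0 ∧
        (∀ i : Fin m, inner ℝ (N x) (fderiv ℝ f x (Pi.single i (1 : ℝ))) = 0) ∧
        LinearIndependent ℝ (fun i : Fin m => fderiv ℝ f x (Pi.single i (1 : ℝ))))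
    (g S : (Fin m → ℝ) → Matrix (Fin m) (Fin m) ℝ) (H : (Fin m → ℝ) → ℝ)
    (hg : ∀ x, g x = Matrix.of (fun i j : Fin m =>
          inner ℝ (fderiv ℝ f x (Pi.single i (1 : ℝ))) (fderiv ℝ f x (Pi.single j (1 : ℝ)))))
    (hS : ∀ x, S x = (g x)⁻¹ * Matrix.of (fun i j : Fin m =>
          inner ℝ (fderiv ℝ (fun y => fderiv ℝ f y (Pi.single i (1 : ℝ))) x (Pi.single j (1 : ℝ))) (N x)))
    (hH : ∀ x, H x = Matrix.trace (S x) / (m : ℝ)) :
    ContDiffOn ℝ smth H U := by
  have hf' : ContDiffOn ℝ smth (fderiv ℝ f) U := hf.fderiv_of_isOpen hU (by simp)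
  have hDf : ∀ i, ContDiffOn ℝ smth (fun x => fderiv ℝ f x (Pi.single i (1 : ℝ))) U := fun i =>
    hf'.clm_apply contDiffOn_const
  have gsm : ∀ i j, ContDiffOn ℝ smth (fun x => g x i j) U := by
    intro i j
    simp only [hg, Matrix.of_apply]
    exact (hDf i).inner ℝ (hDf j)
  have gpd : ∀ x ∈ U, (g x).PosDef := by
    intro x hx
    have := Matrix.posDef_gram_of_linearIndependent (𝕜 := ℝ) (hfr x hx).2.2.2.2
    rw [hg x]
    exact this
  have gis : ∀ i j, ContDiffOn ℝ smth (fun x => (g x)⁻¹ i j) U :=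
    inv_smooth gsm fun x hx => (gpd x hx).det_pos.ne'
  have Ssm : ∀ i j, ContDiffOn ℝ smth (fun x => S x i j) U := by
    intro i j
    simp only [hS, Matrix.mul_apply, Matrix.of_apply]
    refine ContDiffOn.sum fun k _ => (gis i k).mul ?_
    have h1 : ContDiffOn ℝ smth (fderiv ℝ (fun y => fderiv ℝ f y (Pi.single k (1 : ℝ)))) U :=
      (hDf k).fderiv_of_isOpen hU (by simp)
    exact (h1.clm_apply contDiffOn_const).inner ℝ hN
  have e : H = fun x => (∑ i, S x i i) / (m : ℝ) := by
    funext x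
    rw [hH x]
    simp [Matrix.trace]
  rw [e]
  exact (ContDiffOn.sum fun i _ => Ssm i i).div_const _

/-- (G9) From the hypotheses of the frozen statement at a point where `dH ≠ 0` we get a `Setup`
together with the two trace equations. -/
theorem exists_setup (m : ℕ) (U : Set (Fin m → ℝ)) (f N : (Fin m → ℝ) → EuclideanSpace ℝ (Fin (m + 2)))
    (hU : IsOpen U)
    (hf : ContDiffOn ℝ ((⊤ : ℕ∞) : WithTop ℕ∞) f U)
    (hN : ContDiffOn ℝ ((⊤ : ℕ∞) : WithTop ℕ∞) N U)
    (hfr : ∀ x ∈ U, ‖f x‖ = 1 ∧ ‖N x‖ = 1 ∧ inner ℝ (N x) (f x) = 0 ∧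
        (∀ i : Fin m, inner ℝ (N x) (fderiv ℝ f x (Pi.single i (1 : ℝ))) = 0) ∧
        LinearIndependent ℝ (fun i : Fin m => fderiv ℝ f x (Pi.single i (1 : ℝ))))
    (g S : (Fin m → ℝ) → Matrix (Fin m) (Fin m) ℝ) (H : (Fin m → ℝ) → ℝ)
    (hg : ∀ x, g x = Matrix.of (fun i j : Fin m =>
          inner ℝ (fderiv ℝ f x (Pi.single i (1 : ℝ))) (fderiv ℝ f x (Pi.single j (1 : ℝ)))))
    (hS : ∀ x, S x = (g x)⁻¹ * Matrix.of (fun i j : Fin m =>
          inner ℝ (fderiv ℝ (fun y => fderiv ℝ f y (Pi.single i (1 : ℝ))) x (Pi.single j (1 : ℝ))) (N x)))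
    (hH : ∀ x, H x = Matrix.trace (S x) / (m : ℝ))
    (heq1 : ∀ x ∈ U,
        (1 / Real.sqrt (g x).det) *
            ∑ i : Fin m, fderiv ℝ (fun y => Real.sqrt (g y).det *
              ∑ j : Fin m, (g y)⁻¹ i j * fderiv ℝ H y (Pi.single j (1 : ℝ))) x (Pi.single i (1 : ℝ))
          + ((m : ℝ) - Matrix.trace (S x * S x)) * H x = 0)
    (heq2 : ∀ x ∈ U,
        (2 : ℝ) • (S x).mulVec ((g x)⁻¹.mulVec (fun j : Fin m => fderiv ℝ H x (Pi.single j (1 : ℝ))))
          + ((m : ℝ) * H x) • (g x)⁻¹.mulVec (fun j : Fin m => fderiv ℝ H x (Pi.single j (1 : ℝ)))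
          = 0)
    (x0 : Fin m → ℝ) (hx0 : x0 ∈ U) (hd : fderiv ℝ H x0 ≠ 0) :
    ∃ G : Setup m, x0 ∈ G.U ∧
      (∀ o : OrthonormalBasis (Fin (m + 2)) ℝ (Em m), ∀ x ∈ G.U,
        ∑ k, G.a (o k) (o k) x = -3 * G.κ x) ∧
      (∀ o : OrthonormalBasis (Fin (m + 2)) ℝ (Em m), ∀ x ∈ G.U,
        LD G.e (LD G.e G.κ) x + LD G.e G.κ x * ∑ k, G.b (o k) (o k) x
          + G.κ x * ((m : ℝ) - G.κ x ^ 2
            - ∑ k, ∑ l, G.a (o k) (o l) x * G.a (o l) (o k) x) = 0) := by
  -- basic regularity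
  have hm : (m : ℝ) ≠ 0 := by
    intro h0
    have h1 : m = 0 := by exact_mod_cast h0
    subst h1
    exact hd (ContinuousLinearMap.ext fun v => by
      rw [Subsingleton.elim v 0, map_zero]; rfl)
  have hf' : ContDiffOn ℝ smth (fderiv ℝ f) U := hf.fderiv_of_isOpen hU (by simp)
  have hN' : ContDiffOn ℝ smth (fderiv ℝ N) U := hN.fderiv_of_isOpen hU (by simp)
  have hDf : ∀ i, ContDiffOn ℝ smth (fun x => fderiv ℝ f x (Pi.single i (1 : ℝ))) U := fun i =>
    hf'.clm_apply contDiffOn_const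
  have dat : ∀ {F : Type} [NormedAddCommGroup F] [NormedSpace ℝ F] {φ : Xm m → F},
      ContDiffOn ℝ smth φ U → ∀ x ∈ U, DifferentiableAt ℝ φ x := by
    intro F _ _ φ hφ x hx
    exact (hφ.contDiffAt (hU.mem_nhds hx)).differentiableAt (by simp)
  -- the metric
  have gsm : ∀ i j, ContDiffOn ℝ smth (fun x => g x i j) U := by
    intro i j
    simp only [hg, Matrix.of_apply]
    exact (hDf i).inner ℝ (hDf j)
  have gpd : ∀ x ∈ U, (g x).PosDef := by
    intro x hx
    have := Matrix.posDef_gram_of_linearIndependent (𝕜 := ℝ) (hfr x hx).2.2.2.2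
    rw [hg x]
    exact this
  have gdet : ∀ x ∈ U, 0 < (g x).det := fun x hx => (gpd x hx).det_pos
  have gis : ∀ i j, ContDiffOn ℝ smth (fun x => (g x)⁻¹ i j) U :=
    inv_smooth gsm fun x hx => (gdet x hx).ne'
  have gu : ∀ x ∈ U, IsUnit (g x).det := fun x hx => (gdet x hx).ne'.isUnit
  -- inner products of `df v`, `df w`
  have gvw : ∀ x, ∀ v w : Xm m, inner ℝ (fderiv ℝ f x v) (fderiv ℝ f x w) = v ⬝ᵥ (g x).mulVec w := by
    intro x v w
    rw [fderiv_sum (fderiv ℝ f x) v, fderiv_sum (fderiv ℝ f x) w, sum_inner]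
    simp only [dotProduct, Matrix.mulVec, hg, Matrix.of_apply]
    refine Finset.sum_congr rfl fun i _ => ?_
    rw [real_inner_smul_left, inner_sum]
    congr 1
    refine Finset.sum_congr rfl fun j _ => ?_
    rw [real_inner_smul_right]; ring
  have inj : ∀ x ∈ U, ∀ v, fderiv ℝ f x v = 0 → v = 0 := by
    intro x hx v hv
    rw [fderiv_sum (fderiv ℝ f x) v] at hv
    exact funext (Fintype.linearIndependent_iff.1 (hfr x hx).2.2.2.2 v hv)
  -- second fundamental form
  set II : Xm m → Matrix (Fin m) (Fin m) ℝ := fun x => Matrix.of (fun i j : Fin m =>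
    inner ℝ (fderiv ℝ (fun y => fderiv ℝ f y (Pi.single i (1 : ℝ))) x (Pi.single j (1 : ℝ))) (N x))
    with hII
  have IIsm : ∀ i j, ContDiffOn ℝ smth (fun x => II x i j) U := by
    intro i j
    simp only [hII, Matrix.of_apply]
    have h1 : ContDiffOn ℝ smth (fderiv ℝ (fun y => fderiv ℝ f y (Pi.single i (1 : ℝ)))) U :=
      (hDf i).fderiv_of_isOpen hU (by simp)
    exact (h1.clm_apply contDiffOn_const).inner ℝ hN
  have Ssm : ∀ i j, ContDiffOn ℝ smth (fun x => S x i j) U := by
    intro i j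
    simp only [hS, Matrix.mul_apply]
    exact ContDiffOn.sum fun k _ => (gis i k).mul (IIsm k j)
  have Hsm : ContDiffOn ℝ smth H U := by
    have e : H = fun x => (∑ i, S x i i) / (m : ℝ) := by
      funext x
      rw [hH x]
      simp [Matrix.trace]
    rw [e]
    exact (ContDiffOn.sum fun i _ => Ssm i i).div_const _
  have Hsm' : ContDiffOn ℝ smth (fderiv ℝ H) U := Hsm.fderiv_of_isOpen hU (by simp)
  have dHs : ∀ i, ContDiffOn ℝ smth (fun x => fderiv ℝ H x (Pi.single i (1 : ℝ))) U := fun i =>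
    Hsm'.clm_apply contDiffOn_const
  -- the gradient
  set dH : Xm m → Xm m := fun x j => fderiv ℝ H x (Pi.single j (1 : ℝ)) with hdH
  set gr : Xm m → Xm m := fun x => (g x)⁻¹.mulVec (dH x) with hgr
  have grs : ∀ i, ContDiffOn ℝ smth (fun x => gr x i) U := by
    intro i
    simp only [hgr, Matrix.mulVec, dotProduct]
    exact ContDiffOn.sum fun k _ => (gis i k).mul (dHs k)
  set ρ2 : Xm m → ℝ := fun x => dH x ⬝ᵥ gr x with hρ2
  have ρ2s : ContDiffOn ℝ smth ρ2 U := by
    simp only [hρ2, dotProduct]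
    exact ContDiffOn.sum fun k _ => (dHs k).mul (grs k)
  have ggr : ∀ x ∈ U, (g x).mulVec (gr x) = dH x := by
    intro x hx
    rw [hgr]
    simp only
    rw [Matrix.mulVec_mulVec, Matrix.mul_nonsing_inv _ (gu x hx), Matrix.one_mulVec]
  have ρ2eq : ∀ x ∈ U, ρ2 x = inner ℝ (fderiv ℝ f x (gr x)) (fderiv ℝ f x (gr x)) := by
    intro x hx
    rw [gvw, ggr x hx, hρ2]
    simp only
    exact dotProduct_comm _ _
  have dHv : ∀ x, ∀ v : Xm m, fderiv ℝ H x v = v ⬝ᵥ dH x := by
    intro x v
    rw [fderiv_sum (fderiv ℝ H x) v]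
    simp [dotProduct, hdH]
  -- the open set
  set V : Set (Xm m) := {x | x ∈ U ∧ fderiv ℝ H x ≠ 0} with hV
  have hVU : V ⊆ U := fun x hx => hx.1
  have hVo : IsOpen V := by
    have : V = U ∩ (fderiv ℝ H) ⁻¹' {0}ᶜ := by
      ext x; simp [hV]
    rw [this]
    exact Hsm'.continuousOn.isOpen_inter_preimage hU isOpen_compl_singleton
  have ρ2pos : ∀ x ∈ V, 0 < ρ2 x := by
    intro x hx
    rw [ρ2eq x hx.1]
    rw [real_inner_self_eq_norm_sq]
    have h1 : fderiv ℝ f x (gr x) ≠ 0 := by
      intro h0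
      have h2 := inj x hx.1 _ h0
      have h3 := ggr x hx.1
      rw [h2, Matrix.mulVec_zero] at h3
      apply hx.2
      ext v
      rw [dHv, ← h3]
      simp
    have := norm_pos_iff.2 h1
    positivity
  set ρ : Xm m → ℝ := fun x => Real.sqrt (ρ2 x) with hρ
  have ρpos : ∀ x ∈ V, 0 < ρ x := fun x hx => Real.sqrt_pos.2 (ρ2pos x hx)
  have ρsq : ∀ x ∈ V, ρ x * ρ x = ρ2 x := fun x hx => Real.mul_self_sqrt (ρ2pos x hx).le
  have ρs : ContDiffOn ℝ smth ρ V := (ρ2s.mono hVU).sqrt fun x hx => (ρ2pos x hx).ne'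
  set e : Xm m → Xm m := fun x => (ρ x)⁻¹ • gr x with he
  have es : ContDiffOn ℝ smth e V := by
    rw [contDiffOn_pi]
    intro i
    simp only [he, Pi.smul_apply, smul_eq_mul]
    exact (ρs.inv fun x hx => (ρpos x hx).ne').mul ((grs i).mono hVU)
  have ρe : ∀ x ∈ V, ρ x • e x = gr x := by
    intro x hx
    rw [he]
    simp only
    rw [smul_smul, mul_inv_cancel₀ (ρpos x hx).ne', one_smul]
  -- the normal derivative
  have NDf : ∀ x ∈ U, ∀ v, inner ℝ (N x) (fderiv ℝ f x v) = 0 := by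
    intro x hx v
    rw [fderiv_sum (fderiv ℝ f x) v, inner_sum]
    refine Finset.sum_eq_zero fun i _ => ?_
    rw [real_inner_smul_right, (hfr x hx).2.2.2.1 i, mul_zero]
  have ff : ∀ x ∈ U, inner ℝ (f x) (f x) = 1 := by
    intro x hx
    rw [real_inner_self_eq_norm_sq, (hfr x hx).1]; norm_num
  have NN : ∀ x ∈ U, inner ℝ (N x) (N x) = 1 := by
    intro x hx
    rw [real_inner_self_eq_norm_sq, (hfr x hx).2.1]; norm_num
  have deriv_inner_const : ∀ {φ ψ : Xm m → Em m}, ContDiffOn ℝ smth φ U → ContDiffOn ℝ smth ψ U →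
      ∀ c : ℝ, (∀ x ∈ U, inner ℝ (φ x) (ψ x) = c) → ∀ x ∈ U, ∀ v,
      inner ℝ (φ x) (fderiv ℝ ψ x v) + inner ℝ (fderiv ℝ φ x v) (ψ x) = 0 := by
    intro φ ψ hφ hψ c hc x hx v
    have h1 : (fun y => inner ℝ (φ y) (ψ y)) =ᶠ[𝓝 x] fun _ => c := by
      filter_upwards [hU.mem_nhds hx] with y hy using hc y hy
    have h2 := h1.fderiv_eq (𝕜 := ℝ)
    have h3 := fderiv_inner_apply ℝ (dat hφ x hx) (dat hψ x hx) v
    rw [h2] at h3
    simpa using h3.symm
  have fDf : ∀ x ∈ U, ∀ v, inner ℝ (f x) (fderiv ℝ f x v) = 0 := by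
    intro x hx v
    have h1 := deriv_inner_const hf hf 1 ff x hx v
    rw [real_inner_comm (f x) (fderiv ℝ f x v)] at h1
    linarith
  have NDN : ∀ x ∈ U, ∀ v, inner ℝ (N x) (fderiv ℝ N x v) = 0 := by
    intro x hx v
    have h1 := deriv_inner_const hN hN 1 NN x hx v
    rw [real_inner_comm (N x) (fderiv ℝ N x v)] at h1
    linarith
  have fDN : ∀ x ∈ U, ∀ v, inner ℝ (f x) (fderiv ℝ N x v) = 0 := by
    intro x hx v
    have h1 := deriv_inner_const hN hf 0 (fun y hy => (hfr y hy).2.2.1) x hx v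
    rw [NDf x hx v, zero_add, real_inner_comm] at h1
    exact h1
  have DfDN : ∀ x ∈ U, ∀ i, ∀ v, inner ℝ (fderiv ℝ f x (Pi.single i (1 : ℝ))) (fderiv ℝ N x v)
      = -((II x).mulVec v i) := by
    intro x hx i v
    have h1 := deriv_inner_const hN (hDf i) 0 (fun y hy => (hfr y hy).2.2.2.1 i) x hx v
    have h2 : inner ℝ (N x) (fderiv ℝ (fun y => fderiv ℝ f y (Pi.single i (1 : ℝ))) x v)
        = (II x).mulVec v i := by
      rw [fderiv_sum (fderiv ℝ (fun y => fderiv ℝ f y (Pi.single i (1 : ℝ))) x) v, inner_sum]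
      simp only [Matrix.mulVec, dotProduct, hII, Matrix.of_apply]
      refine Finset.sum_congr rfl fun j _ => ?_
      rw [real_inner_smul_right, real_inner_comm]; ring
    rw [h2, real_inner_comm] at h1
    linarith
  -- span
  have span : ∀ x ∈ U, ∀ w, inner ℝ (f x) w = 0 → inner ℝ (N x) w = 0 →
      ∃ v, fderiv ℝ f x v = w := by
    intro x hx w hw1 hw2
    -- dimension count
    let R : Submodule ℝ (Em m) := LinearMap.range (fderiv ℝ f x).toLinearMap
    let Q : Submodule ℝ (Em m) := Submodule.span ℝ {f x, N x}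
    have hRQ : R ≤ Qᗮ := by
      rintro _ ⟨v, rfl⟩
      rw [Submodule.mem_orthogonal]
      intro u hu
      induction hu using Submodule.span_induction with
      | mem y hy =>
        rcases hy with rfl | hy
        · exact fDf x hx v
        · rw [mem_singleton_iff] at hy
          rw [hy]; exact NDf x hx v
      | zero => simp
      | add y z _ _ h1 h2 => rw [inner_add_left, h1, h2, add_zero]
      | smul a y _ h1 => rw [real_inner_smul_left, h1, mul_zero]
    have hR : Module.finrank ℝ R = m := by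
      have hinj : Function.Injective (fderiv ℝ f x).toLinearMap := by
        rw [← LinearMap.ker_eq_bot, LinearMap.ker_eq_bot']
        intro v hv
        exact inj x hx v hv
      rw [LinearMap.finrank_range_of_inj hinj]
      simp
    have hQ : Module.finrank ℝ Q = 2 := by
      have hli : LinearIndependent ℝ ![f x, N x] := by
        rw [LinearIndependent.pair_iff]
        intro s t hst
        have h1 := congrArg (fun z => inner ℝ (f x) z) hst
        have h2 := congrArg (fun z => inner ℝ (N x) z) hst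
        simp only [inner_add_right, real_inner_smul_right, ff x hx, NN x hx, inner_zero_right,
          (hfr x hx).2.2.1, real_inner_comm (N x) (f x)] at h1 h2
        constructor
        · linarith
        · linarith
      have h3 := finrank_span_eq_card hli
      rw [Matrix.range_cons_cons_empty] at h3
      simpa using h3
    have hQo : Module.finrank ℝ Qᗮ = m := by
      have h1 := Submodule.finrank_add_finrank_orthogonal Q
      rw [hQ] at h1
      simp only [finrank_euclideanSpace, Fintype.card_fin] at h1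
      omega
    have hRe : R = Qᗮ := Submodule.eq_of_le_of_finrank_eq hRQ (by rw [hR, hQo])
    have hwQ : w ∈ Qᗮ := by
      rw [Submodule.mem_orthogonal]
      intro u hu
      induction hu using Submodule.span_induction with
      | mem y hy =>
        rcases hy with rfl | hy
        · exact hw1
        · rw [mem_singleton_iff] at hy
          rw [hy]; exact hw2
      | zero => simp
      | add y z _ _ h1 h2 => rw [inner_add_left, h1, h2, add_zero]
      | smul a y _ h1 => rw [real_inner_smul_left, h1, mul_zero]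
    rw [← hRe] at hwQ
    obtain ⟨v, hv⟩ := hwQ
    exact ⟨v, hv⟩
  -- `D_v N = - df (S v)`
  have DNv : ∀ x ∈ U, ∀ v, fderiv ℝ N x v = -fderiv ℝ f x ((S x).mulVec v) := by
    intro x hx v
    obtain ⟨w, hw⟩ := span x hx (fderiv ℝ N x v) (fDN x hx v) (NDN x hx v)
    have h1 : (g x).mulVec w = -(II x).mulVec v := by
      funext i
      have h2 := DfDN x hx i v
      rw [← hw, gvw] at h2
      rw [single_one_dotProduct] at h2
      rw [h2]; rfl
    have h3 : w = -(S x).mulVec v := by
      have h4 : w = ((g x)⁻¹).mulVec ((g x).mulVec w) := by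
        rw [Matrix.mulVec_mulVec, Matrix.nonsing_inv_mul _ (gu x hx), Matrix.one_mulVec]
      rw [h4, h1, Matrix.mulVec_neg, Matrix.mulVec_mulVec]
      congr 2
      rw [hS x]
    rw [← hw, h3, map_neg]
  -- the setup
  let G : Setup m :=
    { U := V
      f := f
      N := N
      e := e
      κ := fun x => -(m / 2) * H x
      r := fun x => -(m / 2) * ρ x
      hU := hVo
      hf := hf.mono hVU
      hN := hN.mono hVU
      he := es
      hκ := contDiffOn_const.mul (Hsm.mono hVU)
      hr := contDiffOn_const.mul ρs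
      ff := fun x hx => ff x hx.1
      NN := fun x hx => NN x hx.1
      Nf := fun x hx => (hfr x hx.1).2.2.1
      NDf := fun x hx => NDf x hx.1
      inj := fun x hx => inj x hx.1
      span := fun x hx => span x hx.1
      TT := by
        intro x hx
        have h1 := ρ2eq x hx.1
        rw [← ρe x hx, map_smul, real_inner_smul_left, real_inner_smul_right, ← mul_assoc,
          ρsq x hx] at h1
        have h2 := (ρ2pos x hx).ne'
        field_simp at h1
        linarith
      DNe := by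
        intro x hx
        have h1 := heq2 x hx.1
        have h2 : (S x).mulVec (e x) = (-(m / 2) * H x) • e x := by
          have h3 : (2 : ℝ) • (S x).mulVec (gr x) + ((m : ℝ) * H x) • gr x = 0 := h1
          rw [← ρe x hx, Matrix.mulVec_smul, smul_smul, smul_smul] at h3
          have h4 := (ρpos x hx).ne'
          funext i
          have h5 := congrFun h3 i
          simp only [Pi.add_apply, Pi.smul_apply, smul_eq_mul, Pi.zero_apply] at h5 ⊢
          have h6 : ρ x * (2 * (S x).mulVec (e x) i + (m : ℝ) * H x * e x i) = 0 := by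
            linarith
          rcases mul_eq_zero.1 h6 with h7 | h7
          · exact absurd h7 h4
          · linarith
        rw [DNv x hx.1, h2, map_smul, neg_smul]
      dκ := by
        intro x hx v
        have h1 : fderiv ℝ (fun x => -(m / 2) * H x) x v = -(m / 2) * fderiv ℝ H x v := by
          rw [fderiv_const_mul (dat Hsm x hx.1)]
          rfl
        rw [h1, dHv, ← ggr x hx.1, ← ρe x hx, gvw, Matrix.mulVec_smul]
        have h2 : v ⬝ᵥ (g x).mulVec (e x) = e x ⬝ᵥ (g x).mulVec v := by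
          rw [← gvw, ← gvw, real_inner_comm]
        rw [dotProduct_smul, h2, smul_eq_mul]
        ring
      r0 := by
        intro x hx
        have := (ρpos x hx).ne'
        have h2 : (m : ℝ) / 2 ≠ 0 := by positivity
        simp only [neg_mul, ne_eq, neg_eq_zero, mul_eq_zero, not_or]
        exact ⟨h2, this⟩ }
  have hGg : ∀ x, G.g x = g x := fun x => (hg x).symm
  have hGS : ∀ x, G.Sh x = S x := by
    intro x
    rw [hS x, ← hGg x]
    rfl
  have hGV : G.U = V := rfl
  refine ⟨G, ⟨hx0, hd⟩, fun o x hx => ?_, fun o x hx => ?_⟩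
  · rw [G.trace_a o x hx, hGS x]
    have h1 := hH x
    have h2 : Matrix.trace (S x) = m * H x := by rw [h1]; field_simp
    rw [h2]
    change (m : ℝ) * H x - -(m / 2) * H x = -3 * (-(m / 2) * H x)
    ring
  · -- the Laplace equation
    have hxV : x ∈ V := hx
    have hLD : ∀ y ∈ V, LD G.e G.κ y = -(m / 2) * ρ y := by
      intro y hy
      have h1 := G.dκ y hy (G.e y)
      rw [G.TT y hy, mul_one] at h1
      exact h1
    have hLD2 : LD G.e (LD G.e G.κ) x = -(m / 2) * fderiv ℝ ρ x (e x) := by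
      have h1 : LD G.e G.κ =ᶠ[𝓝 x] fun y => -(m / 2) * ρ y := by
        filter_upwards [hVo.mem_nhds hxV] with y hy using hLD y hy
      change fderiv ℝ (LD G.e G.κ) x (e x) = _
      rw [h1.fderiv_eq, fderiv_const_mul ((ρs.contDiffAt (hVo.mem_nhds hxV)).differentiableAt
        (by simp))]
      rfl
    have htb := G.trace_b o x hx
    have hts := G.trace_a_sq o x hx
    rw [hGS] at hts
    simp only [hGg] at htb
    -- the divergence
    have hsq : ∀ y ∈ U, DifferentiableAt ℝ (fun y => Real.sqrt (g y).det) y := fun y hy =>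
      (dat (det_smooth gsm) y hy).sqrt (gdet y hy).ne'
    have hdiv : ∀ i, fderiv ℝ (fun y => Real.sqrt (g y).det *
        ∑ j : Fin m, (g y)⁻¹ i j * fderiv ℝ H y (Pi.single j (1 : ℝ))) x (Pi.single i (1 : ℝ))
        = ρ x * fderiv ℝ (fun y => Real.sqrt (g y).det * e y i) x (Pi.single i (1 : ℝ))
          + Real.sqrt (g x).det * e x i * fderiv ℝ ρ x (Pi.single i (1 : ℝ)) := by
      intro i
      have h1 : (fun y => Real.sqrt (g y).det *
          ∑ j : Fin m, (g y)⁻¹ i j * fderiv ℝ H y (Pi.single j (1 : ℝ)))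
          =ᶠ[𝓝 x] fun y => (Real.sqrt (g y).det * e y i) * ρ y := by
        filter_upwards [hVo.mem_nhds hxV] with y hy
        have h2 : ∑ j : Fin m, (g y)⁻¹ i j * fderiv ℝ H y (Pi.single j (1 : ℝ)) = gr y i := rfl
        rw [h2, ← ρe y hy, Pi.smul_apply, smul_eq_mul]
        ring
      have d1 : DifferentiableAt ℝ (fun y => Real.sqrt (g y).det * e y i) x := by
        refine (hsq x hxV.1).mul ?_
        exact (differentiableAt_pi.1 ((es.contDiffAt (hVo.mem_nhds hxV)).differentiableAt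
          (by simp))) i
      have d2 : DifferentiableAt ℝ ρ x :=
        (ρs.contDiffAt (hVo.mem_nhds hxV)).differentiableAt (by simp)
      rw [h1.fderiv_eq, fderiv_fun_mul d1 d2]
      simp only [_root_.add_apply, _root_.smul_apply, smul_eq_mul]
      ring
    have heq := heq1 x hxV.1
    simp only [hdiv] at heq
    rw [Finset.sum_add_distrib, ← Finset.mul_sum] at heq
    have htb' : ∑ i : Fin m, fderiv ℝ (fun y => Real.sqrt (g y).det * e y i) x
        (Pi.single i (1 : ℝ)) = Real.sqrt (g x).det * ∑ k, G.b (o k) (o k) x := htb.symm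
    rw [htb'] at heq
    have hρe : ∑ i : Fin m, Real.sqrt (g x).det * e x i * fderiv ℝ ρ x (Pi.single i (1 : ℝ))
        = Real.sqrt (g x).det * fderiv ℝ ρ x (e x) := by
      rw [fderiv_sum (fderiv ℝ ρ x) (e x), Finset.mul_sum]
      refine Finset.sum_congr rfl fun i _ => ?_
      rw [smul_eq_mul]; ring
    rw [hρe] at heq
    have hsp : Real.sqrt (g x).det ≠ 0 := (Real.sqrt_pos.2 (gdet x hxV.1)).ne'
    have heq' : ρ x * ∑ k, G.b (o k) (o k) x + fderiv ℝ ρ x (e x)
        + ((m : ℝ) - Matrix.trace (S x * S x)) * H x = 0 := by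
      rw [← heq]
      field_simp
    rw [hLD2, hLD x hxV, hts]
    have hκ : G.κ x = -(m / 2) * H x := rfl
    rw [hκ]
    linear_combination (-(m : ℝ) / 2) * heq'

end BH
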