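import Mathlib

set_option autoImplicit false

namespace BH

open Module.End
open scoped Function

/-- pairwise commuting symmetric operators have a joint orthonormal eigenbasis -/
theorem exists_joint_basis {E : Type*} [NormedAddCommGroup E] [InnerProductSpace ℝ E]
    [FiniteDimensional ℝ E] {d : ℕ} (hd : Module.finrank ℝ E = d) {n : Type*} (T : n → E →ₗ[ℝ] E)
    (hT : ∀ i, (T i).IsSymmetric) (hC : Pairwise (Commute on T)) :
    ∃ o : OrthonormalBasis (Fin d) ℝ E, ∀ i k, ∃ c : ℝ, T i (o k) = c • o k := by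
  classical
  have h1 := LinearMap.IsSymmetric.directSum_isInternal_of_pairwise_commute hT hC
  have h2 := LinearMap.IsSymmetric.orthogonalFamily_iInf_eigenspaces hT
  have h3 := DirectSum.isInternal_ne_bot_iff.mpr h1
  have hfin : {α : n → ℝ | (⨅ j, eigenspace (T j) (α j)) ≠ ⊥}.Finite :=
    WellFoundedGT.finite_ne_bot_of_iSupIndep h2.independent
  haveI : Fintype {α : n → ℝ // (⨅ j, eigenspace (T j) (α j)) ≠ ⊥} := hfin.fintype
  have h4 : OrthogonalFamily ℝ
      (fun α : {α : n → ℝ // (⨅ j, eigenspace (T j) (α j)) ≠ ⊥} =>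
        (⨅ j, eigenspace (T j) (α.1 j) : Submodule ℝ E))
      fun α => (⨅ j, eigenspace (T j) (α.1 j)).subtypeₗᵢ :=
    h2.comp Subtype.val_injective
  refine ⟨h3.subordinateOrthonormalBasis hd h4, fun i k => ?_⟩
  have h5 := h3.subordinateOrthonormalBasis_subordinate hd k h4
  rw [Submodule.mem_iInf] at h5
  exact ⟨_, mem_eigenspace_iff.mp (h5 i)⟩

end BH
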