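import Mathlib
import Pool.Agent.Lib_helper71.BH.Formal3
import Pool.Agent.Lib_helper71.BH.Geo3
import Pool.Agent.Lib_helper71.BH.JointBasis

set_option autoImplicit false

namespace BH

open PowerSeries

variable {m : ℕ}

theorem Setup.T_smooth (S : Setup m) : ContDiffOn ℝ smth S.T S.U := by
  have h1 : ContDiffOn ℝ smth (fderiv ℝ S.f) S.U :=
    (contDiffOn_infty_iff_fderiv_of_isOpen S.hU).mp S.hf |>.2
  exact h1.clm_apply S.he

theorem Setup.P_smooth (S : Setup m) (η : Em m) : ContDiffOn ℝ smth (S.P η) S.U := by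
  have hT := S.T_smooth
  have hf := S.hf
  have hN := S.hN
  unfold Setup.P
  have c1 : ContDiffOn ℝ smth (fun _ : Xm m => η) S.U := contDiffOn_const
  exact ((c1.sub ((hf.inner ℝ c1).smul hf)).sub ((hT.inner ℝ c1).smul hT)).sub
    ((hN.inner ℝ c1).smul hN)

/-- the main contradiction -/
theorem setup_absurd (G : Setup m) (x0 : Xm m) (hx0 : x0 ∈ G.U)
    (E1 : ∀ o : OrthonormalBasis (Fin (m + 2)) ℝ (Em m), ∀ x ∈ G.U,
        ∑ k, G.a (o k) (o k) x = -3 * G.κ x)
    (E2 : ∀ o : OrthonormalBasis (Fin (m + 2)) ℝ (Em m), ∀ x ∈ G.U,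
        LD G.e (LD G.e G.κ) x + LD G.e G.κ x * ∑ k, G.b (o k) (o k) x
          + G.κ x * ((m : ℝ) - G.κ x ^ 2
            - ∑ k, ∑ l, G.a (o k) (o l) x * G.a (o l) (o k) x) = 0) : False := by
  classical
  -- the operators at `x0`
  obtain ⟨hξs, hξ, hξa, hξm⟩ := G.exists_xi.choose_spec
  have hxi : ∀ η, fderiv ℝ G.f x0 (G.xi η x0) = G.P η x0 := hξ x0 hx0
  have hxia : ∀ η ζ, G.xi (η + ζ) x0 = G.xi η x0 + G.xi ζ x0 := hξa x0 hx0
  have hxim : ∀ (c : ℝ) η, G.xi (c • η) x0 = c • G.xi η x0 := hξm x0 hx0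
  let A0 : Em m →ₗ[ℝ] Em m :=
    { toFun := fun η => - fderiv ℝ G.N x0 (G.xi η x0)
      map_add' := fun η ζ => by rw [hxia, map_add, neg_add]
      map_smul' := fun c η => by rw [hxim, map_smul, RingHom.id_apply, smul_neg] }
  let B0 : Em m →ₗ[ℝ] Em m :=
    { toFun := fun η => fderiv ℝ G.T x0 (G.xi η x0)
      map_add' := fun η ζ => by rw [hxia, map_add]
      map_smul' := fun c η => by rw [hxim, map_smul, RingHom.id_apply] }
  let P0 : Em m →ₗ[ℝ] Em m :=
    { toFun := fun η => G.P η x0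
      map_add' := fun η ζ => by rw [← hxi, ← hxi, ← hxi, hxia, map_add]
      map_smul' := fun c η => by rw [← hxi, ← hxi, hxim, map_smul, RingHom.id_apply] }
  have hA0 : ∀ η ζ, inner ℝ η (A0 ζ) = G.a η ζ x0 := by
    intro η ζ; simp only [A0, LinearMap.coe_mk, AddHom.coe_mk, inner_neg_right]; rfl
  have hB0 : ∀ η ζ, inner ℝ η (B0 ζ) = G.b η ζ x0 := fun η ζ => rfl
  have hAs : A0.IsSymmetric := by
    intro η ζ
    rw [real_inner_comm, hA0, hA0, G.a_symm _ _ x0 hx0]
  have hBs : B0.IsSymmetric := by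
    intro η ζ
    rw [real_inner_comm, hB0, hB0, G.b_symm _ _ x0 hx0]
  have hPs : P0.IsSymmetric := by
    intro η ζ
    simp only [P0, LinearMap.coe_mk, AddHom.coe_mk, Setup.P, inner_sub_left, inner_sub_right,
      inner_smul_left, inner_smul_right, conj_trivial]
    rw [real_inner_comm η (G.f x0), real_inner_comm η (G.T x0), real_inner_comm η (G.N x0)]
    ring
  have ob := stdOrthonormalBasis ℝ (Em m)
  have hdim : Module.finrank ℝ (Em m) = m + 2 := by simp [Em]
  let ob' : OrthonormalBasis (Fin (m + 2)) ℝ (Em m) := ob.reindex (finCongr hdim)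
  have hAB : A0 * B0 = B0 * A0 := by
    apply LinearMap.ext; intro ζ
    apply ext_inner_left ℝ; intro η
    have h := G.a_b_comm ob' η ζ x0 hx0
    simp only [Module.End.mul_apply]
    have e1 : inner ℝ η (A0 (B0 ζ)) = ∑ k, G.a η (ob' k) x0 * G.b (ob' k) ζ x0 := by
      rw [← hAs η (B0 ζ), ← ob'.sum_inner_mul_inner (A0 η) (B0 ζ)]
      refine Finset.sum_congr rfl fun k _ => ?_
      rw [hAs, hA0, hB0]
    have e2 : inner ℝ η (B0 (A0 ζ)) = ∑ k, G.b η (ob' k) x0 * G.a (ob' k) ζ x0 := by
      rw [← hBs η (A0 ζ), ← ob'.sum_inner_mul_inner (B0 η) (A0 ζ)]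
      refine Finset.sum_congr rfl fun k _ => ?_
      rw [hBs, hA0, hB0]
    rw [e1, e2, h]
  have hAP : A0 * P0 = A0 := by
    apply LinearMap.ext; intro ζ
    apply ext_inner_left ℝ; intro η
    simp only [Module.End.mul_apply]
    rw [hA0, hA0]; exact G.a_P η ζ x0 hx0
  have hBP : B0 * P0 = B0 := by
    apply LinearMap.ext; intro ζ
    apply ext_inner_left ℝ; intro η
    simp only [Module.End.mul_apply]
    rw [hB0, hB0]; exact G.b_P η ζ x0 hx0
  have hPA : P0 * A0 = A0 := by
    apply LinearMap.ext; intro ζ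
    apply ext_inner_left ℝ; intro η
    simp only [Module.End.mul_apply]
    rw [← hPs, ← hAs, ← hAs]
    have := LinearMap.congr_fun hAP η
    simp only [Module.End.mul_apply] at this
    rw [this]
  have hPB : P0 * B0 = B0 := by
    apply LinearMap.ext; intro ζ
    apply ext_inner_left ℝ; intro η
    simp only [Module.End.mul_apply]
    rw [← hPs, ← hBs, ← hBs]
    have := LinearMap.congr_fun hBP η
    simp only [Module.End.mul_apply] at this
    rw [this]
  let TT : Fin 3 → (Em m →ₗ[ℝ] Em m) := ![A0, B0, P0]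
  obtain ⟨o, ho⟩ := exists_joint_basis hdim TT
    (by intro i; fin_cases i <;> [exact hAs; exact hBs; exact hPs])
    (by
      intro i j hij
      fin_cases i <;> fin_cases j <;> first | exact absurd rfl hij | skip
      · exact hAB
      · exact (hAP.trans hPA.symm)
      · exact hAB.symm
      · exact (hBP.trans hPB.symm)
      · exact (hPA.trans hAP.symm)
      · exact (hPB.trans hBP.symm))
  have hoA : ∀ k, ∃ c : ℝ, A0 (o k) = c • o k := ho 0
  have hoB : ∀ k, ∃ c : ℝ, B0 (o k) = c • o k := ho 1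
  have hoP : ∀ k, ∃ c : ℝ, P0 (o k) = c • o k := ho 2
  -- series
  set κh := flowSeries G.e x0 G.κ with hκh
  set Ah : Fin (m + 2) → Fin (m + 2) → PowerSeries ℝ :=
    fun i j => flowSeries G.e x0 (G.a (o i) (o j)) with hAh
  set Bh : Fin (m + 2) → Fin (m + 2) → PowerSeries ℝ :=
    fun i j => flowSeries G.e x0 (G.b (o i) (o j)) with hBh
  have sm_a := fun i j => G.a_smooth (o i) (o j)
  have sm_b := fun i j => G.b_smooth (o i) (o j)
  have sm_LD : ∀ {φ : Xm m → ℝ}, ContDiffOn ℝ smth φ G.U → ContDiffOn ℝ smth (LD G.e φ) G.U :=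
    fun h => LD_smooth G.hU G.he h
  -- `P` series is constant
  set Pd : Fin (m + 2) → ℝ := fun i => inner ℝ (o i) (G.P (o i) x0) with hPd
  have hPser : ∀ i j, flowSeries G.e x0 (fun x => inner ℝ (o i) (G.P (o j) x))
      = C (if i = j then Pd i else 0) := by
    intro i j
    have h1 : d⁄dX ℝ (flowSeries G.e x0 (fun x => inner ℝ (o i) (G.P (o j) x))) = 0 := by
      rw [← flowSeries_LD]
      rw [flowSeries_congr G.hU hx0 (ψ := fun _ => (0 : ℝ)) (fun x hx => G.LD_P (o i) (o j) x hx),
        flowSeries_const, map_zero]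
    have h2 : constantCoeff (flowSeries G.e x0 (fun x => inner ℝ (o i) (G.P (o j) x)))
        = if i = j then Pd i else 0 := by
      rw [constantCoeff_flowSeries]
      by_cases hij : i = j
      · subst hij; simp [hPd]
      · rw [if_neg hij]
        obtain ⟨c, hc⟩ := hoP j
        have : G.P (o j) x0 = c • o j := hc
        rw [this, inner_smul_right, o.inner_eq_zero hij, mul_zero]
    apply PowerSeries.derivative.ext
    · rw [h1]; simp
    · rw [h2]; simp
  have hAser : ∀ i j, d⁄dX ℝ (Ah i j) = κh * Bh i j - ∑ k, Ah i k * Bh k j := by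
    intro i j
    rw [hAh, hBh, hκh]
    simp only
    rw [← flowSeries_LD, flowSeries_congr G.hU hx0 (fun x hx => G.LD_a o (o i) (o j) x hx)]
    have s1 : ContDiffOn ℝ smth (fun x => G.κ x * G.b (o i) (o j) x) G.U := G.hκ.mul (sm_b i j)
    have s2 : ∀ k, ContDiffOn ℝ smth (fun x => G.a (o i) (o k) x * G.b (o k) (o j) x) G.U :=
      fun k => (sm_a i k).mul (sm_b k j)
    have s3 : ContDiffOn ℝ smth (fun x => (-1 : ℝ) * ∑ k, G.a (o i) (o k) x * G.b (o k) (o j) x) G.U :=
      contDiffOn_const.mul (ContDiffOn.sum fun k _ => s2 k)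
    have e1 : (fun x => G.κ x * G.b (o i) (o j) x - ∑ k, G.a (o i) (o k) x * G.b (o k) (o j) x)
        = fun x => (G.κ x * G.b (o i) (o j) x)
          + ((-1 : ℝ) * ∑ k, G.a (o i) (o k) x * G.b (o k) (o j) x) := by
      funext x; ring
    rw [e1, flowSeries_add G.hU hx0 G.he s1 s3, flowSeries_mul G.hU hx0 G.he G.hκ (sm_b i j),
      flowSeries_mul G.hU hx0 G.he contDiffOn_const (ContDiffOn.sum fun k _ => s2 k),
      flowSeries_const, flowSeries_sum G.hU hx0 G.he Finset.univ (fun k _ => s2 k)]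
    rw [Finset.sum_congr rfl fun k _ => flowSeries_mul G.hU hx0 G.he (sm_a i k) (sm_b k j)]
    simp only [map_neg, map_one]
    ring
  have hBser : ∀ i j, d⁄dX ℝ (Bh i j) = - C (if i = j then Pd i else 0) - κh * Ah i j
      - ∑ k, Bh i k * Bh k j := by
    intro i j
    rw [hAh, hBh, hκh]
    simp only
    rw [← flowSeries_LD, flowSeries_congr G.hU hx0 (fun x hx => G.LD_b o (o i) (o j) x hx)]
    have s0 : ContDiffOn ℝ smth (fun x => inner ℝ (o i) (G.P (o j) x)) G.U :=
      contDiffOn_const.inner ℝ (G.P_smooth (o j))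
    have s1 : ContDiffOn ℝ smth (fun x => G.κ x * G.a (o i) (o j) x) G.U := G.hκ.mul (sm_a i j)
    have s2 : ∀ k, ContDiffOn ℝ smth (fun x => G.b (o i) (o k) x * G.b (o k) (o j) x) G.U :=
      fun k => (sm_b i k).mul (sm_b k j)
    have s2' : ContDiffOn ℝ smth (fun x => ∑ k, G.b (o i) (o k) x * G.b (o k) (o j) x) G.U :=
      ContDiffOn.sum fun k _ => s2 k
    have s3 : ContDiffOn ℝ smth (fun x => (G.κ x * G.a (o i) (o j) x)
        + ∑ k, G.b (o i) (o k) x * G.b (o k) (o j) x) G.U := s1.add s2'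
    have e1 : (fun x => - inner ℝ (o i) (G.P (o j) x) - G.κ x * G.a (o i) (o j) x
        - ∑ k, G.b (o i) (o k) x * G.b (o k) (o j) x)
        = fun x => (-1 : ℝ) * (inner ℝ (o i) (G.P (o j) x) + ((G.κ x * G.a (o i) (o j) x)
          + ∑ k, G.b (o i) (o k) x * G.b (o k) (o j) x)) := by
      funext x; ring
    rw [e1, flowSeries_mul G.hU hx0 G.he contDiffOn_const (s0.add s3), flowSeries_const,
      flowSeries_add G.hU hx0 G.he s0 s3, flowSeries_add G.hU hx0 G.he s1 s2',
      flowSeries_mul G.hU hx0 G.he G.hκ (sm_a i j),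
      flowSeries_sum G.hU hx0 G.he Finset.univ (fun k _ => s2 k), hPser]
    rw [Finset.sum_congr rfl fun k _ => flowSeries_mul G.hU hx0 G.he (sm_b i k) (sm_b k j)]
    simp only [map_neg, map_one]
    ring
  have hPval : ∀ i, Pd i = 0 ∨ Pd i = 1 := by
    intro i
    obtain ⟨c, hc⟩ := hoP i
    have h1 : Pd i = c := by
      have : G.P (o i) x0 = c • o i := hc
      rw [hPd]; simp only
      rw [this, inner_smul_right]; simp
    have h2 : P0 (P0 (o i)) = P0 (o i) := by
      have hTT := G.TT x0 hx0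
      have hff := G.ff x0 hx0
      have hNN := G.NN x0 hx0
      have hNf := G.Nf x0 hx0
      have hNT : inner ℝ (G.N x0) (G.T x0) = 0 := G.NDf x0 hx0 _
      have hfT : inner ℝ (G.f x0) (G.T x0) = 0 := G.f_Df hx0 (G.e x0)
      have hfN : inner ℝ (G.f x0) (G.N x0) = 0 := by rw [real_inner_comm]; exact hNf
      have hTf : inner ℝ (G.T x0) (G.f x0) = 0 := by rw [real_inner_comm]; exact hfT
      have hTN : inner ℝ (G.T x0) (G.N x0) = 0 := by rw [real_inner_comm]; exact hNT
      have hTT' : inner ℝ (G.T x0) (G.T x0) = 1 := hTT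
      show G.P (G.P (o i) x0) x0 = G.P (o i) x0
      have hfP : inner ℝ (G.f x0) (G.P (o i) x0) = 0 := by
        simp only [Setup.P, inner_sub_right, inner_smul_right]
        rw [hff, hfT, hfN]
        ring
      have hTP : inner ℝ (G.T x0) (G.P (o i) x0) = 0 := by
        simp only [Setup.P, inner_sub_right, inner_smul_right]
        rw [hTT', hTf, hTN]
        ring
      have hNP : inner ℝ (G.N x0) (G.P (o i) x0) = 0 := by
        simp only [Setup.P, inner_sub_right, inner_smul_right]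
        rw [hNN, hNf, hNT]
        ring
      rw [show G.P (G.P (o i) x0) x0 = G.P (o i) x0 - inner ℝ (G.f x0) (G.P (o i) x0) • G.f x0
        - inner ℝ (G.T x0) (G.P (o i) x0) • G.T x0 - inner ℝ (G.N x0) (G.P (o i) x0) • G.N x0
        from rfl, hfP, hTP, hNP]
      simp
    rw [hc, map_smul, hc, smul_smul] at h2
    have h3 : (c * c - c) • o i = 0 := by rw [sub_smul, h2, sub_self]
    have h4 : o i ≠ 0 := by
      intro h; have := o.norm_eq_one i; rw [h, norm_zero] at this; exact zero_ne_one this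
    rcases smul_eq_zero.mp h3 with h | h
    · rw [h1]
      have : c * (c - 1) = 0 := by linear_combination h
      rcases mul_eq_zero.mp this with h | h
      · left; exact h
      · right; linear_combination h
    · exact absurd h h4
  have hoff : ∀ (L : Em m →ₗ[ℝ] Em m), (∀ k, ∃ c : ℝ, L (o k) = c • o k) →
      ∀ i j, i ≠ j → inner ℝ (o i) (L (o j)) = 0 := by
    intro L hL i j hij
    obtain ⟨c, hc⟩ := hL j
    rw [hc, inner_smul_right, o.inner_eq_zero hij, mul_zero]
  have hPzero : ∀ i, Pd i = 0 → P0 (o i) = 0 := by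
    intro i hi
    obtain ⟨c, hc⟩ := hoP i
    have h1 : Pd i = c := by
      have : G.P (o i) x0 = c • o i := hc
      rw [hPd]; simp only
      rw [this, inner_smul_right]; simp
    rw [hc, ← h1, hi, zero_smul]
  have hfinal := no_formal_matrix' κh Ah Bh Pd hPval hAser hBser
    (fun i j hij => by
      show constantCoeff (flowSeries G.e x0 (G.a (o i) (o j))) = 0
      rw [constantCoeff_flowSeries, ← hA0]; exact hoff A0 hoA i j hij)
    (fun i j hij => by
      show constantCoeff (flowSeries G.e x0 (G.b (o i) (o j))) = 0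
      rw [constantCoeff_flowSeries, ← hB0]; exact hoff B0 hoB i j hij)
    (fun i hi => by
      show constantCoeff (flowSeries G.e x0 (G.a (o i) (o i))) = 0
      rw [constantCoeff_flowSeries, ← hA0, ← hAP]
      simp only [Module.End.mul_apply]
      rw [hPzero i hi, map_zero, inner_zero_right])
    (fun i hi => by
      show constantCoeff (flowSeries G.e x0 (G.b (o i) (o i))) = 0
      rw [constantCoeff_flowSeries, ← hB0, ← hBP]
      simp only [Module.End.mul_apply]
      rw [hPzero i hi, map_zero, inner_zero_right])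
    (by
      rw [hAh, hκh]
      simp only
      rw [← flowSeries_sum G.hU hx0 G.he Finset.univ (fun k _ => sm_a k k),
        flowSeries_congr G.hU hx0 (ψ := fun x => (-3 : ℝ) * G.κ x) (fun x hx => E1 o x hx),
        flowSeries_mul G.hU hx0 G.he contDiffOn_const G.hκ, flowSeries_const, map_neg, map_ofNat])
    (by
      have hs : ∑ i, Pd i + 1 = (m : ℝ) := by
        have := G.trace_P o x0 hx0
        rw [hPd]; simp only
        rw [this]; ring
      rw [hs]
      have sL1 := sm_LD G.hκ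
      have sL2 := sm_LD sL1
      have sb : ContDiffOn ℝ smth (fun x => ∑ k, G.b (o k) (o k) x) G.U :=
        ContDiffOn.sum fun k _ => sm_b k k
      have saa : ∀ k l, ContDiffOn ℝ smth (fun x => G.a (o k) (o l) x * G.a (o l) (o k) x) G.U :=
        fun k l => (sm_a k l).mul (sm_a l k)
      have sa1 : ∀ k, ContDiffOn ℝ smth (fun x => ∑ l, G.a (o k) (o l) x * G.a (o l) (o k) x) G.U :=
        fun k => ContDiffOn.sum fun l _ => saa k l
      have sa2 : ContDiffOn ℝ smth (fun x => ∑ k, ∑ l, G.a (o k) (o l) x * G.a (o l) (o k) x) G.U :=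
        ContDiffOn.sum fun k _ => sa1 k
      have sκ2 : ContDiffOn ℝ smth (fun x => G.κ x * G.κ x) G.U := G.hκ.mul G.hκ
      have s1 : ContDiffOn ℝ smth (fun x => LD G.e G.κ x * ∑ k, G.b (o k) (o k) x) G.U :=
        sL1.mul sb
      have s2 : ContDiffOn ℝ smth (fun x => G.κ x * G.κ x
          + ∑ k, ∑ l, G.a (o k) (o l) x * G.a (o l) (o k) x) G.U := sκ2.add sa2
      have s3 : ContDiffOn ℝ smth (fun x => (-1 : ℝ) * (G.κ x * G.κ x
          + ∑ k, ∑ l, G.a (o k) (o l) x * G.a (o l) (o k) x)) G.U := contDiffOn_const.mul s2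
      have s4 : ContDiffOn ℝ smth (fun x => (m : ℝ) + (-1 : ℝ) * (G.κ x * G.κ x
          + ∑ k, ∑ l, G.a (o k) (o l) x * G.a (o l) (o k) x)) G.U := contDiffOn_const.add s3
      have s5 : ContDiffOn ℝ smth (fun x => G.κ x * ((m : ℝ) + (-1 : ℝ) * (G.κ x * G.κ x
          + ∑ k, ∑ l, G.a (o k) (o l) x * G.a (o l) (o k) x))) G.U := G.hκ.mul s4
      have key : flowSeries G.e x0 (fun x => (LD G.e (LD G.e G.κ) x
          + LD G.e G.κ x * ∑ k, G.b (o k) (o k) x)
          + G.κ x * ((m : ℝ) + (-1 : ℝ) * (G.κ x * G.κ x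
            + ∑ k, ∑ l, G.a (o k) (o l) x * G.a (o l) (o k) x))) = 0 := by
        rw [flowSeries_congr G.hU hx0 (ψ := fun _ => (0 : ℝ)) (fun x hx => ?_), flowSeries_const,
          map_zero]
        rw [← E2 o x hx]; ring
      rw [flowSeries_add G.hU hx0 G.he (sL2.add s1) s5,
        flowSeries_add G.hU hx0 G.he sL2 s1,
        flowSeries_mul G.hU hx0 G.he sL1 sb,
        flowSeries_mul G.hU hx0 G.he G.hκ s4,
        flowSeries_add G.hU hx0 G.he contDiffOn_const s3,
        flowSeries_mul G.hU hx0 G.he contDiffOn_const s2,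
        flowSeries_add G.hU hx0 G.he sκ2 sa2,
        flowSeries_mul G.hU hx0 G.he G.hκ G.hκ,
        flowSeries_sum G.hU hx0 G.he Finset.univ (fun k _ => sa1 k),
        flowSeries_sum G.hU hx0 G.he Finset.univ (fun k _ => sm_b k k),
        flowSeries_const, flowSeries_const, flowSeries_LD, flowSeries_LD] at key
      rw [Finset.sum_congr rfl fun k _ =>
        flowSeries_sum G.hU hx0 G.he Finset.univ (fun l _ => saa k l)] at key
      rw [Finset.sum_congr rfl fun k _ => Finset.sum_congr rfl fun l _ =>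
        flowSeries_mul G.hU hx0 G.he (sm_a k l) (sm_a l k)] at key
      rw [← key, hAh, hBh, hκh]
      simp only [map_neg, map_one]
      ring)
  -- contradiction at x0
  have h1 : constantCoeff (d⁄dX ℝ κh) = G.r x0 := by
    rw [hκh, ← flowSeries_LD, constantCoeff_flowSeries]
    show fderiv ℝ G.κ x0 (G.e x0) = G.r x0
    rw [G.dκ x0 hx0, G.TT x0 hx0, mul_one]
  rw [hfinal, map_zero] at h1
  exact G.r0 x0 hx0 h1.symm

end BH
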