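import Mathlib
import Pool.Agent.Lib_helper71.BH.Final

set_option autoImplicit false

namespace BH

open Matrix Set Filter Topology Geo3

theorem main_const (m : ℕ) (U : Set (Fin m → ℝ)) (f N : (Fin m → ℝ) → EuclideanSpace ℝ (Fin (m + 2)))
    (hU : IsOpen U) (hUc : IsConnected U)
    (hf : ContDiffOn ℝ ((⊤ : ℕ∞) : WithTop ℕ∞) f U)
    (hN : ContDiffOn ℝ ((⊤ : ℕ∞) : WithTop ℕ∞) N U)
    (hfr : ∀ x ∈ U, ‖f x‖ = 1 ∧ ‖N x‖ = 1 ∧ inner ℝ (N x) (f x) = 0 ∧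
        (∀ i : Fin m, inner ℝ (N x) (fderiv ℝ f x (Pi.single i (1 : ℝ))) = 0) ∧
        LinearIndependent ℝ (fun i : Fin m => fderiv ℝ f x (Pi.single i (1 : ℝ))))
    (g S : (Fin m → ℝ) → Matrix (Fin m) (Fin m) ℝ) (H : (Fin m → ℝ) → ℝ)
    (hg : ∀ x, g x = Matrix.of (fun i j : Fin m =>
          inner ℝ (fderiv ℝ f x (Pi.single i (1 : ℝ))) (fderiv ℝ f x (Pi.single j (1 : ℝ)))))
    (hS : ∀ x, S x = (g x)⁻¹ * Matrix.of (fun i j : Fin m =>
          inner ℝ (fderiv ℝ (fun y => fderiv ℝ f y (Pi.single i (1 : ℝ))) x (Pi.single j (1 : ℝ))) (N x)))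
    (hH : ∀ x, H x = Matrix.trace (S x) / (m : ℝ))
    (heq1 : ∀ x ∈ U,
        (1 / Real.sqrt (g x).det) *
            ∑ i : Fin m, fderiv ℝ (fun y => Real.sqrt (g y).det *
              ∑ j : Fin m, (g y)⁻¹ i j * fderiv ℝ H y (Pi.single j (1 : ℝ))) x (Pi.single i (1 : ℝ))
          + ((m : ℝ) - Matrix.trace (S x * S x)) * H x = 0)
    (heq2 : ∀ x ∈ U,
        (2 : ℝ) • (S x).mulVec ((g x)⁻¹.mulVec (fun j : Fin m => fderiv ℝ H x (Pi.single j (1 : ℝ))))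
          + ((m : ℝ) * H x) • (g x)⁻¹.mulVec (fun j : Fin m => fderiv ℝ H x (Pi.single j (1 : ℝ)))
          = 0) :
    ∃ c : ℝ, ∀ x ∈ U, H x = c := by
  have hsm := H_smooth m U f N hU hf hN hfr g S H hg hS hH
  by_cases hz : ∀ x ∈ U, fderiv ℝ H x = 0
  · have hd : DifferentiableOn ℝ H U := hsm.differentiableOn (by simp)
    exact hU.exists_is_const_of_fderiv_eq_zero hUc.isPreconnected hd hz
  · push Not at hz
    obtain ⟨x0, hx0, hd⟩ := hz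
    obtain ⟨G, hG, E1, E2⟩ := exists_setup m U f N hU hf hN hfr g S H hg hS hH heq1 heq2 x0 hx0 hd
    exact (setup_absurd G x0 hG E1 E2).elim

end BH
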